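import Mathlib

set_option autoImplicit false

namespace Pool.Agent.Lib.MP_3a2c26_co

/-- The Laplacian matrix of the weighted graph with weights `w`. -/
def lap {n : ℕ} (w : Fin n → Fin n → ℝ) : Matrix (Fin n) (Fin n) ℝ :=
  Matrix.of fun i j => if i = j then ∑ k ∈ Finset.univ.erase i, w i k else -w i j

end Pool.Agent.Lib.MP_3a2c26_co
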