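import Pool.Agent.Lib.MP_3a2c26_co.Eigen

/-! Algebraic connectivity and the number of vertices of eccentricity at most two. -/

set_option autoImplicit false

namespace Pool.Agent.Lib.MP_3a2c26_co

open Finset Matrix

lemma ecc_side {ι : Type} (W : Finset ι) (d : ι → ℝ) {q p D L : ℝ} (hd : ∑ i ∈ W, d i ≤ D)
    (hq : 0 ≤ q) (hp : 0 ≤ p) (hL : 0 ≤ L) (h : -L ≤ q - p * D) :
    -L ≤ ∑ i ∈ W, (q - p * d i) := by
  rcases W.eq_empty_or_nonempty with rfl | hW
  · simpa using hL
  · rw [sum_sub_distrib, sum_const, nsmul_eq_mul, ← mul_sum]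
    have h1 : (1 : ℝ) ≤ W.card := by exact_mod_cast hW.card_pos
    nlinarith [mul_le_mul_of_nonneg_left hd hp]

variable {n : ℕ}

open Classical in
/-- The drops from a maximum over its closed neighbourhood. -/
lemma ecc_drop (w : Fin n → Fin n → ℝ) (h0 : ∀ i j, 0 ≤ w i j) (f : Fin n → ℝ) (a : Fin n)
    (ha : ∀ j, f j ≤ f a) {D : ℝ} (he : ∑ j, w a j * (f a - f j) = D) (W : Finset (Fin n))
    (hW : ∀ j ∈ W, j = a ∨ 1 ≤ w a j) : ∑ j ∈ W, (f a - f j) ≤ D := by
  rw [← he]
  refine le_trans (sum_le_sum fun j hj => ?_) (sum_le_sum_of_subset_of_nonneg (subset_univ W)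
    fun j _ _ => mul_nonneg (h0 a j) (sub_nonneg.2 (ha j)))
  rcases hW j hj with rfl | h
  · simp
  · exact le_mul_of_one_le_left (sub_nonneg.2 (ha j)) h

theorem ecc_core (w : Fin n → Fin n → ℝ) (hw : ∀ i j, w i j = w j i) (h0 : ∀ i j, 0 ≤ w i j)
    (f : Fin n → ℝ) {v : ℝ} (v0 : 0 < v) (v1 : v ≤ 1) (hf : ∑ i, f i = 0) (hf0 : f ≠ 0)
    (he : lap w *ᵥ f = (1 - v) • f) (M : Finset (Fin n))
    (hM : ∀ i ∈ M, ∀ a, ∃ t, (t = a ∨ 1 ≤ w a t) ∧ (t = i ∨ 1 ≤ w i t)) :
    (M.card : ℝ) * (1 + v) ≤ (1 - v) * (n + 2 * v) := by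
  classical
  obtain ⟨i0, hi0⟩ := Function.ne_iff.1 hf0
  obtain ⟨a, -, ha⟩ := exists_max_image univ f ⟨i0, mem_univ _⟩
  obtain ⟨b, -, hb⟩ := exists_min_image univ f ⟨i0, mem_univ _⟩
  replace ha := fun j => ha j (mem_univ j)
  replace hb := fun j => hb j (mem_univ j)
  have hh : 0 < f a := lt_of_not_ge fun e => hi0
    ((sum_eq_zero_iff_of_nonpos fun j _ => (ha j).trans e).1 hf i0 (mem_univ _))
  have hk : 0 < -f b := neg_pos.2 (lt_of_not_ge fun e => hi0
    ((sum_eq_zero_iff_of_nonneg fun j _ => e.trans (hb j)).1 hf i0 (mem_univ _)))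
  have he' : ∀ i, ∑ j, w i j * (f i - f j) = (1 - v) * f i := fun i => by
    rw [← lap_mulVec, he]
    rfl
  have dS := ecc_drop w h0 f a ha (he' a)
  have dT := ecc_drop w h0 (fun i => -f i) b (fun j => neg_le_neg (hb j)) (D := (1 - v) * -f b)
    (by rw [mul_neg, ← he' b, ← sum_neg_distrib]; exact sum_congr rfl fun j _ => by ring)
  obtain ⟨h, eh⟩ : ∃ h, f a = h := ⟨_, rfl⟩
  obtain ⟨k, ek⟩ : ∃ k, -f b = k := ⟨_, rfl⟩
  have hb' : ∀ j, -f j ≤ k := fun j => ek ▸ neg_le_neg (hb j)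
  simp only [eh, ek] at ha hh hk dS dT
  obtain ⟨S, eS⟩ : ∃ S : Fin n → Prop, ∀ j, S j ↔ j = a ∨ 1 ≤ w a j := ⟨_, fun _ => Iff.rfl⟩
  obtain ⟨T, eT⟩ : ∃ T : Fin n → Prop, ∀ j, T j ↔ j = b ∨ 1 ≤ w b j := ⟨_, fun _ => Iff.rfl⟩
  have hS : ∀ j, S j → v * h ≤ f j := fun j hj => by
    have := dS {j} (by simpa using (eS j).1 hj)
    rw [sum_singleton] at this
    linarith
  have hT : ∀ j, T j → f j ≤ -(v * k) := fun j hj => by
    have := dT {j} (by simpa using (eT j).1 hj)
    rw [sum_singleton] at this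
    linarith
  have vh : 0 < v * h := by positivity
  have vk : 0 < v * k := by positivity
  have hST : ∀ j, S j → ¬ T j := fun j h1 h2 => by linarith [hS j h1, hT j h2]
  obtain ⟨g, hg⟩ : ∃ g : Fin n → ℝ, ∀ i, (v * h ≤ f i ∧ g i = h + v * k) ∨
      (f i ≤ -(v * k) ∧ g i = -(k + v * h)) ∨ (-(v * k) < f i ∧ f i < v * h ∧ g i = 0) := by
    refine ⟨fun i => if v * h ≤ f i then h + v * k else if f i ≤ -(v * k) then -(k + v * h)
      else 0, fun i => ?_⟩
    dsimp only
    split_ifs with h1 h2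
    · exact Or.inl ⟨h1, rfl⟩
    · exact Or.inr (Or.inl ⟨h2, rfl⟩)
    · exact Or.inr (Or.inr ⟨not_le.1 h2, not_le.1 h1, rfl⟩)
  have gS : ∀ j, S j → g j = h + v * k := fun j hj => by
    have := hS j hj
    rcases hg j with e | e | e
    exacts [e.2, by linarith [e.1], by linarith [e.2.1]]
  have gT : ∀ j, T j → g j = -(k + v * h) := fun j hj => by
    have := hT j hj
    rcases hg j with e | e | e
    exacts [by linarith [e.1], e.2, by linarith [e.1]]
  have t0 : ∀ i j, 0 ≤ (f i - f j) * (g i - g j) := fun i j => by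
    rcases hg i with ⟨e1, e2⟩ | ⟨e1, e2⟩ | ⟨e1, e1', e2⟩ <;>
    rcases hg j with ⟨e3, e4⟩ | ⟨e3, e4⟩ | ⟨e3, e3', e4⟩ <;> rw [e2, e4] <;>
    first
      | exact mul_nonneg (by linarith) (by linarith)
      | exact mul_nonneg_of_nonpos_of_nonpos (by linarith) (by linarith)
      | simp
  obtain ⟨δ, eδ⟩ : ∃ δ, δ = v * (h ^ 2 - k ^ 2) / 2 := ⟨_, rfl⟩
  obtain ⟨c, hc⟩ : ∃ c : Fin n → Fin n → ℝ, ∀ i j, c i j =
      if S i ∧ T j then (1 + v) * ((h + k) * f i - δ)
      else if T i ∧ S j then (1 + v) * (-(h + k) * f i + δ)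
      else if (¬ S i ∧ ¬ T i) ∧ (S j ∨ T j) then (f i - f j) * (g i - g j) else 0 :=
    ⟨_, fun _ _ => rfl⟩
  have hk2 : 0 < h * k := by positivity
  have sq : 2 * (h * k) ≤ h ^ 2 + k ^ 2 := by nlinarith [sq_nonneg (h - k)]
  have c0 : ∀ i j, 0 ≤ c i j := fun i j => by
    simp only [hc]
    split_ifs with h1 h2 h3
    · have := mul_le_mul_of_nonneg_left (hS i h1.1) (by positivity : 0 ≤ h + k)
      refine mul_nonneg (by linarith) ?_
      nlinarith [mul_pos v0 hk2, mul_pos vh hh, mul_pos vk hk]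
    · have := mul_le_mul_of_nonneg_left (hT i h2.1) (by positivity : 0 ≤ h + k)
      refine mul_nonneg (by linarith) ?_
      nlinarith [mul_pos v0 hk2, mul_pos vh hh, mul_pos vk hk]
    · exact t0 i j
    · rfl
  have c1 : ∀ i j, c i j + c j i ≤ (f i - f j) * (g i - g j) := fun i j => by
    have := t0 i j
    simp only [hc]
    by_cases a1 : S i <;> by_cases a2 : T i <;> by_cases a3 : S j <;> by_cases a4 : T j <;>
      first
        | exact absurd a2 (hST i a1)
        | exact absurd a4 (hST j a3)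
        | skip
    all_goals simp only [a1, a2, a3, a4, and_true, and_false, true_and, false_and, if_true,
      if_false, not_true, not_false_iff, or_true, true_or, or_false]
    · linarith
    · rw [gS i a1, gT j a4]
      linarith
    · linarith
    · rw [gT i a2, gS j a3]
      linarith
    all_goals linarith
  have key : ∑ i, (∑ j, w i j * c i j - ((1 - v) * g i + (1 - v) * (k - h)) * f i) ≤ 0 := by
    have e1 := form_eq w hw f g
    have e2 : ∑ i, ∑ j, w i j * c j i = ∑ i, ∑ j, w i j * c i j := by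
      rw [sum_comm]
      exact sum_congr rfl fun i _ => sum_congr rfl fun j _ => by rw [hw]
    have e3 : ∑ i, ∑ j, w i j * c i j + ∑ i, ∑ j, w i j * c j i ≤
        ∑ i, ∑ j, w i j * ((f i - f j) * (g i - g j)) := by
      rw [← sum_add_distrib]
      refine sum_le_sum fun i _ => ?_
      rw [← sum_add_distrib]
      exact sum_le_sum fun j _ => by
        rw [← mul_add]
        exact mul_le_mul_of_nonneg_left (c1 i j) (h0 i j)
    have e4 : ∑ i, ((1 - v) * g i + (1 - v) * (k - h)) * f i =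
        ∑ i, g i * (lap w *ᵥ f) i + (1 - v) * (k - h) * ∑ i, f i := by
      rw [he, mul_sum, ← sum_add_distrib]
      exact sum_congr rfl fun i _ => by
        rw [Pi.smul_apply, smul_eq_mul]
        ring
    rw [sum_sub_distrib, e4, hf]
    linarith
  have one : ∀ i t, 1 ≤ w i t → c i t ≤ ∑ j, w i j * c i j := fun i t ht =>
    (le_mul_of_one_le_left (c0 i t) ht).trans
      (single_le_sum (f := fun j => w i j * c i j) (fun j _ => mul_nonneg (h0 i j) (c0 i j))
        (mem_univ t))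
  have two : ∀ i s t, s ≠ t → 1 ≤ w i s → 1 ≤ w i t → c i s + c i t ≤ ∑ j, w i j * c i j :=
    fun i s t hst hs ht => (add_le_add (le_mul_of_one_le_left (c0 i s) hs)
      (le_mul_of_one_le_left (c0 i t) ht)).trans (add_le_sum (f := fun j => w i j * c i j)
        (fun j _ => mul_nonneg (h0 i j) (c0 i j)) (mem_univ s) (mem_univ t) hst)
  have lv : 0 ≤ 1 - v := by linarith
  have low : ∀ i, (if i ∈ M then 2 * v * ((1 + v) * (h * k)) else
      -((1 - v) * ((1 + v) * (h * k)))) +
      (if i ∈ M ∧ S i then (1 + v) * (((h + v * k) * h - δ - 2 * v * (h * k)) -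
        (h + v * k) * (h - f i)) else 0) +
      (if i ∈ M ∧ T i then (1 + v) * (((k + v * h) * k + δ - 2 * v * (h * k)) -
        (k + v * h) * (k - -f i)) else 0) ≤
      ∑ j, w i j * c i j - ((1 - v) * g i + (1 - v) * (k - h)) * f i := fun i => by
    by_cases m : i ∈ M
    · obtain ⟨s, s1, s2⟩ := hM i m a
      obtain ⟨t, t1, t2⟩ := hM i m b
      replace s1 := (eS s).2 s1
      replace t1 := (eT t).2 t1
      by_cases a1 : S i
      · have a2 := hST i a1
        have a3 := one i t (t2.resolve_left fun e => a2 (e ▸ t1))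
        rw [hc i t, if_pos ⟨a1, t1⟩] at a3
        simp only [m, a1, a2, and_self, and_false, if_true, if_false, gS i a1]
        linarith
      by_cases a2 : T i
      · have a3 := one i s (s2.resolve_left fun e => a1 (e ▸ s1))
        rw [hc i s, if_neg fun e => a1 e.1, if_pos ⟨a2, s1⟩] at a3
        simp only [m, a1, a2, and_self, and_false, if_true, if_false, gT i a2]
        linarith
      have a3 := two i s t (fun e => hST s s1 (e ▸ t1)) (s2.resolve_left fun e => a1 (e ▸ s1))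
        (t2.resolve_left fun e => a2 (e ▸ t1))
      rw [hc i s, hc i t, if_neg fun e => a1 e.1, if_neg fun e => a2 e.1,
        if_pos ⟨⟨a1, a2⟩, Or.inl s1⟩, if_neg fun e => a1 e.1, if_neg fun e => a2 e.1,
        if_pos ⟨⟨a1, a2⟩, Or.inr t1⟩, gS s s1, gT t t1] at a3
      simp only [m, a1, a2, and_false, if_true, if_false]
      have b1 := hS s s1
      have b2 := hT t t1
      have b3 : 0 ≤ v * (1 + v) * (h ^ 2 + k ^ 2 - 2 * (h * k)) :=
        mul_nonneg (by positivity) (by linarith)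
      have b4 : 0 ≤ v * (1 + v) * (h * k) := by positivity
      rcases hg i with ⟨e1, e2⟩ | ⟨e1, e2⟩ | ⟨e1, e1', e2⟩ <;> rw [e2] at a3 ⊢
      · have b5 := mul_le_mul_of_nonneg_left b2 (by positivity : 0 ≤ (1 + v) * (h + k))
        have b6 := mul_le_mul_of_nonneg_left e1 (by positivity : 0 ≤ (1 + v) * (h + v * k))
        have b7 := mul_nonneg v0.le b4
        linarith
      · have b5 := mul_le_mul_of_nonneg_left b1 (by positivity : 0 ≤ (1 + v) * (h + k))
        have b6 := mul_le_mul_of_nonneg_left e1 (by positivity : 0 ≤ (1 + v) * (k + v * h))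
        have b7 := mul_nonneg v0.le b4
        linarith
      · have b5 := mul_le_mul_of_nonneg_left b1 (by positivity : 0 ≤ h + v * k)
        have b6 := mul_le_mul_of_nonneg_left b2 (by positivity : 0 ≤ k + v * h)
        have b7 : 0 ≤ v * (h ^ 2 + k ^ 2 - 2 * (h * k)) := mul_nonneg v0.le (by linarith)
        linarith
    · have a3 : 0 ≤ ∑ j, w i j * c i j := sum_nonneg fun j _ => mul_nonneg (h0 i j) (c0 i j)
      simp only [m, false_and, if_false]
      rcases hg i with ⟨e1, e2⟩ | ⟨e1, e2⟩ | ⟨e1, e1', e2⟩ <;> rw [e2]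
      · have := mul_le_mul_of_nonneg_left (ha i) (by positivity : 0 ≤ (1 - v) * (1 + v) * k)
        linarith
      · have := mul_le_mul_of_nonneg_left (hb' i) (by positivity : 0 ≤ (1 - v) * (1 + v) * h)
        linarith
      · have b1 := mul_le_mul_of_nonneg_left (ha i) (by positivity : 0 ≤ (1 - v) * k)
        have b2 := mul_le_mul_of_nonneg_left e1.le (by positivity : 0 ≤ (1 - v) * h)
        linarith
  have s1 := ecc_side (univ.filter fun i => i ∈ M ∧ S i) (fun i => h - f i)
    (q := (h + v * k) * h - δ - 2 * v * (h * k)) (p := h + v * k) (L := (1 - v) * v * (h * k))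
    (dS _ fun j hj => (eS j).1 (mem_filter.1 hj).2.2)
    (by nlinarith [mul_nonneg v0.le (sub_nonneg.2 sq), mul_nonneg lv (sq_nonneg h)])
    (by positivity) (by positivity) (by nlinarith [mul_nonneg v0.le (sub_nonneg.2 sq)])
  have s2 := ecc_side (univ.filter fun i => i ∈ M ∧ T i) (fun i => k - -f i)
    (q := (k + v * h) * k + δ - 2 * v * (h * k)) (p := k + v * h) (L := (1 - v) * v * (h * k))
    (dT _ fun j hj => (eT j).1 (mem_filter.1 hj).2.2)
    (by nlinarith [mul_nonneg v0.le (sub_nonneg.2 sq), mul_nonneg lv (sq_nonneg k)])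
    (by positivity) (by positivity) (by nlinarith [mul_nonneg v0.le (sub_nonneg.2 sq)])
  have fin := (sum_le_sum fun i (_ : i ∈ univ) => low i).trans key
  rw [sum_add_distrib, sum_add_distrib, ← sum_filter, ← sum_filter, ← mul_sum, ← mul_sum, sum_ite,
    sum_const, sum_const, nsmul_eq_mul, nsmul_eq_mul, filter_mem_eq_inter, univ_inter] at fin
  have cM : ((univ.filter fun i => i ∉ M).card : ℝ) = n - M.card := by
    rw [filter_notMem_eq_sdiff, card_univ_diff, Nat.cast_sub (card_le_univ M), Fintype.card_fin]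
  rw [cM] at fin
  have s3 := mul_le_mul_of_nonneg_left s1 (by positivity : 0 ≤ 1 + v)
  have s4 := mul_le_mul_of_nonneg_left s2 (by positivity : 0 ≤ 1 + v)
  refine le_of_mul_le_mul_right ?_ (by positivity : 0 < (1 + v) * (h * k))
  linarith

end Pool.Agent.Lib.MP_3a2c26_co
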