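import Pool.Agent.Lib.MP_3a2c26_co.Ecc

/-! The eccentricity bound for the second smallest Laplacian eigenvalue of a simple graph. -/

set_option autoImplicit false

namespace Pool.Agent.Lib.MP_3a2c26_co

open Finset Matrix

variable {n : ℕ}

lemma ecc_lap (G : SimpleGraph (Fin n)) [DecidableRel G.Adj] :
    G.lapMatrix ℝ = lap fun i j => if G.Adj i j then 1 else 0 := by
  refine Matrix.ext_iff_mulVec.2 fun x => funext fun i => ?_
  rw [lap_mulVec, SimpleGraph.lapMatrix_mulVec_apply, SimpleGraph.degree,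
    SimpleGraph.neighborFinset_eq_filter, Finset.card_filter, Finset.sum_filter]
  push_cast
  rw [Finset.sum_mul, ← Finset.sum_sub_distrib]
  refine Finset.sum_congr rfl fun j _ => ?_
  split_ifs <;> simp

lemma ecc_near {V : Type} {G : SimpleGraph V} {i a : V} (h : ¬ 2 < G.edist i a) :
    ∃ t, (t = a ∨ G.Adj a t) ∧ (t = i ∨ G.Adj i t) := by
  by_contra e
  refine h (SimpleGraph.two_lt_edist_iff.2 ⟨fun e' => e ⟨a, Or.inl rfl, Or.inl e'.symm⟩,
    fun e' => e ⟨a, Or.inl rfl, Or.inr e'⟩, Set.eq_empty_of_forall_notMem fun t ht => ?_⟩)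
  exact e ⟨t, Or.inr ht.2, Or.inr ht.1⟩

lemma ecc_three {V : Type} {G : SimpleGraph V} {i : V} :
    3 ≤ G.eccent i ↔ ∃ a, 2 < G.edist i a := by
  rw [← lt_iSup_iff]
  exact ENat.add_one_le_iff (m := 2) (by decide)

/-- The polynomial form: `d` is the number of vertices of eccentricity at least `3`. -/
theorem ecc_poly (G : SimpleGraph (Fin n)) [DecidableRel G.Adj]
    (i : Fin (Fintype.card (Fin n))) (hi : i.val + 2 = n) {x : ℝ}
    (hx : x = (G.isHermitian_lapMatrix ℝ).eigenvalues₀ i) (h1 : x < 1) :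
    0 ≤ x ∧ ((n : ℝ) - Set.ncard {v | 3 ≤ G.eccent v}) * (2 - x) ≤ x * (n + 2 - 2 * x) := by
  classical
  have hw : ∀ a b, (if G.Adj a b then (1 : ℝ) else 0) = if G.Adj b a then 1 else 0 :=
    fun a b => by simp only [G.adj_comm]
  have h0 : ∀ a b, (0 : ℝ) ≤ if G.Adj a b then 1 else 0 := fun a b => by split_ifs <;> norm_num
  have c : ∀ (A B : Matrix (Fin n) (Fin n) ℝ) (hA : A.IsHermitian) (hB : B.IsHermitian), A = B →
      hA.eigenvalues₀ = hB.eigenvalues₀ := by
    rintro A B hA hB rfl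
    rfl
  rw [c _ _ _ (lap_herm _ hw) (ecc_lap G)] at hx
  obtain ⟨f, hf, hf0, he⟩ := exists_fiedler _ hw h0 (lap_herm _ hw) i hi
  rw [← hx] at he
  have x0 : 0 ≤ x := by
    rw [rayleigh_eq _ hw f hf0 x he]
    exact div_nonneg (sum_nonneg fun a _ => sum_nonneg fun b _ =>
      mul_nonneg (h0 a b) (sq_nonneg _)) (by positivity)
  have h2 := ecc_core _ hw h0 f (v := 1 - x) (by linarith) (by linarith) hf hf0
    (by rwa [sub_sub_cancel]) (univ.filter fun v => ¬ 3 ≤ G.eccent v) fun v hv a => by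
      obtain ⟨t, t1, t2⟩ := ecc_near (G := G) (i := v) (a := a)
        fun e => (mem_filter.1 hv).2 (ecc_three.2 ⟨a, e⟩)
      exact ⟨t, t1.imp_right fun e => by rw [if_pos e], t2.imp_right fun e => by rw [if_pos e]⟩
  have h3 := card_filter_add_card_filter_not (s := univ) fun v => 3 ≤ G.eccent v
  rw [card_univ, Fintype.card_fin] at h3
  have h4 : Set.ncard {v | 3 ≤ G.eccent v} = (univ.filter fun v => 3 ≤ G.eccent v).card := by
    rw [← Set.ncard_coe_finset]
    simp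
  have h5 : (n : ℝ) - Set.ncard {v | 3 ≤ G.eccent v} =
      (univ.filter fun v => ¬ 3 ≤ G.eccent v).card := by
    rw [h4, sub_eq_iff_eq_add']
    exact_mod_cast h3.symm
  rw [h5]
  exact ⟨x0, by linarith⟩

/-- No vertex has eccentricity at least `3` both in a graph and in its complement. -/
lemma ecc_compl {V : Type} (G : SimpleGraph V) (v : V) (h : 3 ≤ G.eccent v) :
    ¬ 3 ≤ Gᶜ.eccent v := fun h' => by
  obtain ⟨a, ha⟩ := ecc_three.1 h
  obtain ⟨b, hb⟩ := ecc_three.1 h'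
  obtain ⟨a1, a2, a3⟩ := SimpleGraph.two_lt_edist_iff.1 ha
  obtain ⟨b1, b2, b3⟩ := SimpleGraph.two_lt_edist_iff.1 hb
  have c1 : G.Adj v b := by_contra fun e => b2 ⟨b1, e⟩
  by_cases e : G.Adj a b
  · exact (Set.eq_empty_iff_forall_notMem.1 a3 b) ⟨c1, e⟩
  · exact (Set.eq_empty_iff_forall_notMem.1 b3 a)
      ⟨⟨a1, a2⟩, ⟨fun e' => a2 (e' ▸ c1), fun e' => e e'.symm⟩⟩

end Pool.Agent.Lib.MP_3a2c26_co
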