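import Mathlib

set_option autoImplicit false

namespace Pool.Agent.Lib.MP_3a2c26_co

open Finset

variable {ι : Type} [Fintype ι]

/-- Weighted Lagrange identity. -/
lemma lagrange {κ : Type} [Fintype κ] (s a b : κ → ℝ) :
    ∑ e, ∑ f, s e * s f * (a e * b f - a f * b e) ^ 2
      = 2 * ((∑ e, s e * a e ^ 2) * (∑ e, s e * b e ^ 2) - (∑ e, s e * (a e * b e)) ^ 2) := by
  have h1 : ∑ e, ∑ f, (s e * a e ^ 2) * (s f * b f ^ 2)
      = (∑ e, s e * a e ^ 2) * (∑ e, s e * b e ^ 2) := by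
    rw [Finset.sum_mul_sum]
  have h2 : ∑ e, ∑ f, (s e * b e ^ 2) * (s f * a f ^ 2)
      = (∑ e, s e * b e ^ 2) * (∑ e, s e * a e ^ 2) := by
    rw [Finset.sum_mul_sum]
  have h3 : ∑ e, ∑ f, (s e * (a e * b e)) * (s f * (a f * b f))
      = (∑ e, s e * (a e * b e)) * (∑ e, s e * (a e * b e)) := by
    rw [Finset.sum_mul_sum]
  have h4 : ∑ e, ∑ f, s e * s f * (a e * b f - a f * b e) ^ 2
      = ∑ e, ∑ f, ((s e * a e ^ 2) * (s f * b f ^ 2) + (s e * b e ^ 2) * (s f * a f ^ 2)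
        - 2 * ((s e * (a e * b e)) * (s f * (a f * b f)))) := by
    refine Finset.sum_congr rfl fun e _ => Finset.sum_congr rfl fun f _ => by ring
  rw [h4]
  simp only [Finset.sum_sub_distrib, Finset.sum_add_distrib, ← Finset.mul_sum]
  simp only [Finset.mul_sum] at h1 h2 h3 ⊢
  simp only [← Finset.mul_sum] at h1 h2 h3 ⊢
  simp only [← Finset.sum_mul]
  ring

lemma tri (a b c : ℝ) (ha : |a| ≤ 1) (hb : |b| ≤ 1) (hc : |c| ≤ 1) :
    -1 ≤ a * b + b * c + c * a := by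
  rw [abs_le] at ha hb hc
  have h1 : 0 ≤ (1 + a) * (1 + b) * (1 + c) := by
    have := ha.1; have := hb.1; have := hc.1
    apply mul_nonneg (mul_nonneg _ _) <;> linarith
  have h2 : 0 ≤ (1 - a) * (1 - b) * (1 - c) := by
    have := ha.2; have := hb.2; have := hc.2
    apply mul_nonneg (mul_nonneg _ _) <;> linarith
  nlinarith

/-- twice the signed area of the triangle `i j l` -/
def D (x y : ι → ℝ) (i j l : ι) : ℝ := (x i - x j) * (y i - y l) - (x i - x l) * (y i - y j)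

lemma sum_D_sq (x y : ι → ℝ) (hx : ∑ i, x i = 0) (hy : ∑ i, y i = 0) :
    ∑ i, ∑ j, ∑ l, D x y i j l ^ 2 = 6 * (Fintype.card ι : ℝ) *
      ((∑ i, x i ^ 2) * (∑ i, y i ^ 2) - (∑ i, x i * y i) ^ 2) := by
  set a : ι → ι → ℝ := fun i j => x i * y j - x j * y i with ha
  have hrow : ∀ i, ∑ j, a i j = 0 := by
    intro i
    simp only [ha, Finset.sum_sub_distrib, ← Finset.mul_sum, ← Finset.sum_mul, hx, hy]
    ring
  have hcol : ∀ j, ∑ i, a i j = 0 := by
    intro j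
    simp only [ha, Finset.sum_sub_distrib, ← Finset.mul_sum, ← Finset.sum_mul, hx, hy]
    ring
  have hsq : ∑ i, ∑ j, a i j ^ 2 =
      2 * ((∑ i, x i ^ 2) * (∑ i, y i ^ 2) - (∑ i, x i * y i) ^ 2) := by
    have := lagrange (fun _ : ι => (1 : ℝ)) x y
    simpa [ha] using this
  have hD : ∀ i j l, D x y i j l ^ 2 = a i j ^ 2 + a j l ^ 2 + a l i ^ 2
      + 2 * (a i j * a j l) + 2 * (a j l * a l i) + 2 * (a l i * a i j) := by
    intro i j l
    simp only [D, ha]; ring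
  have c1 : ∑ i, ∑ j, ∑ l, a i j * a j l = 0 := by
    simp only [← Finset.mul_sum, hrow, mul_zero, Finset.sum_const_zero]
  have c2 : ∑ i, ∑ j, ∑ l, a j l * a l i = 0 := by
    refine Finset.sum_eq_zero fun i _ => ?_
    rw [Finset.sum_comm]
    simp only [← Finset.sum_mul, hcol, zero_mul, Finset.sum_const_zero]
  have c3 : ∑ i, ∑ j, ∑ l, a l i * a i j = 0 := by
    simp only [← Finset.sum_mul, hcol, zero_mul, Finset.sum_const_zero]
  have s1 : ∑ i, ∑ j, ∑ _l : ι, a i j ^ 2 = (Fintype.card ι : ℝ) * ∑ i, ∑ j, a i j ^ 2 := by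
    simp [Finset.mul_sum]
  have s2 : ∑ _i : ι, ∑ j, ∑ l : ι, a j l ^ 2 = (Fintype.card ι : ℝ) * ∑ i, ∑ j, a i j ^ 2 := by
    simp
  have s3 : ∑ i : ι, ∑ _j : ι, ∑ l : ι, a l i ^ 2
      = (Fintype.card ι : ℝ) * ∑ i, ∑ j, a i j ^ 2 := by
    simp only [Finset.sum_const, Finset.card_univ, nsmul_eq_mul, ← Finset.mul_sum]
    rw [Finset.sum_comm]
  have m2 : ∀ F : ι → ι → ι → ℝ, ∑ i, ∑ j, ∑ l, 2 * F i j l = 2 * ∑ i, ∑ j, ∑ l, F i j l := by
    intro F; simp only [Finset.mul_sum]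
  simp only [hD, Finset.sum_add_distrib]
  rw [s1, s2, s3, m2 (fun i j l => a i j * a j l), m2 (fun i j l => a j l * a l i),
    m2 (fun i j l => a l i * a i j), c1, c2, c3, hsq]
  ring

lemma sum_tri (s : ι → ι → ℝ) (hs : ∀ i j, s i j = s j i) (h1 : ∀ i j, |s i j| ≤ 1)
    (x y : ι → ℝ) :
    2 * ∑ i, ∑ j, ∑ l, D x y i j l ^ 2
      ≤ 3 * ∑ i, ∑ j, ∑ l, (1 + s i j * s i l) * D x y i j l ^ 2 := by
  have e1 : ∑ i, ∑ j, ∑ l, (1 + s i j * s i l) * D x y i j l ^ 2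
      = ∑ i, ∑ j, ∑ l, (1 + s i j * s j l) * D x y i j l ^ 2 := by
    rw [Finset.sum_comm]
    refine Finset.sum_congr rfl fun i _ => Finset.sum_congr rfl fun j _ =>
      Finset.sum_congr rfl fun l _ => ?_
    rw [hs j i]; simp only [D]; ring
  have e2 : ∑ i, ∑ j, ∑ l, (1 + s i j * s j l) * D x y i j l ^ 2
      = ∑ i, ∑ j, ∑ l, (1 + s j l * s i l) * D x y i j l ^ 2 := by
    refine Finset.sum_congr rfl fun i _ => ?_
    rw [Finset.sum_comm]
    refine Finset.sum_congr rfl fun j _ => Finset.sum_congr rfl fun l _ => ?_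
    rw [hs l j]; simp only [D]; ring
  have e3 : 3 * ∑ i, ∑ j, ∑ l, (1 + s i j * s i l) * D x y i j l ^ 2
      = ∑ i, ∑ j, ∑ l, ((1 + s i j * s i l) * D x y i j l ^ 2
        + (1 + s i j * s j l) * D x y i j l ^ 2 + (1 + s j l * s i l) * D x y i j l ^ 2) := by
    simp only [Finset.sum_add_distrib]
    rw [← e2, ← e1]; ring
  rw [e3]
  simp only [Finset.mul_sum]
  refine Finset.sum_le_sum fun i _ => Finset.sum_le_sum fun j _ =>
    Finset.sum_le_sum fun l _ => ?_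
  have := tri (s i j) (s j l) (s i l) (h1 _ _) (h1 _ _) (h1 _ _)
  nlinarith [sq_nonneg (D x y i j l)]

/-- the wedge of two edge vectors -/
def W (x y : ι → ℝ) (i j k l : ι) : ℝ := (x i - x j) * (y k - y l) - (x k - x l) * (y i - y j)

lemma four_le (s : ι → ι → ℝ) (hs : ∀ i j, s i j = s j i) (h1 : ∀ i j, |s i j| ≤ 1)
    (x y : ι → ℝ) :
    4 * ∑ i, ∑ j, ∑ l, (1 + s i j * s i l) * D x y i j l ^ 2
      ≤ ∑ i, ∑ j, ∑ k, ∑ l, (1 + s i j * s k l) * W x y i j k l ^ 2 := by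
  classical
  set T : ι → ι → ι → ι → ℝ := fun i j k l => (1 + s i j * s k l) * W x y i j k l ^ 2 with hT
  have hpos : ∀ i j k l, 0 ≤ T i j k l := by
    intro i j k l
    have : |s i j * s k l| ≤ 1 := by
      rw [abs_mul]; exact mul_le_one₀ (h1 _ _) (abs_nonneg _) (h1 _ _)
    have := (abs_le.1 this).1
    exact mul_nonneg (by linarith) (sq_nonneg _)
  have hpt : ∀ i j k l, (if k = i then T i j k l else 0) + (if l = i then T i j k l else 0)
      + (if k = j then T i j k l else 0) + (if l = j then T i j k l else 0) ≤ T i j k l := by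
    intro i j k l
    have h0 := hpos i j k l
    by_cases hz : T i j k l = 0
    · simp [hz]
    have n1 : ¬ (k = i ∧ l = i) := by
      rintro ⟨rfl, rfl⟩; apply hz; simp only [hT, W]; ring
    have n2 : ¬ (k = i ∧ k = j) := by
      rintro ⟨rfl, rfl⟩; apply hz; simp only [hT, W]; ring
    have n3 : ¬ (k = i ∧ l = j) := by
      rintro ⟨rfl, rfl⟩; apply hz; simp only [hT, W]; ring
    have n4 : ¬ (l = i ∧ k = j) := by
      rintro ⟨rfl, rfl⟩; apply hz; simp only [hT, W]; ring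
    have n5 : ¬ (l = i ∧ l = j) := by
      rintro ⟨rfl, rfl⟩; apply hz; simp only [hT, W]; ring
    have n6 : ¬ (k = j ∧ l = j) := by
      rintro ⟨rfl, rfl⟩; apply hz; simp only [hT, W]; ring
    split_ifs <;> first | linarith | tauto
  have hsum := Finset.sum_le_sum fun i (_ : i ∈ (univ : Finset ι)) =>
    Finset.sum_le_sum fun j (_ : j ∈ (univ : Finset ι)) =>
    Finset.sum_le_sum fun k (_ : k ∈ (univ : Finset ι)) =>
    Finset.sum_le_sum fun l (_ : l ∈ (univ : Finset ι)) => hpt i j k l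
  refine le_trans (le_of_eq ?_) hsum
  simp only [Finset.sum_add_distrib]
  have a1 : ∑ i, ∑ j, ∑ k, ∑ l, (if k = i then T i j k l else 0)
      = ∑ i, ∑ j, ∑ l, (1 + s i j * s i l) * D x y i j l ^ 2 := by
    refine Finset.sum_congr rfl fun i _ => Finset.sum_congr rfl fun j _ => ?_
    rw [Finset.sum_comm]
    refine Finset.sum_congr rfl fun l _ => ?_
    simp only [Finset.sum_ite_eq', Finset.mem_univ, if_true, hT, W, D]
  have a2 : ∑ i, ∑ j, ∑ k, ∑ l, (if l = i then T i j k l else 0)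
      = ∑ i, ∑ j, ∑ l, (1 + s i j * s i l) * D x y i j l ^ 2 := by
    refine Finset.sum_congr rfl fun i _ => Finset.sum_congr rfl fun j _ =>
      Finset.sum_congr rfl fun l _ => ?_
    simp only [Finset.sum_ite_eq', Finset.mem_univ, if_true, hT, W, D]
    rw [hs l i]; ring
  have a3 : ∑ i, ∑ j, ∑ k, ∑ l, (if k = j then T i j k l else 0)
      = ∑ i, ∑ j, ∑ l, (1 + s i j * s i l) * D x y i j l ^ 2 := by
    rw [Finset.sum_comm]
    refine Finset.sum_congr rfl fun i _ => Finset.sum_congr rfl fun j _ => ?_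
    rw [Finset.sum_comm]
    refine Finset.sum_congr rfl fun l _ => ?_
    simp only [Finset.sum_ite_eq', Finset.mem_univ, if_true, hT, W, D]
    rw [hs j i]; ring
  have a4 : ∑ i, ∑ j, ∑ k, ∑ l, (if l = j then T i j k l else 0)
      = ∑ i, ∑ j, ∑ l, (1 + s i j * s i l) * D x y i j l ^ 2 := by
    rw [Finset.sum_comm]
    refine Finset.sum_congr rfl fun i _ => Finset.sum_congr rfl fun j _ =>
      Finset.sum_congr rfl fun l _ => ?_
    simp only [Finset.sum_ite_eq', Finset.mem_univ, if_true, hT, W, D]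
    rw [hs j i, hs l i]; ring
  rw [a1, a2, a3, a4]; ring

lemma sum_diff_mul (x y : ι → ℝ) (hx : ∑ i, x i = 0) (hy : ∑ i, y i = 0) :
    ∑ i, ∑ j, (x i - x j) * (y i - y j) = 2 * (Fintype.card ι : ℝ) * ∑ i, x i * y i := by
  have : ∀ i j, (x i - x j) * (y i - y j) = x i * y i + x j * y j - x i * y j - x j * y i := by
    intro i j; ring
  have a1 : ∑ i, ∑ _j : ι, x i * y i = (Fintype.card ι : ℝ) * ∑ i, x i * y i := by
    simp only [Finset.sum_const, Finset.card_univ, nsmul_eq_mul]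
    rw [Finset.mul_sum]
  have a2 : ∑ _i : ι, ∑ j, x j * y j = (Fintype.card ι : ℝ) * ∑ i, x i * y i := by
    simp only [Finset.sum_const, Finset.card_univ, nsmul_eq_mul]
  have a3 : ∑ i, ∑ j, x i * y j = 0 := by
    simp only [← Finset.mul_sum, hy, mul_zero, Finset.sum_const_zero]
  have a4 : ∑ i, ∑ j, x j * y i = 0 := by
    simp only [← Finset.sum_mul, hx, zero_mul, Finset.sum_const_zero]
  simp only [this, Finset.sum_sub_distrib, Finset.sum_add_distrib]
  rw [a1, a2, a3, a4]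
  ring

/-- The determinant inequality for signed weights. -/
lemma key (s : ι → ι → ℝ) (hs : ∀ i j, s i j = s j i) (h1 : ∀ i j, |s i j| ≤ 1)
    (x y : ι → ℝ) (hx : ∑ i, x i = 0) (hy : ∑ i, y i = 0) :
    (8 * (Fintype.card ι : ℝ) - 4 * (Fintype.card ι : ℝ) ^ 2) *
        ((∑ i, x i ^ 2) * (∑ i, y i ^ 2) - (∑ i, x i * y i) ^ 2)
      ≤ (∑ i, ∑ j, s i j * (x i - x j) ^ 2) * (∑ i, ∑ j, s i j * (y i - y j) ^ 2)
        - (∑ i, ∑ j, s i j * ((x i - x j) * (y i - y j))) ^ 2 := by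
  have L1 := lagrange (fun e : ι × ι => s e.1 e.2) (fun e => x e.1 - x e.2)
    (fun e => y e.1 - y e.2)
  have L0 := lagrange (fun _ : ι × ι => (1 : ℝ)) (fun e => x e.1 - x e.2)
    (fun e => y e.1 - y e.2)
  simp only [Fintype.sum_prod_type, one_mul] at L1 L0
  have N1 := sum_diff_mul x x hx hx
  have N2 := sum_diff_mul y y hy hy
  have N3 := sum_diff_mul x y hx hy
  simp only [← sq] at N1 N2
  rw [N1, N2, N3] at L0
  have F := four_le s hs h1 x y
  have T := sum_tri s hs h1 x y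
  rw [sum_D_sq x y hx hy] at T
  have S : ∑ i, ∑ j, ∑ k, ∑ l, (1 + s i j * s k l) * W x y i j k l ^ 2
      = (∑ i, ∑ j, ∑ k, ∑ l, ((x i - x j) * (y k - y l) - (x k - x l) * (y i - y j)) ^ 2)
        + ∑ i, ∑ j, ∑ k, ∑ l, s i j * s k l *
          ((x i - x j) * (y k - y l) - (x k - x l) * (y i - y j)) ^ 2 := by
    simp only [← Finset.sum_add_distrib, W]
    refine Finset.sum_congr rfl fun i _ => Finset.sum_congr rfl fun j _ =>
      Finset.sum_congr rfl fun k _ => Finset.sum_congr rfl fun l _ => by ring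
  rw [S, L0, L1] at F
  nlinarith

theorem rayleigh (hn : 2 ≤ Fintype.card ι) (w : ι → ι → ℝ) (hw : ∀ i j, w i j = w j i)
    (h01 : ∀ i j, 0 ≤ w i j ∧ w i j ≤ 1) (x y : ι → ℝ) (hx : ∑ i, x i = 0) (hy : ∑ i, y i = 0)
    (hx0 : x ≠ 0) (hy0 : y ≠ 0) (X Y : ℝ)
    (hX : X = (∑ i, ∑ j, w i j * (x i - x j) ^ 2) / (2 * ∑ i, x i ^ 2))
    (hY : Y = (∑ i, ∑ j, (1 - w i j) * (y i - y j) ^ 2) / (2 * ∑ i, y i ^ 2)) :
    1 ≤ X + Y - 2 * X * Y / (Fintype.card ι : ℝ) := by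
  have pos : ∀ z : ι → ℝ, z ≠ 0 → 0 < ∑ i, z i ^ 2 := by
    intro z hz
    obtain ⟨i, hi⟩ := Function.ne_iff.1 hz
    exact Finset.sum_pos' (fun i _ => sq_nonneg _) ⟨i, Finset.mem_univ _, by
      have : z i ≠ 0 := hi
      positivity⟩
  have px := pos x hx0
  have py := pos y hy0
  set n : ℝ := (Fintype.card ι : ℝ) with hn'
  have hn2 : (2 : ℝ) ≤ n := by rw [hn']; exact_mod_cast hn
  have K := key (fun i j => 2 * w i j - 1) (fun i j => by rw [hw]) (fun i j => by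
    have := h01 i j; rw [abs_le]; constructor <;> linarith) x y hx hy
  have N1 := sum_diff_mul x x hx hx
  have N2 := sum_diff_mul y y hy hy
  simp only [← sq] at N1 N2
  have Qx : ∑ i, ∑ j, (2 * w i j - 1) * (x i - x j) ^ 2 = 2 * (∑ i, x i ^ 2) * (2 * X - n) := by
    have : ∑ i, ∑ j, (2 * w i j - 1) * (x i - x j) ^ 2
        = 2 * (∑ i, ∑ j, w i j * (x i - x j) ^ 2) - ∑ i, ∑ j, (x i - x j) ^ 2 := by
      simp only [Finset.mul_sum, ← Finset.sum_sub_distrib]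
      refine Finset.sum_congr rfl fun i _ => Finset.sum_congr rfl fun j _ => by ring
    rw [this, N1, hX, ← hn']; field_simp
  have Qy : ∑ i, ∑ j, (2 * w i j - 1) * (y i - y j) ^ 2 = 2 * (∑ i, y i ^ 2) * (n - 2 * Y) := by
    have : ∑ i, ∑ j, (2 * w i j - 1) * (y i - y j) ^ 2
        = (∑ i, ∑ j, (y i - y j) ^ 2) - 2 * (∑ i, ∑ j, (1 - w i j) * (y i - y j) ^ 2) := by
      simp only [Finset.mul_sum, ← Finset.sum_sub_distrib]
      refine Finset.sum_congr rfl fun i _ => Finset.sum_congr rfl fun j _ => by ring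
    rw [this, N2, hY, ← hn']; field_simp
  rw [Qx, Qy, ← hn'] at K
  have hc : 8 * n - 4 * n ^ 2 ≤ 0 := by nlinarith
  have K2 : (8 * n - 4 * n ^ 2) * ((∑ i, x i ^ 2) * (∑ i, y i ^ 2))
      ≤ (4 * ((2 * X - n) * (n - 2 * Y))) * ((∑ i, x i ^ 2) * (∑ i, y i ^ 2)) := by
    nlinarith [mul_nonneg (neg_nonneg.2 hc) (sq_nonneg (∑ i, x i * y i)),
      sq_nonneg (∑ i, ∑ j, (2 * w i j - 1) * ((x i - x j) * (y i - y j)))]
  have K3 := le_of_mul_le_mul_right K2 (mul_pos px py)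
  have : 2 * X * Y / n ≤ X + Y - 1 := by
    rw [div_le_iff₀ (by linarith)]; nlinarith
  linarith

end Pool.Agent.Lib.MP_3a2c26_co
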