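import Pool.Agent.Lib.MP_3a2c26_co.Defs
import Pool.Agent.Lib.MP_3a2c26_co.Main

set_option autoImplicit false

namespace Pool.Agent.Lib.MP_3a2c26_co

open Finset Matrix

variable {n : ℕ}

lemma lap_mulVec (w : Fin n → Fin n → ℝ) (x : Fin n → ℝ) (i : Fin n) :
    (lap w *ᵥ x) i = ∑ j, w i j * (x i - x j) := by
  simp only [lap, mulVec, dotProduct, Matrix.of_apply]
  rw [← Finset.add_sum_erase _ _ (Finset.mem_univ i),
    ← Finset.add_sum_erase _ (fun j => w i j * (x i - x j)) (Finset.mem_univ i)]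
  simp only [if_true, sub_self, mul_zero, zero_add, Finset.sum_mul]
  rw [← Finset.sum_add_distrib]
  refine Finset.sum_congr rfl fun j hj => ?_
  rw [if_neg (Finset.ne_of_mem_erase hj).symm]; ring

lemma form_eq (w : Fin n → Fin n → ℝ) (hw : ∀ i j, w i j = w j i) (x y : Fin n → ℝ) :
    ∑ i, ∑ j, w i j * ((x i - x j) * (y i - y j)) = 2 * ∑ i, y i * (lap w *ᵥ x) i := by
  have h1 : ∑ i, ∑ j, w i j * (x i - x j) * y i = ∑ i, y i * (lap w *ᵥ x) i := by
    refine Finset.sum_congr rfl fun i _ => ?_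
    rw [lap_mulVec, Finset.mul_sum]
    exact Finset.sum_congr rfl fun j _ => by ring
  have h2 : ∑ i, ∑ j, w i j * (x j - x i) * y j = ∑ i, y i * (lap w *ᵥ x) i := by
    rw [Finset.sum_comm, ← h1]
    refine Finset.sum_congr rfl fun i _ => Finset.sum_congr rfl fun j _ => by rw [hw j i]
  rw [two_mul]
  nth_rewrite 1 [← h1]
  rw [← h2, ← Finset.sum_add_distrib]
  refine Finset.sum_congr rfl fun i _ => ?_
  rw [← Finset.sum_add_distrib]
  exact Finset.sum_congr rfl fun j _ => by ring

lemma exists_fiedler (w : Fin n → Fin n → ℝ) (hw : ∀ i j, w i j = w j i)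
    (h0 : ∀ i j, 0 ≤ w i j) (h : (lap w).IsHermitian) (k : Fin (Fintype.card (Fin n)))
    (hk : k.val + 2 = n) :
    ∃ x : Fin n → ℝ, ∑ i, x i = 0 ∧ x ≠ 0 ∧ lap w *ᵥ x = h.eigenvalues₀ k • x := by
  set e := (Fintype.equivOfCardEq (Fintype.card_fin (Fintype.card (Fin n))) :
    Fin (Fintype.card (Fin n)) ≃ Fin n) with he
  have hev : ∀ m, h.eigenvalues (e m) = h.eigenvalues₀ m := by
    intro m; simp [Matrix.IsHermitian.eigenvalues, he]
  have hb : ∀ m, lap w *ᵥ (h.eigenvectorBasis (e m)).ofLp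
      = h.eigenvalues₀ m • (h.eigenvectorBasis (e m)).ofLp := by
    intro m; rw [← hev]; exact h.mulVec_eigenvectorBasis (e m)
  have hnorm : ∀ m m', ∑ i, (h.eigenvectorBasis (e m)).ofLp i * (h.eigenvectorBasis (e m')).ofLp i
      = if m = m' then 1 else 0 := by
    intro m m'
    have := orthonormal_iff_ite.1 h.eigenvectorBasis.orthonormal (e m') (e m)
    rw [EuclideanSpace.inner_eq_star_dotProduct] at this
    simp only [star_trivial, dotProduct, EmbeddingLike.apply_eq_iff_eq] at this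
    rw [this]; simp only [eq_comm]
  have hsum : ∀ m, h.eigenvalues₀ m * ∑ i, (h.eigenvectorBasis (e m)).ofLp i = 0 := by
    intro m
    have := form_eq w hw (h.eigenvectorBasis (e m)).ofLp (fun _ => 1)
    rw [hb] at this
    simp only [sub_self, mul_zero, Finset.sum_const_zero, one_mul, Pi.smul_apply, smul_eq_mul,
      ← Finset.mul_sum] at this
    linarith
  have hne : ∀ m, (h.eigenvectorBasis (e m)).ofLp ≠ 0 := by
    intro m hm
    have := hnorm m m
    rw [hm] at this; simp at this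
  have hpos : ∀ m, 0 ≤ h.eigenvalues₀ m := by
    intro m
    have := form_eq w hw (h.eigenvectorBasis (e m)).ofLp (h.eigenvectorBasis (e m)).ofLp
    rw [hb] at this
    have h2 : ∑ i, (h.eigenvectorBasis (e m)).ofLp i *
        (h.eigenvalues₀ m • (h.eigenvectorBasis (e m)).ofLp) i = h.eigenvalues₀ m := by
      have h3 := hnorm m m
      simp only [if_true] at h3
      simp only [Pi.smul_apply, smul_eq_mul]
      calc _ = h.eigenvalues₀ m * ∑ i, (h.eigenvectorBasis (e m)).ofLp i *
            (h.eigenvectorBasis (e m)).ofLp i := by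
            rw [Finset.mul_sum]; exact Finset.sum_congr rfl fun i _ => by ring
        _ = _ := by rw [h3, mul_one]
    rw [h2] at this
    have h4 : 0 ≤ ∑ i, ∑ j, w i j * (((h.eigenvectorBasis (e m)).ofLp i -
        (h.eigenvectorBasis (e m)).ofLp j) * ((h.eigenvectorBasis (e m)).ofLp i -
        (h.eigenvectorBasis (e m)).ofLp j)) :=
      Finset.sum_nonneg fun i _ => Finset.sum_nonneg fun j _ =>
        mul_nonneg (h0 i j) (mul_self_nonneg _)
    linarith
  by_cases hs : ∑ i, (h.eigenvectorBasis (e k)).ofLp i = 0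
  · exact ⟨_, hs, hne k, hb k⟩
  have hz : h.eigenvalues₀ k = 0 := (mul_eq_zero.1 (hsum k)).resolve_right hs
  have hlt : k.val + 1 < Fintype.card (Fin n) := by
    have := Fintype.card_fin n
    omega
  set k' : Fin (Fintype.card (Fin n)) := ⟨k.val + 1, hlt⟩ with hk'
  have hkk : k ≠ k' := by
    intro hh; have := congrArg Fin.val hh; simp [hk'] at this
  have hz' : h.eigenvalues₀ k' = 0 := by
    refine le_antisymm ?_ (hpos k')
    rw [← hz]
    exact h.eigenvalues₀_antitone (by rw [Fin.le_def]; simp [hk'])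
  set u := (h.eigenvectorBasis (e k)).ofLp with hu
  set v := (h.eigenvectorBasis (e k')).ofLp with hv
  refine ⟨(∑ i, u i) • v - (∑ i, v i) • u, ?_, ?_, ?_⟩
  · simp only [Pi.sub_apply, Pi.smul_apply, smul_eq_mul, Finset.sum_sub_distrib,
      ← Finset.mul_sum]
    ring
  · intro h00
    have h1 : ∑ i, v i * ((∑ i, u i) • v - (∑ i, v i) • u) i = ∑ i, u i := by
      have a := hnorm k' k'
      have b := hnorm k' k
      rw [if_pos rfl] at a
      rw [if_neg hkk.symm] at b
      calc _ = (∑ i, u i) * (∑ i, v i * v i) - (∑ i, v i) * ∑ i, v i * u i := by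
            rw [Finset.mul_sum, Finset.mul_sum, ← Finset.sum_sub_distrib]
            refine Finset.sum_congr rfl fun i _ => ?_
            simp only [Pi.sub_apply, Pi.smul_apply, smul_eq_mul]; ring
        _ = _ := by rw [a, b]; ring
    rw [h00] at h1
    simp at h1
    exact hs h1.symm
  · have a := hb k
    have b := hb k'
    rw [hz] at a ⊢
    rw [hz'] at b
    rw [Matrix.mulVec_sub, Matrix.mulVec_smul, Matrix.mulVec_smul, a, b]
    simp

lemma rayleigh_eq (w : Fin n → Fin n → ℝ) (hw : ∀ i j, w i j = w j i) (x : Fin n → ℝ)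
    (hx0 : x ≠ 0) (μ : ℝ) (h : lap w *ᵥ x = μ • x) :
    μ = (∑ i, ∑ j, w i j * (x i - x j) ^ 2) / (2 * ∑ i, x i ^ 2) := by
  obtain ⟨i, hi⟩ := Function.ne_iff.1 hx0
  have px : 0 < ∑ i, x i ^ 2 :=
    Finset.sum_pos' (fun i _ => sq_nonneg _) ⟨i, Finset.mem_univ _, by
      have : x i ≠ 0 := hi
      positivity⟩
  have := form_eq w hw x x
  rw [h] at this
  simp only [← sq] at this
  rw [this, eq_div_iff (by positivity), Finset.mul_sum, Finset.mul_sum, Finset.mul_sum]
  refine Finset.sum_congr rfl fun i _ => ?_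
  simp only [Pi.smul_apply, smul_eq_mul]; ring

theorem eigen (hn : 2 ≤ n) (w : Fin n → Fin n → ℝ) (hw : ∀ i j, w i j = w j i)
    (h01 : ∀ i j, 0 ≤ w i j ∧ w i j ≤ 1) (h : (lap w).IsHermitian)
    (h' : (lap fun i j => 1 - w i j).IsHermitian) (k : Fin (Fintype.card (Fin n)))
    (hk : k.val + 2 = n) :
    1 ≤ h.eigenvalues₀ k + h'.eigenvalues₀ k - 2 * h.eigenvalues₀ k * h'.eigenvalues₀ k / n := by
  obtain ⟨x, hx, hx0, ex⟩ := exists_fiedler w hw (fun i j => (h01 i j).1) h k hk
  obtain ⟨y, hy, hy0, ey⟩ := exists_fiedler (fun i j => 1 - w i j) (fun i j => by rw [hw])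
    (fun i j => sub_nonneg.2 (h01 i j).2) h' k hk
  have := rayleigh (by rw [Fintype.card_fin]; exact hn) w hw h01 x y hx hy hx0 hy0 _ _
    (rayleigh_eq w hw x hx0 _ ex)
    (rayleigh_eq (fun i j => 1 - w i j) (fun i j => by rw [hw]) y hy0 _ ey)
  rwa [Fintype.card_fin] at this

lemma lap_herm (w : Fin n → Fin n → ℝ) (hw : ∀ i j, w i j = w j i) : (lap w).IsHermitian := by
  ext i j
  simp only [lap, conjTranspose_apply, Matrix.of_apply, star_trivial]
  by_cases h : i = j
  · subst h; rfl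
  · rw [if_neg h, if_neg (Ne.symm h), hw]

end Pool.Agent.Lib.MP_3a2c26_co
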