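import Pool.Agent.Lib.MP_3a2c26_co.KyFan

/-! Gram matrices with diagonal at most one: the non-localized cases. -/

set_option autoImplicit false

namespace Pool.Agent.Lib.MP_3a2c26_co

open Finset

variable {ι : Type} [Fintype ι]

/-- A Gram matrix of trace `t` whose Laplacian form is at most `x t`. -/
structure HiFr (w : ι → ι → ℝ) (x t : ℝ) (P : ι → ι → ℝ) : Prop where
  gram : ∃ (m : ℕ) (z : Fin m → ι → ℝ), ∀ i j, P i j = ∑ a, z a i * z a j
  row : ∀ i, ∑ j, P i j = 0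
  le_one : ∀ i, P i i ≤ 1
  sq : ∀ i, ∑ j, P i j ^ 2 ≤ 2 * P i i
  tr : ∑ i, P i i = t
  en : ∑ i, ∑ j, w i j * (P i i + P j j - 2 * P i j) ≤ 2 * (x * t)

namespace HiFr

variable {w w' P Q : ι → ι → ℝ} {x y k l : ℝ}

lemma symm (h : HiFr w x k P) (i j : ι) : P i j = P j i := by
  obtain ⟨m, z, hz⟩ := h.gram
  rw [hz, hz]
  exact Finset.sum_congr rfl fun a _ => mul_comm _ _

lemma psd (h : HiFr w x k P) (s : ℝ) (i j : ι) : 0 ≤ s ^ 2 * P i i + 2 * s * P i j + P j j := by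
  obtain ⟨m, z, hz⟩ := h.gram
  simp only [hz, Finset.mul_sum, ← Finset.sum_add_distrib]
  exact Finset.sum_nonneg fun a _ => by nlinarith [sq_nonneg (s * z a i + z a j)]

lemma nonneg (h : HiFr w x k P) (i : ι) : 0 ≤ P i i := by
  have := h.psd 0 i i
  linarith

lemma lo (h : HiFr w x k P) (i j : ι) : 0 ≤ P i i + P j j - 2 * P i j := by
  have := h.psd (-1) i j
  linarith

lemma hi (h : HiFr w x k P) (i j : ι) : P i i + P j j - 2 * P i j ≤ 2 * (P i i + P j j) := by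
  have := h.psd 1 i j
  linarith

lemma tr_nonneg (h : HiFr w x k P) : 0 ≤ k := h.tr ▸ Finset.sum_nonneg fun i _ => h.nonneg i

lemma x_nonneg (h : HiFr w x k P) (h0 : ∀ i j, 0 ≤ w i j) (hk : 0 < k) : 0 ≤ x := by
  have h1 : 0 ≤ ∑ i, ∑ j, w i j * (P i i + P j j - 2 * P i j) :=
    Finset.sum_nonneg fun i _ => Finset.sum_nonneg fun j _ => mul_nonneg (h0 i j) (h.lo i j)
  have := h.en
  by_contra e
  nlinarith [not_le.1 e]

lemma rowb (h : HiFr w y l Q) {t : ℝ} (ht : 0 < t) (hn : (Fintype.card ι : ℝ) = 32 * t) (j : ι) :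
    ∑ i, max (Q i i + Q j j - 2 * Q i j - 1) 0 ≤ (4 * l + 128 + 2 * t) * Q j j + 4 * l / t := by
  have l0 := h.tr_nonneg
  have q0 := h.nonneg j
  have s0 : 0 ≤ 4 * l / t := by positivity
  have hs := h.sq j
  rcases le_total (Q j j) (1 / 4) with e | e
  · have h1 : ∀ i, max (Q i i + Q j j - 2 * Q i j - 1) 0 ≤
        4 * (Q j j + 1 / t) * Q i i + t * Q j i ^ 2 := fun i => by
      have p0 := h.nonneg i
      rcases le_total (Q i i + Q j j - 2 * Q i j - 1) 0 with f | f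
      · rw [max_eq_right f]; positivity
      · rw [max_eq_left f, h.symm j i]
        have f1 : 1 ≤ 4 * Q i i := by linarith [h.hi i j]
        have f2 : -2 * Q i j ≤ t * Q i j ^ 2 + 1 / t := by
          have : t * Q i j ^ 2 + 1 / t + 2 * Q i j = (t * Q i j + 1) ^ 2 / t := by
            field_simp; ring
          have : 0 ≤ (t * Q i j + 1) ^ 2 / t := by positivity
          linarith
        have f3 : 0 ≤ Q j j + 1 / t := by positivity
        nlinarith [h.le_one i, mul_le_mul_of_nonneg_left f1 f3]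
    calc _ ≤ ∑ i, (4 * (Q j j + 1 / t) * Q i i + t * Q j i ^ 2) :=
          Finset.sum_le_sum fun i _ => h1 i
      _ = 4 * (Q j j + 1 / t) * l + t * ∑ i, Q j i ^ 2 := by
          rw [Finset.sum_add_distrib, ← Finset.mul_sum, ← Finset.mul_sum, h.tr]
      _ ≤ _ := by
          have : 4 * (Q j j + 1 / t) * l = 4 * l * Q j j + 4 * l / t := by ring
          nlinarith [mul_le_mul_of_nonneg_left hs ht.le]
  · have h1 : ∀ i, max (Q i i + Q j j - 2 * Q i j - 1) 0 ≤
        Q i i + 64 * Q j i ^ 2 + 1 / 64 := fun i => by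
      have p0 := h.nonneg i
      rw [h.symm j i]
      refine max_le ?_ (by positivity)
      nlinarith [h.le_one j, sq_nonneg (64 * Q i j + 1)]
    calc _ ≤ ∑ i, (Q i i + 64 * Q j i ^ 2 + 1 / 64) := Finset.sum_le_sum fun i _ => h1 i
      _ = l + 64 * ∑ i, Q j i ^ 2 + t / 2 := by
          rw [Finset.sum_add_distrib, Finset.sum_add_distrib, ← Finset.mul_sum, h.tr,
            Finset.sum_const, Finset.card_univ, nsmul_eq_mul, hn]
          ring
      _ ≤ _ := by
          nlinarith [mul_nonneg ht.le (sub_nonneg.2 e), mul_nonneg l0 (sub_nonneg.2 e)]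

lemma excess (hP : HiFr w x k P) (hQ : HiFr w' y l Q) {t : ℝ} (ht : 0 < t)
    (hn : (Fintype.card ι : ℝ) = 32 * t) :
    ∑ i, ∑ j, (P i i + P j j - 2 * P i j) * max (Q i i + Q j j - 2 * Q i j - 1) 0 ≤
      4 * (4 * l + 128 + 2 * t) * ∑ i, P i i * Q i i + 16 * (k * l) / t := by
  obtain ⟨m, hm⟩ : ∃ m : ι → ι → ℝ, ∀ i j, m i j = max (Q i i + Q j j - 2 * Q i j - 1) 0 :=
    ⟨_, fun _ _ => rfl⟩
  have ms : ∀ i j, m i j = m j i := fun i j => by rw [hm, hm, hQ.symm i j, add_comm (Q i i)]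
  have m0 : ∀ i j, 0 ≤ m i j := fun i j => hm i j ▸ le_max_right _ _
  have mr : ∀ j, ∑ i, m i j ≤ (4 * l + 128 + 2 * t) * Q j j + 4 * l / t := fun j => by
    simp only [hm]; exact hQ.rowb ht hn j
  simp only [← hm]
  have h1 : ∑ i, ∑ j, P j j * m i j = ∑ j, P j j * ∑ i, m i j := by
    rw [Finset.sum_comm]; simp only [Finset.mul_sum]
  have h2 : ∑ i, ∑ j, P i i * m i j = ∑ j, P j j * ∑ i, m i j := by
    simp only [Finset.mul_sum]
    exact Finset.sum_congr rfl fun i _ => Finset.sum_congr rfl fun j _ => by rw [ms]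
  have h3 : ∑ j, P j j * ∑ i, m i j ≤
      (4 * l + 128 + 2 * t) * ∑ i, P i i * Q i i + 4 * l / t * k := by
    rw [← hP.tr, Finset.mul_sum, Finset.mul_sum, ← Finset.sum_add_distrib]
    refine Finset.sum_le_sum fun j _ => (mul_le_mul_of_nonneg_left (mr j) (hP.nonneg j)).trans ?_
    exact le_of_eq (by ring)
  have h4 : ∑ i, ∑ j, (P i i + P j j - 2 * P i j) * m i j ≤
      2 * ∑ i, ∑ j, P i i * m i j + 2 * ∑ i, ∑ j, P j j * m i j := by
    simp only [Finset.mul_sum, ← Finset.sum_add_distrib]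
    refine Finset.sum_le_sum fun i _ => Finset.sum_le_sum fun j _ =>
      (mul_le_mul_of_nonneg_right (hP.hi i j) (m0 i j)).trans (le_of_eq (by ring))
  rw [h1, h2] at h4
  have : 16 * (k * l) / t = 4 * (4 * l / t * k) := by ring
  linarith

lemma ident (hP : HiFr w x k P) (hQ : HiFr w' y l Q) :
    ∑ i, ∑ j, (P i i + P j j - 2 * P i j) * (Q i i + Q j j - 2 * Q i j) =
      2 * (Fintype.card ι : ℝ) * ∑ i, P i i * Q i i + 2 * (k * l) + 4 * ∑ i, ∑ j, P i j * Q i j := by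
  have e : ∀ i j, (P i i + P j j - 2 * P i j) * (Q i i + Q j j - 2 * Q i j) =
      P i i * Q i i + P j j * Q j j + P i i * Q j j + Q i i * P j j - 2 * P i i * Q i j
        - 2 * Q i i * P i j - 2 * P j j * Q j i - 2 * Q j j * P j i + 4 * (P i j * Q i j) :=
    fun i j => by rw [hP.symm j i, hQ.symm j i]; ring
  have c1 : ∑ i, ∑ j, 2 * P j j * Q j i = 0 := by
    rw [Finset.sum_comm]; simp only [← Finset.mul_sum, hQ.row, mul_zero, Finset.sum_const_zero]
  have c2 : ∑ i, ∑ j, 2 * Q j j * P j i = 0 := by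
    rw [Finset.sum_comm]; simp only [← Finset.mul_sum, hP.row, mul_zero, Finset.sum_const_zero]
  have c3 : ∑ i, ∑ _j : ι, P i i * Q i i = (Fintype.card ι : ℝ) * ∑ i, P i i * Q i i := by
    simp only [Finset.sum_const, Finset.card_univ, nsmul_eq_mul, Finset.mul_sum]
  simp only [e, Finset.sum_add_distrib, Finset.sum_sub_distrib, c1, c2, c3]
  simp only [← Finset.mul_sum, hP.row, hQ.row, hP.tr, hQ.tr, mul_zero, Finset.sum_const_zero,
    ← Finset.sum_mul, Finset.sum_const, Finset.card_univ, nsmul_eq_mul]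
  ring

theorem main (hP : HiFr w x k P) (hQ : HiFr w' y l Q) (h0 : ∀ i j, 0 ≤ w i j)
    (h0' : ∀ i j, 0 ≤ w' i j) (h1 : ∀ i j, w i j + w' i j = 1) {t : ℝ} (t0 : 0 < t)
    (hn : (Fintype.card ι : ℝ) = 32 * t) (ht : k + l + 64 ≤ 3 * t) :
    k * l - 16 * (k * l) / t ≤ x * k + y * l := by
  have E1 := hP.excess hQ t0 hn
  have E2 := hQ.excess hP t0 hn
  have I := hP.ident hQ
  have hPQ : 0 ≤ ∑ i, ∑ j, P i j * Q i j := by
    obtain ⟨m, z, hz⟩ := hP.gram
    obtain ⟨m', z', hz'⟩ := hQ.gram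
    simp only [hz, hz']
    exact kf_cross z z'
  have T0 : 0 ≤ ∑ i, P i i * Q i i :=
    Finset.sum_nonneg fun i _ => mul_nonneg (hP.nonneg i) (hQ.nonneg i)
  have hT : ∑ i, Q i i * P i i = ∑ i, P i i * Q i i := Finset.sum_congr rfl fun i _ => mul_comm _ _
  have pt : ∀ a b c c' : ℝ, 0 ≤ a → 0 ≤ b → 0 ≤ c → 0 ≤ c' → c + c' = 1 →
      a * b ≤ c * a + c' * b + a * max (b - 1) 0 + b * max (a - 1) 0 := by
    intro a b c c' a0 b0 c0 c1 cc
    obtain rfl : c' = 1 - c := by linarith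
    have g1 := mul_le_mul_of_nonneg_left (le_max_left (b - 1) 0) a0
    have g2 := mul_le_mul_of_nonneg_left (le_max_left (a - 1) 0) b0
    have g3 := mul_nonneg a0 (le_max_right (b - 1) 0)
    have g4 := mul_nonneg b0 (le_max_right (a - 1) 0)
    generalize a * max (b - 1) 0 = x at g1 g3
    generalize b * max (a - 1) 0 = y at g2 g4
    nlinarith [mul_le_mul_of_nonneg_left g1 c0, mul_le_mul_of_nonneg_left g2 c1,
      mul_nonneg c0 g4, mul_nonneg c1 g3]
  have S : ∑ i, ∑ j, (P i i + P j j - 2 * P i j) * (Q i i + Q j j - 2 * Q i j) ≤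
      ∑ i, ∑ j, w i j * (P i i + P j j - 2 * P i j) +
        ∑ i, ∑ j, w' i j * (Q i i + Q j j - 2 * Q i j) +
      ∑ i, ∑ j, (P i i + P j j - 2 * P i j) * max (Q i i + Q j j - 2 * Q i j - 1) 0 +
      ∑ i, ∑ j, (Q i i + Q j j - 2 * Q i j) * max (P i i + P j j - 2 * P i j - 1) 0 := by
    simp only [← Finset.sum_add_distrib]
    exact Finset.sum_le_sum fun i _ => Finset.sum_le_sum fun j _ =>
      pt _ _ _ _ (hP.lo i j) (hQ.lo i j) (h0 i j) (h0' i j) (h1 i j)
  rw [hT, mul_comm l k] at E2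
  rw [I, hn] at S
  have := hP.en
  have := hQ.en
  nlinarith [mul_nonneg T0 (sub_nonneg.2 ht)]

end HiFr

end Pool.Agent.Lib.MP_3a2c26_co
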