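import Mathlib

/-! Two test vectors, each equal to one on `k` vertices and small elsewhere. -/

set_option autoImplicit false

namespace Pool.Agent.Lib.MP_3a2c26_co

open Finset

variable {ι : Type} [Fintype ι] [DecidableEq ι]

/-- A test vector that equals one on `k` vertices and is small elsewhere. -/
structure HiLoc (w : ι → ι → ℝ) (x : ℝ) (k : ℕ) (β : ℝ) (C : Finset ι) (f : ι → ℝ) : Prop where
  card : C.card = k
  one : ∀ c ∈ C, f c = 1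
  sum : ∑ i, f i = 0
  off : ∑ i ∈ Cᶜ, f i ^ 2 ≤ β ^ 2
  en : ∑ i, ∑ j, w i j * (f i - f j) ^ 2 ≤ 2 * (x * ∑ i, f i ^ 2)

lemma hi_split {C D : Finset ι} (h : Disjoint C D) (φ : ι → ℝ) :
    ∑ i, φ i = ∑ i ∈ C, φ i + ∑ i ∈ D, φ i + ∑ i ∈ (C ∪ D)ᶜ, φ i := by
  rw [← Finset.sum_union h, Finset.sum_add_sum_compl]

lemma hi_pairs {g : ι → ι → ℝ} (gs : ∀ i j, g i j = g j i) (g0 : ∀ i j, 0 ≤ g i j)
    {C D : Finset ι} (h : Disjoint C D) :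
    2 * (∑ d ∈ D, ∑ c ∈ C, g d c + ∑ d ∈ D, ∑ j ∈ (C ∪ D)ᶜ, g d j +
      ∑ c ∈ C, ∑ j ∈ (C ∪ D)ᶜ, g c j) ≤ ∑ i, ∑ j, g i j := by
  have sw : ∀ A B : Finset ι, ∑ a ∈ A, ∑ b ∈ B, g a b = ∑ b ∈ B, ∑ a ∈ A, g b a := fun A B => by
    rw [Finset.sum_comm]
    exact Finset.sum_congr rfl fun b _ => Finset.sum_congr rfl fun a _ => gs a b
  have nn : ∀ A : Finset ι, 0 ≤ ∑ a ∈ A, ∑ b ∈ A, g a b := fun A =>
    Finset.sum_nonneg fun a _ => Finset.sum_nonneg fun b _ => g0 a b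
  have e : ∀ i, ∑ j, g i j = _ := fun i => hi_split h (g i)
  rw [hi_split h]
  simp only [e, Finset.sum_add_distrib]
  linarith [sw C D, sw (C ∪ D)ᶜ C, sw (C ∪ D)ᶜ D, nn C, nn D, nn (C ∪ D)ᶜ]

lemma hi_two {g : ι → ι → ℝ} (gs : ∀ i j, g i j = g j i) (g0 : ∀ i j, 0 ≤ g i j)
    {C D : Finset ι} (h : Disjoint C D) : 2 * ∑ d ∈ D, ∑ c ∈ C, g d c ≤ ∑ i, ∑ j, g i j := by
  have nn : ∀ A B : Finset ι, 0 ≤ ∑ a ∈ A, ∑ b ∈ B, g a b := fun A B =>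
    Finset.sum_nonneg fun a _ => Finset.sum_nonneg fun b _ => g0 a b
  linarith [hi_pairs gs g0 h, nn D (C ∪ D)ᶜ, nn C (C ∪ D)ᶜ]

namespace HiLoc

variable {w w' : ι → ι → ℝ} {x y β : ℝ} {k l : ℕ} {C D : Finset ι} {u v : ι → ℝ}

lemma norm (h : HiLoc w x k β C u) : ∑ i, u i ^ 2 = k + ∑ i ∈ Cᶜ, u i ^ 2 := by
  rw [← Finset.sum_add_sum_compl C, Finset.sum_congr rfl fun c hc => by rw [h.one c hc]]
  simp [h.card]

lemma lo (h : HiLoc w x k β C u) : (k : ℝ) ≤ ∑ i, u i ^ 2 := by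
  rw [h.norm]
  exact le_add_of_nonneg_right (Finset.sum_nonneg fun _ _ => sq_nonneg _)

lemma hi (h : HiLoc w x k β C u) : ∑ i, u i ^ 2 ≤ k + β ^ 2 := by
  rw [h.norm]
  linarith [h.off]

lemma small (h : HiLoc w x k β C u) (hβ : 0 ≤ β) {i : ι} (hi : i ∉ C) : -β ≤ u i ∧ u i ≤ β :=
  abs_le.1 (abs_le_of_sq_le_sq' ((Finset.single_le_sum (f := fun i => u i ^ 2)
    (fun _ _ => sq_nonneg _) (Finset.mem_compl.2 hi)).trans h.off) hβ |> abs_le.2)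

lemma x_nonneg (h : HiLoc w x k β C u) (h0 : ∀ i j, 0 ≤ w i j) (hk : 1 ≤ k) : 0 ≤ x := by
  have h1 : 0 ≤ ∑ i, ∑ j, w i j * (u i - u j) ^ 2 :=
    Finset.sum_nonneg fun i _ => Finset.sum_nonneg fun j _ => mul_nonneg (h0 i j) (sq_nonneg _)
  have k1 : (1 : ℝ) ≤ k := by exact_mod_cast hk
  have := h.en
  have := h.lo
  by_contra e
  nlinarith [not_le.1 e]

lemma side (h : HiLoc w x k β C u) (hd : Disjoint C D) (hD : D.card = l) (θ : ι → ℝ)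
    (hθ : ∀ d ∈ D, 0 ≤ θ d ∧ θ d ≤ 1) {n' m : ℝ} (hn : (((C ∪ D)ᶜ).card : ℝ) = n')
    (h6 : 6 * (l : ℝ) ≤ n') (hm : ∑ j ∈ (C ∪ D)ᶜ, u j = n' * m) :
    (∑ i, u i ^ 2) * ∑ d ∈ D, θ d + m ^ 2 * (n' * ∑ d ∈ D, θ d * (1 - θ d) -
        6 * ((∑ d ∈ D, θ d) * (l - ∑ d ∈ D, θ d))) ≤
      ∑ d ∈ D, k * θ d * (u d - 1) ^ 2 + ∑ d ∈ D, ∑ j ∈ (C ∪ D)ᶜ, (u d - u j) ^ 2 := by
  have hle : n' ≤ Fintype.card ι := by
    rw [← hn]; exact_mod_cast Finset.card_le_univ _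
  have star : ∀ d, (k : ℝ) * (u d - 1) ^ 2 + ∑ d' ∈ D, (u d - u d') ^ 2 +
      ∑ j ∈ (C ∪ D)ᶜ, (u d - u j) ^ 2 = Fintype.card ι * u d ^ 2 + ∑ i, u i ^ 2 := fun d => by
    have e1 := hi_split hd fun i => (u d - u i) ^ 2
    have e2 : ∑ i ∈ C, (u d - u i) ^ 2 = (k : ℝ) * (u d - 1) ^ 2 := by
      rw [Finset.sum_congr rfl fun c hc => by rw [h.one c hc]]
      simp [h.card]
    have e3 : ∀ i, (u d - u i) ^ 2 = u d ^ 2 + u i ^ 2 - 2 * u d * u i := fun i => by ring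
    rw [← e2, ← e1]
    simp only [e3, Finset.sum_sub_distrib, Finset.sum_add_distrib, ← Finset.mul_sum, h.sum,
      Finset.sum_const, Finset.card_univ, nsmul_eq_mul, mul_zero, sub_zero]
  have hA : ∀ d, n' * (u d - m) ^ 2 ≤ ∑ j ∈ (C ∪ D)ᶜ, (u d - u j) ^ 2 := fun d => by
    have e : ∑ j ∈ (C ∪ D)ᶜ, ((u d - m) ^ 2 + 2 * (u d - m) * m - 2 * (u d - m) * u j) =
        n' * (u d - m) ^ 2 := by
      simp only [Finset.sum_sub_distrib, ← Finset.mul_sum, hm, Finset.sum_const, nsmul_eq_mul, hn]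
      ring
    rw [← e]
    exact Finset.sum_le_sum fun j _ => by nlinarith [sq_nonneg (m - u j)]
  obtain ⟨e, he⟩ : ∃ e : ι → ℝ, ∀ d, e d = u d - (1 - θ d) * m := ⟨_, fun _ => rfl⟩
  have hB : ∑ d ∈ D, θ d * ∑ d' ∈ D, (u d - u d') ^ 2 ≤
      6 * l * ∑ d ∈ D, e d ^ 2 + 6 * m ^ 2 * ((∑ d ∈ D, θ d) * (l - ∑ d ∈ D, θ d)) := by
    have e1 : ∑ d ∈ D, ∑ d' ∈ D, (3 * e d ^ 2 + 3 * e d' ^ 2 + 3 * m ^ 2 * θ d + 3 * m ^ 2 * θ d'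
        - 6 * m ^ 2 * (θ d * θ d')) =
        6 * l * ∑ d ∈ D, e d ^ 2 + 6 * m ^ 2 * ((∑ d ∈ D, θ d) * (l - ∑ d ∈ D, θ d)) := by
      simp only [Finset.sum_sub_distrib, Finset.sum_add_distrib, ← Finset.mul_sum,
        ← Finset.sum_mul, Finset.sum_const, nsmul_eq_mul, hD]
      ring
    rw [← e1]
    refine Finset.sum_le_sum fun d h1 => ?_
    rw [Finset.mul_sum]
    refine Finset.sum_le_sum fun d' h2 => ?_
    obtain ⟨a0, a1⟩ := hθ d h1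
    obtain ⟨b0, b1⟩ := hθ d' h2
    have f1 : u d - u d' = e d - e d' + (θ d' - θ d) * m := by rw [he, he]; ring
    have f2 : (θ d' - θ d) ^ 2 ≤ θ d + θ d' - 2 * (θ d * θ d') := by nlinarith
    have f3 := mul_le_mul_of_nonneg_left f2 (sq_nonneg m)
    have f4 := mul_le_of_le_one_left (sq_nonneg (u d - u d')) a1
    have f5 : (u d - u d') ^ 2 ≤ 3 * e d ^ 2 + 3 * e d' ^ 2 + 3 * (m ^ 2 * (θ d' - θ d) ^ 2) := by
      rw [f1]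
      nlinarith [sq_nonneg (e d + e d'), sq_nonneg (e d - (θ d' - θ d) * m),
        sq_nonneg (e d' + (θ d' - θ d) * m)]
    linarith
  have hs : ∑ d ∈ D, ((∑ i, u i ^ 2) * θ d + m ^ 2 * n' * (θ d * (1 - θ d)) + n' * e d ^ 2 -
      θ d * ∑ d' ∈ D, (u d - u d') ^ 2) ≤
      ∑ d ∈ D, (k * θ d * (u d - 1) ^ 2 + ∑ j ∈ (C ∪ D)ᶜ, (u d - u j) ^ 2) :=
    Finset.sum_le_sum fun d h1 => by
      obtain ⟨a0, a1⟩ := hθ d h1
      have f1 := congrArg (θ d * ·) (star d)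
      have f2 := mul_le_mul_of_nonneg_left (hA d) (sub_nonneg.2 a1)
      have f3 := mul_le_mul_of_nonneg_left hle (mul_nonneg a0 (sq_nonneg (u d)))
      rw [he]
      simp only at f1
      nlinarith
  simp only [Finset.sum_sub_distrib, Finset.sum_add_distrib, ← Finset.mul_sum] at hs
  have e0 : 0 ≤ ∑ d ∈ D, e d ^ 2 := Finset.sum_nonneg fun _ _ => sq_nonneg _
  nlinarith [mul_le_mul_of_nonneg_right h6 e0]

end HiLoc

end Pool.Agent.Lib.MP_3a2c26_co
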