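import Pool.Agent.Lib.MP_3a2c26_co.Hi1

/-! Both test vectors localized. -/

set_option autoImplicit false

namespace Pool.Agent.Lib.MP_3a2c26_co

open Finset

variable {ι : Type} [Fintype ι] [DecidableEq ι]

namespace HiLoc

variable {w w' : ι → ι → ℝ} {x y β K : ℝ} {k l : ℕ} {C D : Finset ι} {u v : ι → ℝ}

lemma mean (h : HiLoc w x k β C u) (hd : Disjoint C D) (hD : D.card = l) (hk : 1 ≤ k)
    (β0 : 0 ≤ β) (β1 : l * β ≤ 1 / 4) :
    9 / 16 * (k : ℝ) ^ 2 ≤ (∑ j ∈ (C ∪ D)ᶜ, u j) ^ 2 ∧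
      (∑ j ∈ (C ∪ D)ᶜ, u j) ^ 2 ≤ 25 / 16 * (k : ℝ) ^ 2 := by
  have e1 := hi_split hd u
  have e2 : ∑ i ∈ C, u i = k := by
    rw [Finset.sum_congr rfl h.one]; simp [h.card]
  have hs : ∀ d ∈ D, -β ≤ u d ∧ u d ≤ β := fun d h1 =>
    h.small β0 (Finset.disjoint_right.1 hd h1)
  have e3 : ∑ d ∈ D, u d ≤ ∑ _d ∈ D, β := Finset.sum_le_sum fun d h1 => (hs d h1).2
  have e4 : ∑ _d ∈ D, -β ≤ ∑ d ∈ D, u d := Finset.sum_le_sum fun d h1 => (hs d h1).1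
  rw [Finset.sum_const, nsmul_eq_mul, hD] at e3 e4
  rw [h.sum, e2] at e1
  have k1 : (1 : ℝ) ≤ k := by exact_mod_cast hk
  have e5 : ∑ j ∈ (C ∪ D)ᶜ, u j ≤ -(3 / 4 * k) := by linarith
  have e6 : -(5 / 4 * (k : ℝ)) ≤ ∑ j ∈ (C ∪ D)ᶜ, u j := by linarith
  constructor <;> nlinarith

lemma hi' (h : HiLoc w x k β C u) (hk : 1 ≤ k) (β0 : 0 ≤ β) (β1 : β ≤ 1 / 4) :
    ∑ i, u i ^ 2 ≤ 17 / 16 * k := by
  have k1 : (1 : ℝ) ≤ k := by exact_mod_cast hk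
  nlinarith [h.hi]

lemma meet (hu : HiLoc w x k β C u) (hv : HiLoc w' y l β D v) (hk : 1 ≤ k) (hl : 1 ≤ l)
    (β0 : 0 ≤ β) (β1 : β ≤ 1 / 4)
    (hw : ∀ i j, w i j = w j i) (hw' : ∀ i j, w' i j = w' j i) (h0 : ∀ i j, 0 ≤ w i j)
    (h0' : ∀ i j, 0 ≤ w' i j) (h1 : ∀ i j, w i j + w' i j = 1) {i : ι} (hC : i ∈ C) (hD : i ∈ D)
    (hn : 2 * ((k : ℝ) * l) ≤ ((C ∪ D)ᶜ).card) : (k : ℝ) * l ≤ k * x + l * y := by
  have hd : Disjoint (C ∪ D)ᶜ {i} := by simp [hC]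
  have e1 := (hi_two (g := fun i j => w i j * (u i - u j) ^ 2) (fun i j => by rw [hw]; ring)
    (fun i j => mul_nonneg (h0 i j) (sq_nonneg _)) hd).trans hu.en
  have e2 := (hi_two (g := fun i j => w' i j * (v i - v j) ^ 2) (fun i j => by rw [hw']; ring)
    (fun i j => mul_nonneg (h0' i j) (sq_nonneg _)) hd).trans hv.en
  simp only [Finset.sum_singleton, hu.one i hC, hv.one i hD] at e1 e2
  have e3 : ∑ _j ∈ (C ∪ D)ᶜ, (9 / 16 : ℝ) ≤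
      ∑ j ∈ (C ∪ D)ᶜ, (w i j * (1 - u j) ^ 2 + w' i j * (1 - v j) ^ 2) :=
    Finset.sum_le_sum fun j hj => by
      simp only [Finset.mem_compl, Finset.mem_union, not_or] at hj
      have a := (hu.small β0 hj.1).2
      have b := (hv.small β0 hj.2).2
      have a' : 9 / 16 ≤ (1 - u j) ^ 2 := by nlinarith
      have b' : 9 / 16 ≤ (1 - v j) ^ 2 := by nlinarith
      nlinarith [mul_le_mul_of_nonneg_left a' (h0 i j), mul_le_mul_of_nonneg_left b' (h0' i j),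
        h1 i j]
  rw [Finset.sum_const, nsmul_eq_mul, Finset.sum_add_distrib] at e3
  have e4 := mul_le_mul_of_nonneg_left (hu.hi' hk β0 β1) (hu.x_nonneg h0 hk)
  have e5 := mul_le_mul_of_nonneg_left (hv.hi' hl β0 β1) (hv.x_nonneg h0' hl)
  have : (0 : ℝ) ≤ k * l := by positivity
  linarith

lemma drop (hu : HiLoc w x k β C u) (hv : HiLoc w' y l β D v) (hl : 1 ≤ l)
    (β0 : 0 ≤ β) (β1 : β ≤ 1 / 4)
    (h0' : ∀ i j, 0 ≤ w' i j) (h1 : ∀ i j, w i j + w' i j = 1) (hd : Disjoint C D) :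
    (k * ∑ i, v i ^ 2) * ∑ d ∈ D, ∑ j ∈ (C ∪ D)ᶜ, (u d - u j) ^ 2 ≤
      (k * ∑ i, v i ^ 2) * ∑ d ∈ D, ∑ j ∈ (C ∪ D)ᶜ, w d j * (u d - u j) ^ 2 +
        (l * ∑ i, u i ^ 2) * ∑ d ∈ D, ∑ j ∈ (C ∪ D)ᶜ, w' d j * (v d - v j) ^ 2 := by
  have k0 : (0 : ℝ) ≤ k := Nat.cast_nonneg _
  have l0 : (0 : ℝ) ≤ l := Nat.cast_nonneg _
  have a0 := mul_le_mul_of_nonneg_left hu.lo l0
  have b0 : 0 ≤ k * ∑ i, v i ^ 2 := mul_nonneg k0 (l0.trans hv.lo)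
  have b1 := mul_le_mul_of_nonneg_left (hv.hi' hl β0 β1) k0
  have c0 := mul_nonneg k0 l0
  generalize l * ∑ i, u i ^ 2 = a at *
  generalize k * ∑ i, v i ^ 2 = b at *
  simp only [Finset.mul_sum, ← Finset.sum_add_distrib]
  refine Finset.sum_le_sum fun d h2 => Finset.sum_le_sum fun j hj => ?_
  simp only [Finset.mem_compl, Finset.mem_union, not_or] at hj
  obtain ⟨p1, p2⟩ := hu.small β0 hj.1
  obtain ⟨p3, p4⟩ := hu.small β0 (Finset.disjoint_right.1 hd h2)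
  have p5 := (hv.small β0 hj.2).2
  have q1 : (u d - u j) ^ 2 ≤ 1 / 4 := by nlinarith
  have q2 : 9 / 16 ≤ (1 - v j) ^ 2 := by nlinarith
  have q3 : b * (u d - u j) ^ 2 ≤ a * (1 - v j) ^ 2 := by
    nlinarith [mul_le_mul_of_nonneg_left q1 b0,
      mul_le_mul_of_nonneg_left q2 (show 0 ≤ a by linarith)]
  have q4 := mul_le_mul_of_nonneg_left q3 (h0' d j)
  have q5 : w d j = 1 - w' d j := by linarith [h1 d j]
  rw [hv.one d h2, q5]
  nlinarith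

lemma ratio {a b k l M M' n m m' : ℝ} (k0 : 0 < k) (l0 : 0 < l) (a0 : k ≤ a)
    (b1 : b ≤ 17 / 16 * l) (hM : M ^ 2 ≤ 25 / 16 * k ^ 2) (hM' : 9 / 16 * l ^ 2 ≤ M' ^ 2)
    (n0 : 0 < n) (e : M = n * m) (e' : M' = n * m') :
    l * (b * m ^ 2) ≤ 4 * (k * (a * m' ^ 2)) := by
  have h1 := mul_le_mul_of_nonneg_right b1 (mul_nonneg l0.le (sq_nonneg M))
  have h2 := mul_le_mul_of_nonneg_right a0 (mul_nonneg k0.le (sq_nonneg M'))
  have h3 := mul_le_mul_of_nonneg_left hM (sq_nonneg l)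
  have h4 := mul_le_mul_of_nonneg_left hM' (sq_nonneg k)
  have h5 : 0 ≤ k ^ 2 * l ^ 2 := by positivity
  refine le_of_mul_le_mul_left ?_ (pow_pos n0 2)
  subst e e'
  nlinarith

lemma apart (hu : HiLoc w x k β C u) (hv : HiLoc w' y l β D v) (hk : 1 ≤ k) (hl : 1 ≤ l)
    (kK : k ≤ K) (lK : l ≤ K) (β0 : 0 ≤ β) (βK : K * β ≤ 1 / 4)
    (hw : ∀ i j, w i j = w j i) (hw' : ∀ i j, w' i j = w' j i) (h0 : ∀ i j, 0 ≤ w i j)
    (h0' : ∀ i j, 0 ≤ w' i j) (h1 : ∀ i j, w i j + w' i j = 1) (hd : Disjoint C D)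
    (hn : 30 * K ≤ ((C ∪ D)ᶜ).card) : (k : ℝ) * l ≤ k * x + l * y := by
  have k1 : (1 : ℝ) ≤ k := by exact_mod_cast hk
  have l1 : (1 : ℝ) ≤ l := by exact_mod_cast hl
  have k0 : (0 : ℝ) < k := by linarith
  have l0 : (0 : ℝ) < l := by linarith
  have β1 : β ≤ 1 / 4 := by nlinarith
  have βk : k * β ≤ 1 / 4 := (mul_le_mul_of_nonneg_right kK β0).trans βK
  have βl : l * β ≤ 1 / 4 := (mul_le_mul_of_nonneg_right lK β0).trans βK
  obtain ⟨n', hn'⟩ : ∃ n' : ℝ, (((C ∪ D)ᶜ).card : ℝ) = n' := ⟨_, rfl⟩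
  rw [hn'] at hn
  have n0 : 0 < n' := by linarith
  have hN : (D ∪ C)ᶜ = (C ∪ D)ᶜ := by rw [Finset.union_comm]
  obtain ⟨θ, hθ⟩ : ∃ θ : ι → ℝ, ∀ d, k * θ d = ∑ c ∈ C, w d c :=
    ⟨fun d => (∑ c ∈ C, w d c) / k, fun d => mul_div_cancel₀ _ k0.ne'⟩
  obtain ⟨φ, hφ⟩ : ∃ φ : ι → ℝ, ∀ c, l * φ c = ∑ d ∈ D, w' c d :=
    ⟨fun c => (∑ d ∈ D, w' c d) / l, fun d => mul_div_cancel₀ _ l0.ne'⟩
  have unit : ∀ (g g' : ι → ℝ) (A : Finset ι) (r : ℝ), (0 : ℝ) < A.card → (∀ i, 0 ≤ g i) →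
      (∀ i, 0 ≤ g' i) → (∀ i, g i + g' i = 1) → A.card * r = ∑ c ∈ A, g c → 0 ≤ r ∧ r ≤ 1 := by
    intro g g' A r hA g0 g1 gg hr
    have e1 : 0 ≤ ∑ c ∈ A, g c := Finset.sum_nonneg fun c _ => g0 c
    have e2 : ∑ c ∈ A, g c ≤ ∑ _c ∈ A, (1 : ℝ) :=
      Finset.sum_le_sum fun c _ => by linarith [g1 c, gg c]
    rw [Finset.sum_const, nsmul_eq_mul] at e2
    constructor
    · exact le_of_mul_le_mul_left (by linarith) hA
    · exact le_of_mul_le_mul_left (by linarith) hA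
  have θ01 : ∀ d, 0 ≤ θ d ∧ θ d ≤ 1 := fun d =>
    unit (w d) (w' d) C _ (hu.card ▸ k0) (h0 d) (h0' d) (h1 d) (hu.card ▸ hθ d)
  have φ01 : ∀ c, 0 ≤ φ c ∧ φ c ≤ 1 := fun c =>
    unit (w' c) (w c) D _ (hv.card ▸ l0) (h0' c) (h0 c) (fun i => by linarith [h1 c i])
      (hv.card ▸ hφ c)
  have hW : l * ∑ c ∈ C, φ c = k * l - k * ∑ d ∈ D, θ d := by
    have e : ∀ c d, w' c d = 1 - w d c := fun c d => by rw [hw d c]; linarith [h1 c d]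
    rw [Finset.mul_sum, Finset.mul_sum]
    simp only [hθ, hφ, e, Finset.sum_sub_distrib, Finset.sum_const, nsmul_eq_mul, hu.card,
      hv.card, mul_one]
    rw [Finset.sum_comm]
  have hX : (∑ d ∈ D, θ d) * ∑ c ∈ C, φ c ≤
      k * ∑ d ∈ D, θ d * (1 - θ d) + l * ∑ c ∈ C, φ c * (1 - φ c) := by
    have e1 : ∑ d ∈ D, ∑ c ∈ C, θ d * φ c ≤
        ∑ d ∈ D, ∑ c ∈ C, (θ d - θ d * w d c) + ∑ c ∈ C, ∑ d ∈ D, (φ c - φ c * w' c d) := by
      rw [Finset.sum_comm (s := C), ← Finset.sum_add_distrib]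
      refine Finset.sum_le_sum fun d _ => ?_
      rw [← Finset.sum_add_distrib]
      refine Finset.sum_le_sum fun c _ => ?_
      have e : w' c d = 1 - w d c := by rw [hw d c]; linarith [h1 c d]
      have e0 : 0 ≤ 1 - w d c := e ▸ h0' c d
      rw [e]
      nlinarith [mul_nonneg (mul_nonneg (θ01 d).1 e0) (sub_nonneg.2 (φ01 c).2),
        mul_nonneg (mul_nonneg (φ01 c).1 (h0 d c)) (sub_nonneg.2 (θ01 d).2)]
    have e2 : ∀ d, ∑ c ∈ C, (θ d - θ d * w d c) = k * (θ d * (1 - θ d)) := fun d => by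
      rw [Finset.sum_sub_distrib, ← Finset.mul_sum, ← hθ, Finset.sum_const, nsmul_eq_mul, hu.card]
      ring
    have e3 : ∀ c, ∑ d ∈ D, (φ c - φ c * w' c d) = l * (φ c * (1 - φ c)) := fun c => by
      rw [Finset.sum_sub_distrib, ← Finset.mul_sum, ← hφ, Finset.sum_const, nsmul_eq_mul, hv.card]
      ring
    simp only [e2, e3, ← Finset.mul_sum] at e1
    rwa [← Finset.sum_mul] at e1
  obtain ⟨m, hm⟩ : ∃ m, ∑ j ∈ (C ∪ D)ᶜ, u j = n' * m := ⟨_, (mul_div_cancel₀ _ n0.ne').symm⟩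
  obtain ⟨m', hm'⟩ : ∃ m, ∑ j ∈ (D ∪ C)ᶜ, v j = n' * m := ⟨_, (mul_div_cancel₀ _ n0.ne').symm⟩
  have s1 := hu.side hd hv.card θ (fun d _ => θ01 d) hn' (by linarith) hm
  have s2 := hv.side hd.symm hu.card φ (fun d _ => φ01 d) (hN ▸ hn') (by linarith) hm'
  have mu := hu.mean hd hv.card hk β0 βl
  have mv := hv.mean hd.symm hu.card hl β0 βk
  have r1 := ratio l0 k0 hv.lo (hu.hi' hk β0 β1) mv.2 mu.1 n0 hm' hm
  have r2 := ratio k0 l0 hu.lo (hv.hi' hl β0 β1) mu.2 mv.1 n0 hm hm'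
  have g1 := (hi_pairs (g := fun i j => w i j * (u i - u j) ^ 2) (fun i j => by rw [hw]; ring)
    (fun i j => mul_nonneg (h0 i j) (sq_nonneg _)) hd).trans hu.en
  have g2 := (hi_pairs (g := fun i j => w' i j * (v i - v j) ^ 2) (fun i j => by rw [hw']; ring)
    (fun i j => mul_nonneg (h0' i j) (sq_nonneg _)) hd.symm).trans hv.en
  have d1 := hu.drop hv hl β0 β1 h0' h1 hd
  have d2 := hv.drop hu hk β0 β1 h0 (fun i j => by linarith [h1 i j]) hd.symm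
  have t1 : ∑ d ∈ D, ∑ c ∈ C, w d c * (u d - u c) ^ 2 = ∑ d ∈ D, k * θ d * (u d - 1) ^ 2 :=
    Finset.sum_congr rfl fun d _ => by
      rw [hθ, Finset.sum_mul]
      exact Finset.sum_congr rfl fun c hc => by rw [hu.one c hc]
  have t2 : ∑ c ∈ C, ∑ d ∈ D, w' c d * (v c - v d) ^ 2 = ∑ c ∈ C, l * φ c * (v c - 1) ^ 2 :=
    Finset.sum_congr rfl fun d _ => by
      rw [hφ, Finset.sum_mul]
      exact Finset.sum_congr rfl fun c hc => by rw [hv.one c hc]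
  have S0 : 0 ≤ ∑ d ∈ D, θ d * (1 - θ d) :=
    Finset.sum_nonneg fun d _ => mul_nonneg (θ01 d).1 (sub_nonneg.2 (θ01 d).2)
  have S1 : 0 ≤ ∑ c ∈ C, φ c * (1 - φ c) :=
    Finset.sum_nonneg fun d _ => mul_nonneg (φ01 d).1 (sub_nonneg.2 (φ01 d).2)
  have a0 : 0 < ∑ i, u i ^ 2 := k0.trans_le hu.lo
  have b0 : 0 < ∑ i, v i ^ 2 := l0.trans_le hv.lo
  simp only [t1] at g1
  simp only [t2, hN] at g2
  rw [hN] at d2 s2
  generalize ∑ d ∈ D, θ d * (1 - θ d) = S at *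
  generalize ∑ c ∈ C, φ c * (1 - φ c) = S' at *
  generalize ∑ d ∈ D, θ d = W at *
  generalize ∑ c ∈ C, φ c = Φ at *
  generalize ∑ i, u i ^ 2 = a at *
  generalize ∑ i, v i ^ 2 = b at *
  have key : 0 ≤ k * (b * m ^ 2) * (n' * S - 6 * (W * (l - W))) +
      l * (a * m' ^ 2) * (n' * S' - 6 * (Φ * (k - Φ))) := by
    have p0 : 0 ≤ b * m ^ 2 := by positivity
    have q0 : 0 ≤ a * m' ^ 2 := by positivity
    generalize b * m ^ 2 = p at *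
    generalize a * m' ^ 2 = q at *
    have A0 : 0 ≤ p * (k * S) := by positivity
    have B0 : 0 ≤ q * (l * S') := by positivity
    have z1 := mul_le_mul_of_nonneg_right r1 (mul_nonneg k0.le S0)
    have z2 := mul_le_mul_of_nonneg_right r2 (mul_nonneg l0.le S1)
    have z3 := mul_le_mul_of_nonneg_left hX (add_nonneg (mul_nonneg l0.le p0) (mul_nonneg k0.le q0))
    have z4 := mul_le_mul_of_nonneg_right hn (add_nonneg A0 B0)
    have z5 := mul_le_mul_of_nonneg_right lK A0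
    have z6 := mul_le_mul_of_nonneg_right kK B0
    have z7 : k * p * (W * (l - W)) = l * p * (W * Φ) := by linear_combination (-(p * W)) * hW
    have z8 : l * q * (Φ * (k - Φ)) = k * q * (W * Φ) := by linear_combination (-(q * Φ)) * hW
    linarith
  have z9 : a * b * (l * Φ) = a * b * (k * l - k * W) := by rw [hW]
  refine le_of_mul_le_mul_left ?_ (mul_pos a0 b0)
  have kb := (mul_pos k0 b0).le
  have la := (mul_pos l0 a0).le
  linarith [mul_le_mul_of_nonneg_left g1 kb, mul_le_mul_of_nonneg_left g2 la,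
    mul_le_mul_of_nonneg_left s1 kb, mul_le_mul_of_nonneg_left s2 la]

theorem both (hu : HiLoc w x k β C u) (hv : HiLoc w' y l β D v) (hk : 1 ≤ k) (hl : 1 ≤ l)
    (kK : k ≤ K) (lK : l ≤ K) (β0 : 0 ≤ β) (βK : K * β ≤ 1 / 4)
    (hw : ∀ i j, w i j = w j i) (hw' : ∀ i j, w' i j = w' j i) (h0 : ∀ i j, 0 ≤ w i j)
    (h0' : ∀ i j, 0 ≤ w' i j) (h1 : ∀ i j, w i j + w' i j = 1)
    (hn : 32 * K ^ 2 ≤ Fintype.card ι) : (k : ℝ) * l ≤ k * x + l * y := by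
  have k1 : (1 : ℝ) ≤ k := by exact_mod_cast hk
  have l1 : (1 : ℝ) ≤ l := by exact_mod_cast hl
  have e : (Fintype.card ι : ℝ) ≤ k + l + ((C ∪ D)ᶜ).card := by
    have e1 := Finset.card_add_card_compl (C ∪ D)
    have e2 := Finset.card_union_le C D
    rw [hu.card, hv.card] at e2
    exact_mod_cast (by omega : Fintype.card ι ≤ k + l + ((C ∪ D)ᶜ).card)
  have K2 : K ≤ K ^ 2 := by nlinarith
  by_cases hd : Disjoint C D
  · exact hu.apart hv hk hl kK lK β0 βK hw hw' h0 h0' h1 hd (by linarith)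
  · obtain ⟨i, hC, hD⟩ := Finset.not_disjoint_iff.1 hd
    exact hu.meet hv hk hl β0 (by nlinarith) hw hw' h0 h0' h1 hC hD
      (by nlinarith [mul_le_mul kK lK (by linarith) (by linarith : 0 ≤ K)])

end HiLoc

end Pool.Agent.Lib.MP_3a2c26_co
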