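import Pool.Agent.Lib.MP_3a2c26_co.Hi0
import Pool.Agent.Lib.MP_3a2c26_co.Hi2

/-! The mixed case, the dichotomy and the exact bound for large graphs. -/

set_option autoImplicit false

namespace Pool.Agent.Lib.MP_3a2c26_co

open Finset

variable {ι : Type} [Fintype ι] [DecidableEq ι]

theorem HiFr.mixed {w w' P : ι → ι → ℝ} {x y t β r k : ℝ} {l : ℕ} {D : Finset ι} {v : ι → ℝ}
    (hP : HiFr w x t P) (hv : HiLoc w' y l β D v) (k0 : 0 < k) (hl : 1 ≤ l)
    (hw : ∀ i j, w i j = w j i) (hw' : ∀ i j, w' i j = w' j i) (h0 : ∀ i j, 0 ≤ w i j)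
    (h0' : ∀ i j, 0 ≤ w' i j) (h1 : ∀ i j, w i j + w' i j = 1) (β0 : 0 < β) (β1 : β ≤ 1 / 4)
    (hr : β * r = 1) (t0 : 0 < t) (ht : k * ((1 + β) * (l + β ^ 2)) ≤ l * ((1 - β) ^ 2 * t))
    (hn : 4 * (l : ℝ) + 2 * (k * l) * (1 + r) ≤ Fintype.card ι) : k * l ≤ k * x + l * y := by
  have l1 : (1 : ℝ) ≤ l := by exact_mod_cast hl
  have l0 : (0 : ℝ) < l := by linarith
  have r0 : 0 < r := by
    by_contra e
    nlinarith [mul_nonneg β0.le (neg_nonneg.2 (not_lt.1 e))]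
  have hd : Disjoint Dᶜ D := disjoint_compl_left
  have e1 := (hi_two (g := fun i j => w i j * (P i i + P j j - 2 * P i j))
    (fun i j => by rw [hw, hP.symm i j]; ring)
    (fun i j => mul_nonneg (h0 i j) (hP.lo i j)) hd).trans hP.en
  have e2 := (hi_two (g := fun i j => w' i j * (v i - v j) ^ 2) (fun i j => by rw [hw']; ring)
    (fun i j => mul_nonneg (h0' i j) (sq_nonneg _)) hd).trans hv.en
  obtain ⟨Ω, hΩ⟩ : ∃ Ω, Ω = ∑ d ∈ D, ∑ j ∈ Dᶜ, w' d j := ⟨_, rfl⟩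
  obtain ⟨T, hT⟩ : ∃ T, T = ∑ d ∈ D, P d d := ⟨_, rfl⟩
  have T0 : 0 ≤ T := hT ▸ Finset.sum_nonneg fun d _ => hP.nonneg d
  have Ω0 : 0 ≤ Ω := hΩ ▸ Finset.sum_nonneg fun d _ => Finset.sum_nonneg fun j _ => h0' d j
  have e3 : (1 - β) ^ 2 * Ω ≤ ∑ d ∈ D, ∑ j ∈ Dᶜ, w' d j * (v d - v j) ^ 2 := by
    simp only [hΩ, Finset.mul_sum]
    refine Finset.sum_le_sum fun d h2 => Finset.sum_le_sum fun j hj => ?_
    have a := (hv.small β0.le (Finset.mem_compl.1 hj)).2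
    rw [hv.one d h2, mul_comm]
    exact mul_le_mul_of_nonneg_left (by nlinarith) (h0' d j)
  have e4 : ∑ d ∈ D, ∑ j ∈ D, (P d d + P j j - 2 * P d j) +
      ∑ d ∈ D, ∑ j ∈ Dᶜ, (P d d + P j j - 2 * P d j) = Fintype.card ι * T + l * t := by
    rw [← Finset.sum_add_distrib]
    simp only [Finset.sum_add_sum_compl]
    simp only [Finset.sum_sub_distrib, Finset.sum_add_distrib, ← Finset.mul_sum, hP.row, hP.tr,
      Finset.sum_const, Finset.card_univ, nsmul_eq_mul, hv.card, mul_zero, sub_zero, hT]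
  have e5 : ∑ d ∈ D, ∑ j ∈ D, (P d d + P j j - 2 * P d j) ≤ 4 * l * T := by
    refine (Finset.sum_le_sum fun d _ => Finset.sum_le_sum fun j _ => hP.hi d j).trans ?_
    simp only [Finset.sum_add_distrib, ← Finset.mul_sum, Finset.sum_const, nsmul_eq_mul, hv.card,
      ← hT]
    linarith
  have e6 : ∑ d ∈ D, ∑ j ∈ Dᶜ, (P d d + P j j - 2 * P d j) ≤
      ∑ d ∈ D, ∑ j ∈ Dᶜ, w d j * (P d d + P j j - 2 * P d j) + (1 + β) * Ω + (1 + r) * Ω * T := by
    rw [hT, Finset.mul_sum]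
    nth_rewrite 1 [hΩ]
    rw [Finset.mul_sum, ← Finset.sum_add_distrib, ← Finset.sum_add_distrib]
    refine Finset.sum_le_sum fun d h2 => ?_
    have f1 : ∑ j ∈ Dᶜ, w' d j ≤ Ω := hΩ ▸ Finset.single_le_sum
      (f := fun d => ∑ j ∈ Dᶜ, w' d j) (fun d _ => Finset.sum_nonneg fun j _ => h0' d j) h2
    have f2 : ∑ j ∈ Dᶜ, (P d d + P j j - 2 * P d j) ≤ ∑ j ∈ Dᶜ,
        (w d j * (P d d + P j j - 2 * P d j) + (1 + β + (1 + r) * P d d) * w' d j) :=
      Finset.sum_le_sum fun j _ => by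
        have g1 := mul_nonneg r0.le (hP.psd β j d)
        have g2 : r * (β ^ 2 * P j j + 2 * β * P j d + P d d) =
            β * P j j + 2 * P d j + r * P d d := by
          rw [hP.symm j d]
          linear_combination (β * P j j + 2 * P d j) * hr
        have g3 : P d d + P j j - 2 * P d j ≤ 1 + β + (1 + r) * P d d := by
          nlinarith [hP.le_one j]
        have g4 : w d j = 1 - w' d j := by linarith [h1 d j]
        rw [g4]
        nlinarith [mul_le_mul_of_nonneg_right g3 (h0' d j)]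
    rw [Finset.sum_add_distrib, ← Finset.mul_sum] at f2
    nlinarith [mul_le_mul_of_nonneg_left f1 (mul_nonneg (show 0 ≤ 1 + r by linarith) (hP.nonneg d))]
  have x0 := hP.x_nonneg h0 t0
  have y0 := hv.x_nonneg h0' hl
  have b1 := hv.hi
  have e7 : (1 - β) ^ 2 * Ω ≤ y * (l + β ^ 2) := by
    nlinarith [mul_le_mul_of_nonneg_left b1 y0]
  by_contra e
  have e := not_le.1 e
  have e8 : Ω ≤ 2 * (k * l) := by
    have f1 : 9 / 16 ≤ (1 - β) ^ 2 := by nlinarith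
    have f2 : (l : ℝ) + β ^ 2 ≤ 17 / 16 * l := by nlinarith
    nlinarith [mul_le_mul_of_nonneg_right f1 Ω0, mul_le_mul_of_nonneg_left f2 y0,
      mul_nonneg k0.le x0, mul_pos k0 l0]
  have e9 : l * t ≤ x * t + (1 + β) * Ω := by
    nlinarith [mul_le_mul_of_nonneg_right hn T0,
      mul_le_mul_of_nonneg_right e8 (mul_nonneg (show 0 ≤ 1 + r by linarith) T0)]
  have b0 : (0 : ℝ) < l + β ^ 2 := by positivity
  linarith [mul_le_mul_of_nonneg_right e9 (mul_pos k0 b0).le,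
    mul_le_mul_of_nonneg_right e7 (mul_pos l0 t0).le,
    mul_le_mul_of_nonneg_right ht Ω0, mul_pos (sub_pos.2 e) (mul_pos t0 b0)]

theorem hi_dich {w : ι → ι → ℝ} {x γ β : ℝ} {k : ℕ} (u : Fin k → ι → ℝ)
    (hu : ∀ a, ∑ i, u a i = 0) (hu' : ∀ a b, ∑ i, u a i * u b i = if a = b then 1 else 0)
    (hx : ∀ l : Fin k → ℝ, ∑ i, ∑ j, w i j * (∑ a, l a * u a i - ∑ a, l a * u a j) ^ 2 ≤
      2 * (x * ∑ i, (∑ a, l a * u a i) ^ 2))
    (γ0 : 0 < γ) (γ1 : γ ≤ 1) (γ2 : k * γ ≤ 1 / 2) (hβ : 2 * k ^ 2 * γ ≤ β ^ 2) :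
    (∃ P, HiFr w x (k + γ) P) ∨ ∃ C f, HiLoc w x k β C f := by
  obtain ⟨f, hf⟩ : ∃ f : (Fin k → ℝ) → ι → ℝ, ∀ l i, f l i = ∑ a, l a * u a i := ⟨_, fun _ _ => rfl⟩
  obtain ⟨P, hP⟩ : ∃ P : ι → ι → ℝ, ∀ i j, P i j = ∑ a, u a i * u a j := ⟨_, fun _ _ => rfl⟩
  have K : KfProj P k := by
    have := kf_proj u hu hu'
    simpa only [← hP, Fintype.card_fin] using this
  have n1 : ∀ l, ∑ i, f l i = 0 := fun l => by
    simp only [hf]
    rw [Finset.sum_comm]
    simp only [← Finset.mul_sum, hu, mul_zero, Finset.sum_const_zero]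
  have n2 : ∀ l, ∑ i, f l i ^ 2 = ∑ a, l a ^ 2 := fun l => by
    have : ∀ i, f l i ^ 2 = ∑ a, ∑ b, l a * l b * (u a i * u b i) := fun i => by
      rw [hf, sq, Finset.sum_mul_sum]
      exact Finset.sum_congr rfl fun a _ => Finset.sum_congr rfl fun b _ => by ring
    simp only [this]
    rw [Finset.sum_comm]
    refine Finset.sum_congr rfl fun a _ => ?_
    rw [Finset.sum_comm]
    simp only [← Finset.mul_sum, hu', mul_ite, mul_one, mul_zero, Finset.sum_ite_eq,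
      Finset.mem_univ, if_true, sq]
  have n3 : ∀ l i, f l i ^ 2 ≤ (∑ a, l a ^ 2) * P i i := fun l i => by
    rw [hf, hP]
    simpa only [sq] using Finset.sum_mul_sq_le_sq_mul_sq univ l fun a => u a i
  simp only [← hf] at hx
  have lin : ∀ C : Finset ι, ∃ R : (Fin k → ℝ) →ₗ[ℝ] (C → ℝ), ∀ l (c : C), R l c = f l c :=
    fun C => ⟨Matrix.mulVecLin (Matrix.of fun (c : C) a => u a c), fun l c => by
      simp only [Matrix.mulVecLin_apply, Matrix.mulVec, dotProduct, Matrix.of_apply, hf, mul_comm]⟩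
  have pos : ∀ l : Fin k → ℝ, ∑ a, l a ^ 2 ≤ 0 → l = 0 := fun l h => funext fun a =>
    pow_eq_zero_iff two_ne_zero |>.1 (le_antisymm ((Finset.single_le_sum (f := fun a => l a ^ 2)
      (fun _ _ => sq_nonneg _) (Finset.mem_univ a)).trans h) (sq_nonneg _))
  rcases lt_or_ge (univ.filter fun i => 1 - γ < P i i).card k with hS | hS
  · left
    obtain ⟨R, hR⟩ := lin (univ.filter fun i => 1 - γ < P i i)
    obtain ⟨l, hl, l0⟩ := (Submodule.ne_bot_iff _).1 (LinearMap.ker_ne_bot_of_finrank_lt (f := R)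
      (by simpa [Fintype.card_subtype] using hS))
    have ρ0 : 0 < ∑ a, l a ^ 2 := lt_of_not_ge fun h => l0 (pos l h)
    have z : ∀ i, 1 - γ < P i i → f l i = 0 := fun i hi => by
      rw [← hR l ⟨i, by simpa using hi⟩, LinearMap.mem_ker.1 hl]; rfl
    obtain ⟨c, hc⟩ : ∃ c, c * ∑ a, l a ^ 2 = γ := ⟨_, div_mul_cancel₀ _ ρ0.ne'⟩
    have c0 : 0 ≤ c := by
      by_contra e
      nlinarith [mul_pos (neg_pos.2 (not_le.1 e)) ρ0]
    refine ⟨fun i j => P i j + c * (f l i * f l j),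
      ⟨k + 1, Fin.cons (fun i => √c * f l i) u, fun i j => ?_⟩, fun i => ?_, fun i => ?_,
      fun i => ?_, ?_, ?_⟩
    · simp only [Fin.sum_univ_succ, Fin.cons_zero, Fin.cons_succ, hP]
      linear_combination (-(f l i * f l j)) * Real.mul_self_sqrt c0
    · simp only [Finset.sum_add_distrib, ← Finset.mul_sum, K.row, n1, mul_zero, add_zero]
    · rcases lt_or_ge (1 - γ) (P i i) with e | e
      · rw [z i e]; linarith [K.le_one i]
      · have := (n3 l i).trans (mul_le_of_le_one_right ρ0.le (K.le_one i))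
        nlinarith [mul_le_mul_of_nonneg_left this c0]
    · have e : ∑ j, (2 * P i j ^ 2 + 2 * c ^ 2 * f l i ^ 2 * f l j ^ 2) =
          2 * P i i + 2 * c * f l i ^ 2 * γ := by
        rw [Finset.sum_add_distrib, ← Finset.mul_sum, ← Finset.mul_sum, K.sq, n2, ← hc]; ring
      refine (Finset.sum_le_sum fun j _ => ?_).trans (e.le.trans ?_)
      · nlinarith [sq_nonneg (P i j - c * (f l i * f l j))]
      · nlinarith [mul_le_of_le_one_right (mul_nonneg c0 (sq_nonneg (f l i))) γ1]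
    · simp only [Finset.sum_add_distrib, ← Finset.mul_sum, K.tr, ← sq, n2, hc]
    · have e1 : ∑ i, ∑ j, w i j * (P i i + P j j - 2 * P i j) ≤ 2 * (x * k) := by
        simp only [hP]
        rw [kf_form]
        have : ∀ a, (∑ i, ∑ j, w i j * (u a i - u a j) ^ 2) / 2 ≤ x := fun a => by
          have e := hx (Pi.single a 1)
          have e' : ∀ i, f (Pi.single a 1) i = u a i := fun i => by
            simp [hf, Pi.single_apply]
          have e'' : ∑ i, u a i ^ 2 = 1 := by simpa [sq] using hu' a a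
          simp only [e', e''] at e
          linarith
        have := Finset.sum_le_sum fun a (_ : a ∈ univ) => this a
        rw [Finset.sum_const, Finset.card_univ, Fintype.card_fin, nsmul_eq_mul] at this
        linarith
      have e2 := mul_le_mul_of_nonneg_left (hx l) c0
      have e3 : ∑ i, ∑ j, w i j * (P i i + c * (f l i * f l i) + (P j j + c * (f l j * f l j)) -
          2 * (P i j + c * (f l i * f l j))) = ∑ i, ∑ j, w i j * (P i i + P j j - 2 * P i j) +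
          c * ∑ i, ∑ j, w i j * (f l i - f l j) ^ 2 := by
        simp only [Finset.mul_sum, ← Finset.sum_add_distrib]
        exact Finset.sum_congr rfl fun i _ => Finset.sum_congr rfl fun j _ => by ring
      rw [n2] at e2
      rw [e3, ← hc]
      linarith
  · right
    obtain ⟨C, hC, hk⟩ := Finset.exists_subset_card_eq hS
    obtain ⟨R, hR⟩ := lin C
    have o1 : ∑ i ∈ Cᶜ, P i i ≤ k * γ := by
      have e1 := Finset.sum_add_sum_compl C fun i => P i i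
      have e2 : ∑ _c ∈ C, (1 - γ) ≤ ∑ c ∈ C, P c c :=
        Finset.sum_le_sum fun c hc => (Finset.mem_filter.1 (hC hc)).2.le
      rw [Finset.sum_const, nsmul_eq_mul, hk] at e2
      rw [K.tr] at e1
      linarith
    have o2 : ∀ l, ∑ i ∈ Cᶜ, f l i ^ 2 ≤ (∑ i ∈ C, f l i ^ 2 + ∑ i ∈ Cᶜ, f l i ^ 2) * (k * γ) :=
      fun l => by
        rw [Finset.sum_add_sum_compl, n2]
        refine (Finset.sum_le_sum fun i _ => n3 l i).trans ?_
        rw [← Finset.mul_sum]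
        exact mul_le_mul_of_nonneg_left o1 (Finset.sum_nonneg fun _ _ => sq_nonneg _)
    have o0 : ∀ l, 0 ≤ ∑ i ∈ Cᶜ, f l i ^ 2 := fun l => Finset.sum_nonneg fun _ _ => sq_nonneg _
    have inj : Function.Injective R := by
      refine (injective_iff_map_eq_zero R).2 fun l hl => pos l ?_
      have e : ∑ i ∈ C, f l i ^ 2 = 0 := Finset.sum_eq_zero fun c hc => by
        rw [← hR l ⟨c, hc⟩, hl]; simp
      have := o2 l
      rw [← n2, ← Finset.sum_add_sum_compl C, e]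
      rw [e] at this
      nlinarith [mul_le_mul_of_nonneg_left γ2 (o0 l)]
    obtain ⟨l, hl⟩ := (LinearMap.injective_iff_surjective_of_finrank_eq_finrank
      (by simp [hk])).1 inj fun _ => 1
    have one : ∀ c ∈ C, f l c = 1 := fun c hc => by rw [← hR l ⟨c, hc⟩, hl]
    refine ⟨C, f l, hk, one, n1 l, ?_, hx l⟩
    have := o2 l
    have e : ∑ i ∈ C, f l i ^ 2 = k := by
      rw [Finset.sum_congr rfl fun c hc => by rw [one c hc]]; simp [hk]
    rw [e] at this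
    nlinarith [mul_le_mul_of_nonneg_left γ2 (o0 l)]

theorem hi_half {w w' P : ι → ι → ℝ} {x y K : ℝ} {k l : ℕ} (hk : 1 ≤ k) (hl : 1 ≤ l)
    (kK : k ≤ K) (lK : l ≤ K)
    (hP : HiFr w x (k + 1 / (32 * K ^ 4)) P) (v : Fin l → ι → ℝ)
    (hv : ∀ a, ∑ i, v a i = 0) (hv' : ∀ a b, ∑ i, v a i * v b i = if a = b then 1 else 0)
    (hy : ∀ c : Fin l → ℝ, ∑ i, ∑ j, w' i j * (∑ a, c a * v a i - ∑ a, c a * v a j) ^ 2 ≤
      2 * (y * ∑ i, (∑ a, c a * v a i) ^ 2))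
    (hw : ∀ i j, w i j = w j i) (hw' : ∀ i j, w' i j = w' j i) (h0 : ∀ i j, 0 ≤ w i j)
    (h0' : ∀ i j, 0 ≤ w' i j) (h1 : ∀ i j, w i j + w' i j = 1)
    (hn : 2 ^ 27 * K ^ 13 ≤ Fintype.card ι) : (k : ℝ) * l ≤ k * x + l * y := by
  have k1 : (1 : ℝ) ≤ k := by exact_mod_cast hk
  have l1 : (1 : ℝ) ≤ l := by exact_mod_cast hl
  have k0 : (0 : ℝ) < k := by linarith
  have l0 : (0 : ℝ) < l := by linarith
  have K1 : 1 ≤ K := k1.trans kK
  have K0 : 0 < K := by linarith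
  have mono : ∀ a b : ℕ, a ≤ b → K ^ a ≤ K ^ b := fun a b h => pow_le_pow_right₀ K1 h
  obtain ⟨β, hβ⟩ : ∃ β : ℝ, β * (256 * K ^ 5) = 1 := ⟨_, inv_mul_cancel₀ (by positivity)⟩
  obtain ⟨γ, hγ⟩ : ∃ γ : ℝ, γ * (131072 * K ^ 12) = 1 := ⟨_, inv_mul_cancel₀ (by positivity)⟩
  have β0 : 0 < β := (mul_pos_iff_of_pos_right (by positivity)).1 (hβ ▸ one_pos)
  have γ0 : 0 < γ := (mul_pos_iff_of_pos_right (by positivity)).1 (hγ ▸ one_pos)
  have β1 : K * β ≤ 1 / 256 := by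
    nlinarith [mul_le_mul_of_nonneg_left (mono 1 5 (by norm_num)) β0.le]
  have β2 : β ≤ 1 / 256 := by nlinarith
  have γ1 : K * γ ≤ 1 / 2 := by
    nlinarith [mul_le_mul_of_nonneg_left (mono 1 12 (by norm_num)) γ0.le, mul_pos K0 γ0]
  have γ2 : γ ≤ 1 / 2 := by nlinarith
  have e1 : 1 / (32 * K ^ 4) = 8 * K * β := by
    rw [div_eq_iff (by positivity)]
    linarith
  have e2 : 2 * K ^ 2 * γ = β ^ 2 := by
    refine mul_right_cancel₀ (show (256 * K ^ 5) ^ 2 ≠ 0 by positivity) ?_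
    rw [← mul_pow, hβ]
    linarith
  rw [e1] at hP
  have t0 : 0 < k + 8 * K * β := by positivity
  rcases hi_dich (β := β) v hv hv' hy γ0 (by linarith)
    ((mul_le_mul_of_nonneg_right lK γ0.le).trans γ1)
    (by nlinarith [mul_le_mul_of_nonneg_right (pow_le_pow_left₀ l0.le lK 2) γ0.le]) with
    ⟨Q, hQ⟩ | ⟨D, f, hD⟩
  · have hn' : 2 ^ 22 * K ^ 13 ≤ (Fintype.card ι : ℝ) / 32 := by linarith
    obtain ⟨t, ht⟩ : ∃ t, (Fintype.card ι : ℝ) / 32 = t := ⟨_, rfl⟩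
    rw [ht] at hn'
    have m1 := mono 1 13 (by norm_num)
    have t1 : 0 < t := by nlinarith
    have e3 := hP.main hQ h0 h0' h1 t1 (by linarith) (by nlinarith)
    have y0 := hQ.x_nonneg h0' (by positivity)
    have e4 : 16 * (l + γ) / t ≤ γ := by
      rw [div_le_iff₀ t1]
      nlinarith [mul_le_mul_of_nonneg_left hn' γ0.le]
    have e5 : k * γ ≤ l * (8 * K * β) := by
      have f1 : K * γ ≤ K ^ 2 * γ :=
        mul_le_mul_of_nonneg_right (by simpa using mono 1 2 (by norm_num)) γ0.le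
      have f2 := mul_le_mul_of_nonneg_right kK γ0.le
      have f3 := mul_le_mul_of_nonneg_right l1 (mul_pos K0 β0).le
      have f4 := mul_le_mul_of_nonneg_right K1 β0.le
      nlinarith
    have e6 : 16 * ((k + 8 * K * β) * (l + γ)) / t = (k + 8 * K * β) * (16 * (l + γ) / t) := by
      ring
    rw [e6] at e3
    refine le_of_mul_le_mul_left ?_ t0
    linarith [mul_le_mul_of_nonneg_left e4 (mul_pos k0 t0).le, mul_le_mul_of_nonneg_left e5 y0,
      mul_le_mul_of_nonneg_left e3 k0.le]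
  · refine hP.mixed hD k0 hl hw hw' h0 h0' h1 β0 (by linarith) hβ t0 ?_ ?_
    · have f1 : 1 - 2 * β ≤ (1 - β) ^ 2 := by nlinarith
      have f2 : k + 8 * k * β ≤ k + 8 * K * β := by nlinarith
      have f3 := mul_le_mul f1 f2 (by positivity) (sq_nonneg _)
      have f4 : (1 + β) * (l + β ^ 2) ≤ l * ((1 - 2 * β) * (1 + 8 * β)) := by
        nlinarith [mul_pos l0 β0, mul_le_mul_of_nonneg_left β2 (mul_pos l0 β0).le,
          mul_le_mul_of_nonneg_left l1 (sq_nonneg β), mul_le_mul_of_nonneg_left β2 (sq_nonneg β)]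
      linarith [mul_le_mul_of_nonneg_left f3 l0.le, mul_le_mul_of_nonneg_left f4 k0.le]
    · have f1 : (k : ℝ) * l ≤ K ^ 2 := by
        rw [sq]; exact mul_le_mul kK lK l0.le K0.le
      have f2 := mul_le_mul_of_nonneg_right f1 (show 0 ≤ 1 + 256 * K ^ 5 by positivity)
      nlinarith [mono 1 13 (by norm_num), mono 2 13 (by norm_num), mono 7 13 (by norm_num)]

theorem hi_main {w w' : ι → ι → ℝ} {x y K : ℝ} {k l : ℕ} (hk : 1 ≤ k) (hl : 1 ≤ l)
    (kK : k ≤ K) (lK : l ≤ K) (u : Fin k → ι → ℝ) (v : Fin l → ι → ℝ)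
    (hu : ∀ a, ∑ i, u a i = 0) (hu' : ∀ a b, ∑ i, u a i * u b i = if a = b then 1 else 0)
    (hx : ∀ c : Fin k → ℝ, ∑ i, ∑ j, w i j * (∑ a, c a * u a i - ∑ a, c a * u a j) ^ 2 ≤
      2 * (x * ∑ i, (∑ a, c a * u a i) ^ 2))
    (hv : ∀ a, ∑ i, v a i = 0) (hv' : ∀ a b, ∑ i, v a i * v b i = if a = b then 1 else 0)
    (hy : ∀ c : Fin l → ℝ, ∑ i, ∑ j, w' i j * (∑ a, c a * v a i - ∑ a, c a * v a j) ^ 2 ≤
      2 * (y * ∑ i, (∑ a, c a * v a i) ^ 2))
    (hw : ∀ i j, w i j = w j i) (hw' : ∀ i j, w' i j = w' j i) (h0 : ∀ i j, 0 ≤ w i j)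
    (h0' : ∀ i j, 0 ≤ w' i j) (h1 : ∀ i j, w i j + w' i j = 1)
    (hn : 2 ^ 27 * K ^ 13 ≤ Fintype.card ι) : (k : ℝ) * l ≤ k * x + l * y := by
  have k1 : (1 : ℝ) ≤ k := by exact_mod_cast hk
  have K1 : 1 ≤ K := k1.trans kK
  have mono : ∀ a b : ℕ, a ≤ b → K ^ a ≤ K ^ b := fun a b h => pow_le_pow_right₀ K1 h
  have K0 : 0 < 32 * K ^ 4 := by positivity
  have g0 : 0 < 1 / (32 * K ^ 4) := by positivity
  have g1 : 1 / (32 * K ^ 4) ≤ 1 := by rw [div_le_one K0]; nlinarith [mono 0 4 (by norm_num)]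
  have g2 : ∀ j : ℕ, j ≤ K → j * (1 / (32 * K ^ 4)) ≤ 1 / 2 := fun j hj => by
    rw [mul_one_div, div_le_iff₀ K0]; nlinarith [mono 1 4 (by norm_num)]
  have g3 : ∀ j : ℕ, j ≤ K → 2 * (j : ℝ) ^ 2 * (1 / (32 * K ^ 4)) ≤ (1 / (4 * K)) ^ 2 :=
    fun j hj => by
      have : (1 / (4 * K)) ^ 2 = 2 * K ^ 2 * (1 / (32 * K ^ 4)) := by field_simp; norm_num
      rw [this]
      gcongr
  rcases hi_dich u hu hu' hx g0 g1 (g2 k kK) (g3 k kK) with ⟨P, hP⟩ | ⟨C, f, hC⟩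
  · exact hi_half hk hl kK lK hP v hv hv' hy hw hw' h0 h0' h1 hn
  rcases hi_dich v hv hv' hy g0 g1 (g2 l lK) (g3 l lK) with ⟨Q, hQ⟩ | ⟨D, g, hD⟩
  · rw [add_comm, mul_comm]
    exact hi_half hl hk lK kK hQ u hu hu' hx hw' hw h0' h0 (fun i j => by rw [add_comm, h1]) hn
  · exact hC.both hD hk hl kK lK (by positivity) (le_of_eq (by field_simp)) hw hw' h0 h0' h1
      (by nlinarith [mono 2 13 (by norm_num)])

end Pool.Agent.Lib.MP_3a2c26_co
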