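import Mathlib

set_option autoImplicit false

namespace Pool.Agent.Lib.MP_3a2c26_co.KS

open Finset

/-- The final piece of real algebra. -/
theorem kf_alg (N τ σ δ' y' da db qa qb μ y E2 E4 : ℝ) (hN : 0 ≤ N) (hτ : τ ≤ 1) (hσ : σ ≤ 1)
    (hδ' : 0 ≤ δ') (hy' : 0 ≤ y') (hda : da = 0 ∨ 1 ≤ da) (hdb : db = 0 ∨ 1 ≤ db)
    (hqa : 1 + σ ≤ (4 + N) * qa) (hqb : 1 + σ ≤ -((4 + N) * qb)) (hqa0 : 0 ≤ qa) (hqb0 : qb ≤ 0)
    (e1 : μ = 3 + τ + N - δ') (e2 : μ * τ = 1 + τ + E2)
    (e3 : y = 1 - σ + y' + (da * qa - db * qb)) (e4 : y * σ = 3 * σ - 1 + E4)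
    (loc : E2 - N * τ - E4 ≤ N * (1 - σ - τ) + δ' + y' + da + db) :
    1 ≤ 4 + N - μ + y := by
  by_contra hc
  push Not at hc
  have hda0 : 0 ≤ da := by rcases hda with h | h <;> linarith
  have hdb0 : 0 ≤ db := by rcases hdb with h | h <;> linarith
  have za : 0 ≤ da * qa := mul_nonneg hda0 hqa0
  have zb : 0 ≤ -(db * qb) := by nlinarith [mul_nonneg hdb0 (neg_nonneg.2 hqb0)]
  have hδ : 0 ≤ 1 - τ + δ' := by linarith
  have hy : 0 ≤ y := by linarith
  have hs : 1 + (da * qa - db * qb) + y' + δ' < σ + τ := by linarith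
  have ka : da ≤ (3 + N) * (da * qa) := by
    rcases hda with h | h
    · rw [h]; simp
    · have h1 : qa ≤ da * qa := by nlinarith
      have h2 : 1 ≤ (3 + N) * qa := by linarith
      nlinarith
  have kb : db ≤ (3 + N) * (-(db * qb)) := by
    rcases hdb with h | h
    · rw [h]; simp
    · have h1 : -qb ≤ -(db * qb) := by nlinarith
      have h2 : 1 ≤ (3 + N) * (-qb) := by linarith
      nlinarith
  have h1 : (1 - τ + δ') * τ ≤ 1 - τ + δ' := by nlinarith
  have h2 : y * σ ≤ y := by nlinarith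
  have h3 : (3 + N) * (1 + (da * qa - db * qb) + y' + δ') < (3 + N) * (σ + τ) :=
    mul_lt_mul_of_pos_left hs (by linarith)
  have h4 : 0 ≤ N * y' := mul_nonneg hN hy'
  have h5 : 0 ≤ N * δ' := mul_nonneg hN hδ'
  have h6 : E2 = (4 + N - (1 - τ + δ')) * τ - 1 - τ := by rw [← sub_eq_zero] at e1 e2 ⊢; nlinarith
  nlinarith

theorem sum01 {V : Type*} (S : Finset V) (f : V → ℝ) (hf : ∀ k ∈ S, f k = 0 ∨ f k = 1) :
    ∑ k ∈ S, f k = 0 ∨ 1 ≤ ∑ k ∈ S, f k := by
  by_cases h : ∀ k ∈ S, f k = 0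
  · exact Or.inl (Finset.sum_eq_zero h)
  · push Not at h
    obtain ⟨k, hk, h0⟩ := h
    right
    have h1 : f k = 1 := (hf k hk).resolve_left h0
    rw [← h1]
    exact Finset.single_le_sum (f := f) (fun j hj => by rcases hf j hj with h | h <;> simp [h]) hk

theorem sum_four {V : Type*} [Fintype V] [DecidableEq V] (u v a b : V) (huv : u ≠ v)
    (hua : u ≠ a) (hub : u ≠ b) (hva : v ≠ a) (hvb : v ≠ b) (hab : a ≠ b) (f : V → ℝ) :
    ∑ k, f k = f u + f v + f a + f b + ∑ k ∈ (({u, v, a, b} : Finset V)ᶜ), f k := by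
  rw [← Finset.sum_add_sum_compl ({u, v, a, b} : Finset V) f]
  rw [Finset.sum_insert (by simp [huv, hua, hub]), Finset.sum_insert (by simp [hva, hvb]),
    Finset.sum_pair hab]
  ring

/-- The core inequality for an induced path `a - u - v - b`. -/
theorem kf_core {V : Type*} [Fintype V] [DecidableEq V] (h : V → V → ℝ)
    (h01 : ∀ i j, h i j = 0 ∨ h i j = 1) (hs : ∀ i j, h i j = h j i) (hd : ∀ i, h i i = 0)
    (u v a b : V) (huv : h u v = 1) (hua : h u a = 1) (hva : h v a = 0) (hvb : h v b = 1)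
    (hub : h u b = 0) (hab : h a b = 0) (t q : V → ℝ) (μ y : ℝ)
    (ht : ∀ k, 0 ≤ t k ∧ t k ≤ 1) (htu : t u = 1) (htv : t v = 0)
    (hq : ∀ k, q b ≤ q k ∧ q k ≤ q a) (hqab : q a - q b = 1)
    (hqR : ∀ k, h u k = 0 → h v k = 0 → q k = 0) (hq0 : ∑ k, q k = 0)
    (hqa0 : 0 ≤ q a) (hqb0 : q b ≤ 0)
    (E1 : ∑ k, h u k * (t u - t k) - ∑ k, h v k * (t v - t k) = μ * (t u - t v))
    (E2 : ∑ k, h b k * (t b - t k) - ∑ k, h a k * (t a - t k) = μ * (t b - t a))
    (E3 : ∑ k, h a k * (q a - q k) - ∑ k, h b k * (q b - q k) = y * (q a - q b))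
    (E4 : ∑ k, h u k * (q u - q k) - ∑ k, h v k * (q v - q k) = y * (q u - q v)) :
    1 ≤ (∑ k, (h u k + h v k - h u k * h v k)) - μ + y := by
  have nuv : u ≠ v := by rintro rfl; rw [hd] at huv; exact zero_ne_one huv
  have nua : u ≠ a := by rintro rfl; rw [hd] at hua; exact zero_ne_one hua
  have nvb : v ≠ b := by rintro rfl; rw [hd] at hvb; exact zero_ne_one hvb
  have nub : u ≠ b := by rintro rfl; rw [hs, hab] at hua; exact zero_ne_one hua
  have nva : v ≠ a := by rintro rfl; rw [hab] at hvb; exact zero_ne_one hvb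
  have nab : a ≠ b := by rintro rfl; rw [hub] at hua; exact zero_ne_one hua
  have hvu : h v u = 1 := by rw [hs, huv]
  have hau : h a u = 1 := by rw [hs, hua]
  have hav : h a v = 0 := by rw [hs, hva]
  have hbv : h b v = 1 := by rw [hs, hvb]
  have hbu : h b u = 0 := by rw [hs, hub]
  have hba : h b a = 0 := by rw [hs, hab]
  have S4 := sum_four u v a b nuv nua nub nva nvb nab
  set S : Finset V := ({u, v, a, b} : Finset V)ᶜ with hS
  set ω : V → ℝ := fun k => h u k + h v k - h u k * h v k with hω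
  rw [← Finset.sum_sub_distrib] at E1 E2 E3 E4
  rw [S4] at E1 E2 E3 E4 hq0
  rw [S4]
  simp only [hd, huv, hua, hva, hvb, hub, hab, hvu, hau, hav, hbv, hbu, hba, htu, htv]
    at E1 E2 E3 E4 ⊢
  have key := kf_alg (∑ k ∈ S, ω k) (t b - t a) (q u - q v)
    (∑ k ∈ S, (ω k - (h u k * (1 - t k) - h v k * (0 - t k))))
    (∑ k ∈ S, ω k * (h a k * (q a - q k) - h b k * (q b - q k)))
    (∑ k ∈ S, (1 - ω k) * h a k) (∑ k ∈ S, (1 - ω k) * h b k) (q a) (q b) μ y
    (∑ k ∈ S, (h b k * (t b - t k) - h a k * (t a - t k)))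
    (∑ k ∈ S, (h u k * (q u - q k) - h v k * (q v - q k)))
    (Finset.sum_nonneg fun k _ => by
      simp only [hω]; rcases h01 u k with h1 | h1 <;> rcases h01 v k with h2 | h2 <;>
        simp [h1, h2])
    (by linarith [(ht a).1, (ht b).2]) (by linarith [(hq u).2, (hq v).1])
    (Finset.sum_nonneg fun k _ => by
      simp only [hω]; rcases h01 u k with h1 | h1 <;> rcases h01 v k with h2 | h2 <;>
        rw [h1, h2] <;> linarith [(ht k).1, (ht k).2])
    (Finset.sum_nonneg fun k _ => by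
      simp only [hω]
      rcases h01 u k with h1 | h1 <;> rcases h01 v k with h2 | h2 <;>
        rcases h01 a k with h3 | h3 <;> rcases h01 b k with h4 | h4 <;>
        rw [h1, h2, h3, h4] <;> linarith [(hq k).1, (hq k).2])
    (sum01 _ _ fun k _ => by
      simp only [hω]
      rcases h01 u k with h1 | h1 <;> rcases h01 v k with h2 | h2 <;>
        rcases h01 a k with h3 | h3 <;> simp [h1, h2, h3])
    (sum01 _ _ fun k _ => by
      simp only [hω]
      rcases h01 u k with h1 | h1 <;> rcases h01 v k with h2 | h2 <;>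
        rcases h01 b k with h3 | h3 <;> simp [h1, h2, h3])
    (by
      have : 0 ≤ ∑ k ∈ S, (ω k * q a - q k) := Finset.sum_nonneg fun k _ => by
        have := hqR k
        simp only [hω]
        rcases h01 u k with h1 | h1 <;> rcases h01 v k with h2 | h2 <;> rw [h1, h2]
        · rw [this h1 h2]; simp
        all_goals linarith [(hq k).2]
      rw [Finset.sum_sub_distrib, ← Finset.sum_mul] at this
      linarith [(hq u).2])
    (by
      have : 0 ≤ ∑ k ∈ S, (q k - ω k * q b) := Finset.sum_nonneg fun k _ => by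
        have := hqR k
        simp only [hω]
        rcases h01 u k with h1 | h1 <;> rcases h01 v k with h2 | h2 <;> rw [h1, h2]
        · rw [this h1 h2]; simp
        all_goals linarith [(hq k).1]
      rw [Finset.sum_sub_distrib, ← Finset.sum_mul] at this
      linarith [(hq v).1])
    hqa0 hqb0
    (by rw [Finset.sum_sub_distrib (f := ω)]; linarith)
    (by linarith)
    (by
      have : ∑ k ∈ S, (h a k * (q a - q k) - h b k * (q b - q k)) =
          ∑ k ∈ S, ω k * (h a k * (q a - q k) - h b k * (q b - q k)) +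
            ((∑ k ∈ S, (1 - ω k) * h a k) * q a - (∑ k ∈ S, (1 - ω k) * h b k) * q b) := by
        rw [Finset.sum_mul, Finset.sum_mul, ← Finset.sum_sub_distrib, ← Finset.sum_add_distrib]
        refine Finset.sum_congr rfl fun k _ => ?_
        have := hqR k
        simp only [hω]
        rcases h01 u k with h1 | h1 <;> rcases h01 v k with h2 | h2 <;> rw [h1, h2]
        · rw [this h1 h2]; ring
        all_goals ring
      rw [hqab] at E3
      linarith)
    (by linarith)
    (by
      rw [Finset.sum_mul, Finset.sum_mul, ← Finset.sum_sub_distrib, ← Finset.sum_sub_distrib,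
        ← Finset.sum_add_distrib, ← Finset.sum_add_distrib, ← Finset.sum_add_distrib,
        ← Finset.sum_add_distrib]
      refine Finset.sum_le_sum fun k _ => ?_
      simp only [hω]
      rcases h01 u k with h1 | h1 <;> rcases h01 v k with h2 | h2 <;>
        rcases h01 a k with h3 | h3 <;> rcases h01 b k with h4 | h4 <;>
        rw [h1, h2, h3, h4] <;>
        linarith [(hq k).1, (hq k).2, (ht k).1, (ht k).2, (hq u).1, (hq u).2, (hq v).1, (hq v).2,
          (ht a).1, (ht a).2, (ht b).1, (ht b).2])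
  simp only [hω] at key
  linarith

end Pool.Agent.Lib.MP_3a2c26_co.KS
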