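import Pool.Agent.Lib.MP_3a2c26_co.KFMain

set_option autoImplicit false

namespace Pool.Agent.Lib.MP_3a2c26_co.KS

open Finset Matrix

variable {n : ℕ}

/-- A vector in the span of the low eigenvectors that satisfies few linear conditions. -/
theorem exists_low (A : Matrix (Fin n) (Fin n) ℝ) (hA : A.IsHermitian)
    (j : Fin (Fintype.card (Fin n))) {ι : Type} [Fintype ι] (ψ : ι → Fin n → ℝ)
    (hc : Fintype.card ι + j.val < n) :
    ∃ g : Fin n → ℝ, g ≠ 0 ∧ (∀ i, ψ i ⬝ᵥ g = 0) ∧
      g ⬝ᵥ A *ᵥ g ≤ hA.eigenvalues₀ j * (g ⬝ᵥ g) := by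
  classical
  set e := (Fintype.equivOfCardEq (Fintype.card_fin (Fintype.card (Fin n))) :
    Fin (Fintype.card (Fin n)) ≃ Fin n) with he
  set b : Fin (Fintype.card (Fin n)) → Fin n → ℝ := fun m => (hA.eigenvectorBasis (e m)).ofLp
    with hb
  have hev : ∀ m, hA.eigenvalues (e m) = hA.eigenvalues₀ m := by
    intro m; simp [Matrix.IsHermitian.eigenvalues, he]
  have hAb : ∀ m, A *ᵥ b m = hA.eigenvalues₀ m • b m := by
    intro m; rw [← hev]; exact hA.mulVec_eigenvectorBasis (e m)
  have hon : ∀ m m', b m ⬝ᵥ b m' = if m = m' then 1 else 0 := by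
    intro m m'
    have := orthonormal_iff_ite.1 hA.eigenvectorBasis.orthonormal (e m') (e m)
    rw [EuclideanSpace.inner_eq_star_dotProduct] at this
    simp only [star_trivial, EmbeddingLike.apply_eq_iff_eq] at this
    rw [hb]
    simp only [this, eq_comm]
  set T := {m // m ∈ Finset.Ici j} with hT
  have hcT : Fintype.card T = n - j.val := by
    have := Fintype.card_fin n
    rw [Fintype.card_coe, Fin.card_Ici]
    omega
  have hon' : ∀ m m' : T, b m.1 ⬝ᵥ b m'.1 = if m = m' then 1 else 0 := fun m m' => by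
    rw [hon]; simp only [Subtype.val_inj]
  have hker := LinearMap.ker_ne_bot_of_finrank_lt
    (f := Matrix.mulVecLin (Matrix.of fun (i : ι) (m : T) => ψ i ⬝ᵥ b m.1))
    (by rw [Module.finrank_fintype_fun_eq_card, Module.finrank_fintype_fun_eq_card, hcT]; omega)
  obtain ⟨c, hc1, hc0⟩ := Submodule.exists_mem_ne_zero_of_ne_bot hker
  have hgg : (∑ m : T, c m • b m.1) ⬝ᵥ (∑ m : T, c m • b m.1) = ∑ m, c m * c m := by
    rw [sum_dotProduct]
    refine Finset.sum_congr rfl fun m _ => ?_
    rw [dotProduct_sum, Finset.sum_eq_single m (fun x _ hx => by simp [hon', hx.symm]) (by simp)]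
    simp [hon']
  have hgA : (∑ m : T, c m • b m.1) ⬝ᵥ A *ᵥ (∑ m : T, c m • b m.1) =
      ∑ m : T, hA.eigenvalues₀ m.1 * (c m * c m) := by
    rw [mulVec_sum, dotProduct_sum]
    refine Finset.sum_congr rfl fun m _ => ?_
    rw [mulVec_smul, hAb, sum_dotProduct,
      Finset.sum_eq_single m (fun x _ hx => by simp [hon', hx]) (by simp)]
    simp only [smul_dotProduct, dotProduct_smul, hon', if_true, smul_eq_mul]
    ring
  refine ⟨∑ m : T, c m • b m.1, fun h0 => hc0 ?_, fun i => ?_, ?_⟩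
  · rw [h0, zero_dotProduct] at hgg
    exact dotProduct_self_eq_zero.1 hgg.symm
  · have := congrFun (LinearMap.mem_ker.1 hc1) i
    simp only [mulVecLin_apply, mulVec, Pi.zero_apply] at this
    rw [dotProduct_sum, ← this, dotProduct]
    refine Finset.sum_congr rfl fun m _ => ?_
    simp [mul_comm]
  · rw [hgg, hgA, Finset.mul_sum]
    exact Finset.sum_le_sum fun m _ => mul_le_mul_of_nonneg_right
      (hA.eigenvalues₀_antitone (Finset.mem_Ici.1 m.2)) (mul_self_nonneg _)

theorem compl_form (h : Fin n → Fin n → ℝ) (hs : ∀ i j, h i j = h j i) (p : Fin n → ℝ)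
    (hp : ∑ i, p i = 0) :
    p ⬝ᵥ lap (fun i j => 1 - h i j) *ᵥ p = n * (p ⬝ᵥ p) - p ⬝ᵥ lap h *ᵥ p := by
  have h1 := lap_form (fun i j => 1 - h i j) (fun i j => by rw [hs]) p p
  have h2 := lap_form h hs p p
  have h3 := full_form p hp
  have hN : p ⬝ᵥ p = ∑ i, p i ^ 2 := Finset.sum_congr rfl fun i _ => (sq (p i)).symm
  have e1 : ∑ i, ∑ j, (1 - h i j) * ((p i - p j) * (p i - p j)) =
      ∑ i, ∑ j, (p i - p j) ^ 2 - ∑ i, ∑ j, h i j * ((p i - p j) * (p i - p j)) := by
    rw [← Finset.sum_sub_distrib]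
    refine Finset.sum_congr rfl fun i _ => ?_
    rw [← Finset.sum_sub_distrib]
    exact Finset.sum_congr rfl fun j _ => by ring
  rw [hN]
  linarith

/-- The pointwise bound for a `0/1` adjacency function. -/
theorem ladder_fun (h : Fin n → Fin n → ℝ) (h01 : ∀ i j, h i j = 0 ∨ h i j = 1)
    (hs : ∀ i j, h i j = h j i) (hd : ∀ i, h i i = 0) (hH : (lap h).IsHermitian)
    (hG : (lap fun i j => 1 - h i j).IsHermitian) (k : ℕ) (i j : Fin (Fintype.card (Fin n)))
    (hi : i.val + 2 = n) (hj : j.val + k + 1 = n) :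
    min 1 (k - hG.eigenvalues₀ i) ≤ hH.eigenvalues₀ j := by
  have h0 : ∀ i j, 0 ≤ h i j := fun i j => by rcases h01 i j with h1 | h1 <;> simp [h1]
  obtain ⟨p, hp0, hp1, hp2⟩ := exists_low _ hG i (fun _ : Unit => fun _ => (1 : ℝ))
    (by rw [Fintype.card_unit]; omega)
  have hone : ∀ g : Fin n → ℝ, (fun _ => (1 : ℝ)) ⬝ᵥ g = ∑ k, g k := fun g => by
    simp [dotProduct]
  have hp : ∑ i, p i = 0 := by rw [← hone]; exact hp1 ()
  obtain ⟨μ, R, φ, hμ, hδ, key, star⟩ := kf_struct h h01 hs hd p hp0 hp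
  have hx : (n : ℝ) - μ ≤ hG.eigenvalues₀ i := by
    rw [compl_form h hs p hp] at hp2
    exact le_of_mul_le_mul_right (by linarith) (dot_self_pos p hp0)
  rcases lt_trichotomy (R.card + 1) k with hlt | heq | hgt
  · obtain ⟨g, hg0, hg1, hg2⟩ := exists_low _ hH j
      (fun o : Option (Option R) => match o with
        | none => φ
        | some none => fun _ => 1
        | some (some r) => Pi.single r.1 1)
      (by rw [Fintype.card_option, Fintype.card_option, Fintype.card_coe]; omega)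
    have := star g (fun r hr => by simpa using hg1 (some (some ⟨r, hr⟩)))
      (by rw [← hone]; exact hg1 (some none)) (hg1 none)
    exact (min_le_left _ _).trans
      (le_of_mul_le_mul_right (by linarith) (dot_self_pos g hg0))
  · obtain ⟨g, hg0, hg1, hg2⟩ := exists_low _ hH j
      (fun o : Option R => match o with
        | none => fun _ => 1
        | some r => Pi.single r.1 1)
      (by rw [Fintype.card_option, Fintype.card_coe]; omega)
    have := key g (fun r hr => by simpa using hg1 (some ⟨r, hr⟩))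
      (by rw [← hone]; exact hg1 none)
    have h1 : 1 - ((n : ℝ) - R.card - μ) ≤ hH.eigenvalues₀ j :=
      le_of_mul_le_mul_right (by linarith) (dot_self_pos g hg0)
    have h2 : (k : ℝ) = R.card + 1 := by exact_mod_cast heq.symm
    exact (min_le_right _ _).trans (by linarith)
  · obtain ⟨g, hg0, -, hg2⟩ := exists_low _ hH j (fun _ : Empty => fun _ => (1 : ℝ))
      (by rw [Fintype.card_empty]; omega)
    have h1 : 0 ≤ hH.eigenvalues₀ j :=
      le_of_mul_le_mul_right (by linarith [lap_nonneg h hs h0 g]) (dot_self_pos g hg0)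
    have h2 : (k : ℝ) ≤ R.card := by exact_mod_cast Nat.le_of_lt_succ hgt
    exact (min_le_right _ _).trans (by linarith)

theorem lap_ext (M : Matrix (Fin n) (Fin n) ℝ) (w : Fin n → Fin n → ℝ)
    (h : ∀ x : Fin n → ℝ, ∀ i, (M *ᵥ x) i = ∑ j, w i j * (x i - x j)) : M = lap w := by
  refine Matrix.ext_of_mulVec_single fun i => ?_
  ext j
  rw [h, lap_mulVec]

theorem lapMatrix_eq (G : SimpleGraph (Fin n)) [DecidableRel G.Adj] (w : Fin n → Fin n → ℝ)
    (hw : ∀ i j, i ≠ j → w i j = if G.Adj i j then 1 else 0) : G.lapMatrix ℝ = lap w := by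
  refine lap_ext _ _ fun x i => ?_
  rw [SimpleGraph.lapMatrix_mulVec_apply, SimpleGraph.degree, SimpleGraph.neighborFinset_eq_filter,
    Finset.card_filter, Finset.sum_filter]
  push_cast
  rw [Finset.sum_mul, ← Finset.sum_sub_distrib]
  refine Finset.sum_congr rfl fun j _ => ?_
  by_cases hij : i = j
  · subst hij; simp
  · rw [hw i j hij]; split_ifs <;> simp

/-- The pointwise bound for a simple graph and its complement. -/
theorem ladder (G : SimpleGraph (Fin n)) [DecidableRel G.Adj] (k : ℕ)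
    (i j : Fin (Fintype.card (Fin n))) (hi : i.val + 2 = n) (hj : j.val + k + 1 = n) :
    min 1 (k - (G.isHermitian_lapMatrix ℝ).eigenvalues₀ i) ≤
      (Gᶜ.isHermitian_lapMatrix ℝ).eigenvalues₀ j := by
  set h : Fin n → Fin n → ℝ := fun a b => if Gᶜ.Adj a b then 1 else 0 with hh
  have e1 : Gᶜ.lapMatrix ℝ = lap h := lapMatrix_eq _ _ fun _ _ _ => rfl
  have e2 : G.lapMatrix ℝ = lap fun a b => 1 - h a b := lapMatrix_eq _ _ fun a b hab => by
    simp only [hh, SimpleGraph.compl_adj]
    by_cases h1 : G.Adj a b <;> simp [h1, hab]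
  have hs : ∀ a b, h a b = h b a := fun a b => by simp only [hh, SimpleGraph.adj_comm]
  have := ladder_fun h (fun a b => by simp only [hh]; split_ifs <;> simp) hs
    (fun a => by simp [hh]) (e1 ▸ Gᶜ.isHermitian_lapMatrix ℝ) (e2 ▸ G.isHermitian_lapMatrix ℝ)
    k i j hi hj
  have c : ∀ (A B : Matrix (Fin n) (Fin n) ℝ) (hA : A.IsHermitian) (hB : B.IsHermitian), A = B →
      hA.eigenvalues₀ = hB.eigenvalues₀ := by
    rintro A B hA hB rfl; rfl
  rw [c _ _ (G.isHermitian_lapMatrix ℝ) _ e2, c _ _ (Gᶜ.isHermitian_lapMatrix ℝ) _ e1]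
  exact this

end Pool.Agent.Lib.MP_3a2c26_co.KS
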