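import Pool.Agent.Lib.MP_3a2c26_co.KFPeel

set_option autoImplicit false

namespace Pool.Agent.Lib.MP_3a2c26_co.KS

open Finset Matrix

variable {n : ℕ}

/-- The structure behind the bounds: a set `R` of vertices and one more linear condition. -/
theorem kf_struct (h : Fin n → Fin n → ℝ) (h01 : ∀ i j, h i j = 0 ∨ h i j = 1)
    (hs : ∀ i j, h i j = h j i) (hd : ∀ i, h i i = 0) (p : Fin n → ℝ) (hp0 : p ≠ 0)
    (hp : ∑ i, p i = 0) :
    ∃ (μ : ℝ) (R : Finset (Fin n)) (φ : Fin n → ℝ), p ⬝ᵥ lap h *ᵥ p ≤ μ * (p ⬝ᵥ p) ∧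
      0 ≤ (n : ℝ) - R.card - μ ∧
      (∀ g : Fin n → ℝ, (∀ k ∈ R, g k = 0) → ∑ k, g k = 0 →
        (1 - ((n : ℝ) - R.card - μ)) * (g ⬝ᵥ g) ≤ g ⬝ᵥ lap h *ᵥ g) ∧
      ∀ g : Fin n → ℝ, (∀ k ∈ R, g k = 0) → ∑ k, g k = 0 → φ ⬝ᵥ g = 0 →
        g ⬝ᵥ g ≤ g ⬝ᵥ lap h *ᵥ g := by
  have h0 : ∀ i j, 0 ≤ h i j := fun i j => by rcases h01 i j with h1 | h1 <;> simp [h1]
  let Z : Submodule ℝ (Fin n → ℝ) :=
    { carrier := {g | ∑ k, g k = 0}
      add_mem' := fun {x z} hx hz => by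
        have hx' : ∑ k, x k = 0 := hx
        have hz' : ∑ k, z k = 0 := hz
        simp [Finset.sum_add_distrib, hx', hz']
      zero_mem' := by simp
      smul_mem' := fun c {x} hx => by
        have hx' : ∑ k, x k = 0 := hx
        simp [← Finset.mul_sum, hx'] }
  obtain ⟨q, hqZ, hq0, y, heq, hlow⟩ := exists_minimiser (-lap h)
    (fun x z => by rw [neg_mulVec, neg_mulVec, dotProduct_neg, dotProduct_neg, lap_symm h hs])
    Z p hp hp0
  have hpμ : p ⬝ᵥ lap h *ᵥ p ≤ -y * (p ⬝ᵥ p) := by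
    have := hlow p hp
    rw [neg_mulVec, dotProduct_neg] at this
    linarith
  obtain ⟨u, v, hq, hqu, hqv⟩ := exists_max_min q hqZ hq0
  set c : ℝ := (q u - q v)⁻¹ with hc
  have hcp : 0 < c := inv_pos.2 (by linarith)
  have hc1 : c * q u - c * q v = 1 := by rw [← mul_sub, hc, inv_mul_cancel₀ (by linarith)]
  set t : Fin n → ℝ := fun k => c * q k + -(c * q v) with ht
  have ht01 : ∀ k, 0 ≤ t k ∧ t k ≤ 1 := fun k => by
    have h1 := mul_le_mul_of_nonneg_left (hq k).1 hcp.le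
    have h2 := mul_le_mul_of_nonneg_left (hq k).2 hcp.le
    simp only [ht]
    constructor <;> linarith
  have htu : t u = 1 := by simp only [ht]; linarith
  have htv : t v = 0 := by simp only [ht]; linarith
  have huv : u ≠ v := by rintro rfl; linarith
  have E : ∀ i j, ∑ k, h i k * (t i - t k) - ∑ k, h j k * (t j - t k) = -y * (t i - t j) := by
    intro i j
    refine diff_eq h q (-y) i j ?_ c _
    have := heq (Pi.single i 1 - Pi.single j 1) (by
      show ∑ k, (Pi.single i 1 - Pi.single j 1 : Fin n → ℝ) k = 0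
      simp [Finset.sum_sub_distrib])
    rw [neg_mulVec, dotProduct_neg] at this
    linarith
  set R : Finset (Fin n) := univ.filter fun k => k ≠ u ∧ k ≠ v ∧ h u k = 0 ∧ h v k = 0 with hR
  have hRm : ∀ k, k ∈ R ↔ k ≠ u ∧ k ≠ v ∧ h u k = 0 ∧ h v k = 0 := fun k => by simp [hR]
  have hcard : (n : ℝ) - R.card = ∑ k, (1 - if k ∈ R then 1 else 0) := by
    rw [Finset.sum_sub_distrib, Finset.sum_boole]
    simp
  have hμ : -y = ∑ k, (h u k * (1 - t k) - h v k * (0 - t k)) := by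
    have := E u v
    rw [htu, htv, ← Finset.sum_sub_distrib] at this
    linarith
  have hterm : ∀ k, 0 ≤ (1 - if k ∈ R then 1 else 0) - (h u k * (1 - t k) - h v k * (0 - t k)) := by
    intro k
    by_cases hk : k ∈ R
    · rw [if_pos hk, ((hRm k).1 hk).2.2.1, ((hRm k).1 hk).2.2.2]; simp
    · rw [if_neg hk]
      rcases h01 u k with h1 | h1 <;> rcases h01 v k with h2 | h2 <;> rw [h1, h2] <;>
        linarith [(ht01 k).1, (ht01 k).2]
  have hδe : (n : ℝ) - R.card - -y =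
      ∑ k, ((1 - if k ∈ R then 1 else 0) - (h u k * (1 - t k) - h v k * (0 - t k))) := by
    rw [Finset.sum_sub_distrib, ← hcard, ← hμ]
  have hδ : 0 ≤ (n : ℝ) - R.card - -y := by
    rw [hδe]; exact Finset.sum_nonneg fun k _ => hterm k
  have key : ∀ g : Fin n → ℝ, (∀ k ∈ R, g k = 0) → ∑ k, g k = 0 →
      (1 - ((n : ℝ) - R.card - -y)) * (g ⬝ᵥ g) ≤ g ⬝ᵥ lap h *ᵥ g := by
    intro g hgR hg0
    rcases h01 u v with h1 | h1
    · have h2 : 1 ≤ (n : ℝ) - R.card - -y := by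
        rw [hδe]
        refine le_trans ?_ (Finset.single_le_sum (fun k _ => hterm k) (mem_univ u))
        rw [if_neg (fun hh => ((hRm u).1 hh).1 rfl), hd, hs v u, h1]
        simp
      exact le_trans (mul_nonpos_of_nonpos_of_nonneg (by linarith) (dot_self_nonneg g))
        (lap_nonneg h hs h0 g)
    · have hRm' : ∀ k, k ∈ R ↔ h u k = 0 ∧ h v k = 0 := fun k => by
        rw [hRm]
        refine ⟨fun hh => hh.2.2, fun hh => ⟨?_, ?_, hh⟩⟩
        · rintro rfl; rw [hs v k, h1] at hh; exact one_ne_zero hh.2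
        · rintro rfl; rw [h1] at hh; exact one_ne_zero hh.1
      have h2 : (n : ℝ) - R.card = ∑ k, (h u k + h v k - h u k * h v k) := by
        rw [hcard]
        refine Finset.sum_congr rfl fun k _ => ?_
        simp only [hRm']
        rcases h01 u k with h3 | h3 <;> rcases h01 v k with h4 | h4 <;> simp [h3, h4]
      rw [h2] at hδ ⊢
      exact kf_key_adj h h01 hs hd u v h1 t (-y) ht01 htu htv E hδ g
        (fun k h3 h4 => hgR k ((hRm' k).2 ⟨h3, h4⟩)) hg0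
  refine ⟨-y, R, fun k => if k = u then 1 else if k = v then 0 else h u k, hpμ, hδ, key,
    fun g hgR hg0 hgφ => two_stars h h01 hs u v huv g
      (fun k k1 k2 k3 k4 => hgR k ((hRm k).2 ⟨k1, k2, k3, k4⟩)) hg0 ?_⟩
  rw [dotProduct, ← Finset.sum_add_sum_compl ({u, v} : Finset (Fin n)),
    Finset.sum_pair huv] at hgφ
  simp only [if_true, if_neg huv.symm, one_mul, zero_mul, add_zero] at hgφ
  rw [← hgφ]
  congr 1
  refine Finset.sum_congr rfl fun k hk => ?_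
  have hk' : k ≠ u ∧ k ≠ v := by simpa using hk
  rw [if_neg hk'.1, if_neg hk'.2]

/-- The bound for a simple graph with adjacency function `h` and an orthogonal projection `Q`. -/
theorem kf_simple (h : Fin n → Fin n → ℝ) (h01 : ∀ i j, h i j = 0 ∨ h i j = 1)
    (hs : ∀ i j, h i j = h j i) (hd : ∀ i, h i i = 0) (Q : Matrix (Fin n) (Fin n) ℝ)
    (hQ : Qᵀ = Q) (hQQ : Q * Q = Q) (hQ1 : Q *ᵥ (fun _ => 1) = 0) (p : Fin n → ℝ) (hp0 : p ≠ 0)
    (hp : ∑ i, p i = 0) :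
    ∃ μ : ℝ, p ⬝ᵥ lap h *ᵥ p ≤ μ * (p ⬝ᵥ p) ∧ trace Q - trace (Q * lap h) ≤ n - μ := by
  have h0 : ∀ i j, 0 ≤ h i j := fun i j => by rcases h01 i j with h1 | h1 <;> simp [h1]
  obtain ⟨μ, R, φ, hμ, hδ, key, star⟩ := kf_struct h h01 hs hd p hp0 hp
  refine ⟨μ, hμ, ?_⟩
  obtain ⟨Q1, a1, a2, a3, a4, a5⟩ :=
    peel_coords (lap h) (lap_nonneg h hs h0) Q (fun _ => 1) hQ hQQ hQ1 R
  have hone : ∀ g : Fin n → ℝ, (fun _ => (1 : ℝ)) ⬝ᵥ g = ∑ k, g k := fun g => by
    simp [dotProduct]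
  obtain ⟨Q2, b1, b2, b3, b4, b5⟩ := peel (lap h) Q1 φ
    {ψ | ψ = (fun _ => 1) ∨ ∃ j ∈ R, ψ = Pi.single j 1} _ hδ a1 a2
    (by rintro ψ (rfl | ⟨j, hj, rfl⟩); exacts [a3, a4 j hj])
    (fun g hg => key g
      (fun k hk => by simpa using hg _ (Or.inr ⟨k, hk, rfl⟩))
      (by rw [← hone]; exact hg _ (Or.inl rfl)))
  have fin := trace_le (lap h) Q2
    {ψ | ψ = φ ∨ ψ = (fun _ => 1) ∨ ∃ j ∈ R, ψ = Pi.single j 1} b1 b2
    (by rintro ψ (rfl | hψ); exacts [b4, b3 ψ hψ])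
    (fun g hg => star g
      (fun k hk => by simpa using hg _ (Or.inr (Or.inr ⟨k, hk, rfl⟩)))
      (by rw [← hone]; exact hg _ (Or.inr (Or.inl rfl))) (hg _ (Or.inl rfl)))
  linarith

theorem full_form (u : Fin n → ℝ) (hu : ∑ i, u i = 0) :
    ∑ i, ∑ j, (u i - u j) ^ 2 = 2 * n * ∑ i, u i ^ 2 := by
  have : ∀ i, ∑ j, (u i - u j) ^ 2 = n * u i ^ 2 + ∑ j, u j ^ 2 := fun i => by
    have e : ∀ j, (u i - u j) ^ 2 = u i ^ 2 + u j ^ 2 - 2 * u i * u j := fun j => by ring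
    simp only [e, Finset.sum_sub_distrib, Finset.sum_add_distrib, ← Finset.mul_sum, hu]
    simp
  simp only [this, Finset.sum_add_distrib, ← Finset.mul_sum]
  simp
  ring

/-- The Ky Fan form of the spread inequality. -/
theorem kf_main {l : ℕ} (w : Fin n → Fin n → ℝ)
    (h01 : ∀ i j, 0 ≤ w i j ∧ w i j ≤ 1) (u : Fin n → ℝ) (hu : ∑ i, u i = 0) (hu0 : u ≠ 0)
    (v : Fin l → Fin n → ℝ) (hv : ∀ s, ∑ i, v s i = 0)
    (hon : ∀ s t, ∑ i, v s i * v t i = if s = t then 1 else 0) :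
    (l : ℝ) ≤ (∑ i, ∑ j, w i j * (u i - u j) ^ 2) / (2 * ∑ i, u i ^ 2) +
      ∑ s, (∑ i, ∑ j, (1 - w i j) * (v s i - v s j) ^ 2) / 2 := by
  have hN : u ⬝ᵥ u = ∑ i, u i ^ 2 := Finset.sum_congr rfl fun i _ => (sq (u i)).symm
  have hNp : 0 < ∑ i, u i ^ 2 := hN ▸ dot_self_pos u hu0
  set N : ℝ := ∑ i, u i ^ 2 with hNd
  set A : Fin n → Fin n → ℝ := fun i j => (u i - u j) ^ 2 / (2 * N) with hA
  set B : Fin n → Fin n → ℝ := fun i j => ∑ s, (v s i - v s j) ^ 2 / 2 with hB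
  set h : Fin n → Fin n → ℝ := fun i j => if B i j < A i j then 1 else 0 with hh
  have hAs : ∀ i j, A i j = A j i := fun i j => by simp only [hA]; ring
  have hBs : ∀ i j, B i j = B j i := fun i j => by
    simp only [hB]; exact Finset.sum_congr rfl fun s _ => by ring
  have h1 : ∀ i j, h i j = 0 ∨ h i j = 1 := fun i j => by
    simp only [hh]; split_ifs <;> simp
  have hs : ∀ i j, h i j = h j i := fun i j => by simp only [hh, hAs i j, hBs i j]
  have hd : ∀ i, h i i = 0 := fun i => by simp [hh, hA, hB]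
  have form : ∀ w : Fin n → Fin n → ℝ, (∑ i, ∑ j, w i j * (u i - u j) ^ 2) / (2 * N) +
      ∑ s, (∑ i, ∑ j, (1 - w i j) * (v s i - v s j) ^ 2) / 2 =
        ∑ i, ∑ j, (w i j * A i j + (1 - w i j) * B i j) := by
    intro w
    simp only [Finset.sum_add_distrib, Finset.sum_div, hA, hB, Finset.mul_sum, mul_div_assoc]
    congr 1
    rw [Finset.sum_comm]
    exact Finset.sum_congr rfl fun i _ => Finset.sum_comm
  have red : ∑ i, ∑ j, ((1 - h i j) * A i j + (1 - (1 - h i j)) * B i j) ≤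
      ∑ i, ∑ j, (w i j * A i j + (1 - w i j) * B i j) := by
    refine Finset.sum_le_sum fun i _ => Finset.sum_le_sum fun j _ => ?_
    simp only [hh]
    split_ifs with hc
    · nlinarith [(h01 i j).1]
    · push Not at hc
      nlinarith [(h01 i j).2]
  rw [form w]
  refine le_trans ?_ red
  rw [← form fun i j => 1 - h i j]
  set Q : Matrix (Fin n) (Fin n) ℝ := ∑ s, vecMulVec (v s) (v s) with hQd
  have hdot : ∀ s t, v s ⬝ᵥ v t = if s = t then 1 else 0 := hon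
  have hQv : ∀ z, Q *ᵥ z = ∑ s, (v s ⬝ᵥ z) • v s := fun z => by
    rw [hQd, Matrix.sum_mulVec]
    exact Finset.sum_congr rfl fun s _ => vmv_mulVec _ _
  have hQ : Qᵀ = Q := by
    rw [hQd, transpose_sum]
    exact Finset.sum_congr rfl fun s _ => transpose_vecMulVec _ _
  have hQQ : Q * Q = Q := by
    conv_lhs => rw [hQd, Matrix.mul_sum, ← hQd]
    conv_rhs => rw [hQd]
    refine Finset.sum_congr rfl fun s _ => ?_
    rw [mul_vecMulVec, hQv]
    simp [hdot]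
  have hQ1 : Q *ᵥ (fun _ => 1) = 0 := by
    rw [hQv]
    refine Finset.sum_eq_zero fun s _ => ?_
    have : v s ⬝ᵥ (fun _ => (1 : ℝ)) = 0 := by simpa [dotProduct] using hv s
    rw [this, zero_smul]
  obtain ⟨μ, hμ, hfin⟩ := kf_simple h h1 hs hd Q hQ hQQ hQ1 u hu0 hu
  have t1 : trace Q = l := by
    rw [hQd, trace_sum]
    simp [trace_vecMulVec, hdot]
  have t2 : trace (Q * lap h) =
      ∑ s, (∑ i, ∑ j, (1 - (1 - h i j)) * (v s i - v s j) ^ 2) / 2 := by
    rw [hQd, Matrix.sum_mul, trace_sum]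
    refine Finset.sum_congr rfl fun s _ => ?_
    rw [trace_vmv, eq_div_iff two_ne_zero, mul_comm, lap_form h hs]
    exact Finset.sum_congr rfl fun i _ => Finset.sum_congr rfl fun j _ => by ring
  have t3 : (n : ℝ) - μ ≤ (∑ i, ∑ j, (1 - h i j) * (u i - u j) ^ 2) / (2 * N) := by
    rw [le_div_iff₀ (by positivity)]
    have e1 : ∑ i, ∑ j, (1 - h i j) * (u i - u j) ^ 2 =
        ∑ i, ∑ j, (u i - u j) ^ 2 - ∑ i, ∑ j, h i j * ((u i - u j) * (u i - u j)) := by
      rw [← Finset.sum_sub_distrib]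
      refine Finset.sum_congr rfl fun i _ => ?_
      rw [← Finset.sum_sub_distrib]
      exact Finset.sum_congr rfl fun j _ => by ring
    rw [e1, full_form u hu, ← lap_form h hs, ← hNd]
    rw [hN] at hμ
    nlinarith
  rw [← t2]
  linarith

end Pool.Agent.Lib.MP_3a2c26_co.KS
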