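import Pool.Agent.Lib.MP_3a2c26_co.Eigen
import Pool.Agent.Lib.MP_3a2c26_co.KFCore

set_option autoImplicit false

namespace Pool.Agent.Lib.MP_3a2c26_co.KS

open Finset Matrix

variable {n : ℕ}

theorem dot_self_nonneg (z : Fin n → ℝ) : 0 ≤ z ⬝ᵥ z :=
  Finset.sum_nonneg fun i _ => mul_self_nonneg (z i)

theorem dot_self_pos (z : Fin n → ℝ) (hz : z ≠ 0) : 0 < z ⬝ᵥ z :=
  lt_of_le_of_ne (dot_self_nonneg z) fun h => hz (dotProduct_self_eq_zero.1 h.symm)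

/-- A minimiser of a symmetric quadratic form on a nonzero subspace. -/
theorem exists_minimiser (M : Matrix (Fin n) (Fin n) ℝ)
    (hM : ∀ x z : Fin n → ℝ, x ⬝ᵥ M *ᵥ z = z ⬝ᵥ M *ᵥ x) (Z : Submodule ℝ (Fin n → ℝ))
    (f : Fin n → ℝ) (hf : f ∈ Z) (hf0 : f ≠ 0) :
    ∃ q ∈ Z, q ≠ 0 ∧ ∃ y : ℝ, (∀ z ∈ Z, z ⬝ᵥ M *ᵥ q = y * (z ⬝ᵥ q)) ∧
      ∀ z ∈ Z, y * (z ⬝ᵥ z) ≤ z ⬝ᵥ M *ᵥ z := by
  have unit : ∀ z ∈ Z, z ≠ 0 → ∃ c : ℝ, c * c * (z ⬝ᵥ z) = 1 ∧ (c • z) ⬝ᵥ (c • z) = 1 := by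
    intro z _ hz
    have hp := dot_self_pos z hz
    have h1 : (√(z ⬝ᵥ z))⁻¹ * (√(z ⬝ᵥ z))⁻¹ * (z ⬝ᵥ z) = 1 := by
      rw [← mul_inv, Real.mul_self_sqrt hp.le, inv_mul_cancel₀ hp.ne']
    refine ⟨(√(z ⬝ᵥ z))⁻¹, h1, ?_⟩
    rw [smul_dotProduct, dotProduct_smul, smul_eq_mul, smul_eq_mul, ← mul_assoc, h1]
  set K : Set (Fin n → ℝ) := {z | z ∈ Z ∧ z ⬝ᵥ z = 1} with hK
  have hcl : IsClosed K :=
    (Submodule.closed_of_finiteDimensional Z).inter
      (isClosed_eq (continuous_id.dotProduct continuous_id) continuous_const)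
  have hbd : Bornology.IsBounded K := by
    refine (Metric.isBounded_closedBall (x := (0 : Fin n → ℝ)) (r := 1)).subset fun z hz => ?_
    rw [mem_closedBall_zero_iff, pi_norm_le_iff_of_nonneg zero_le_one]
    intro i
    have h1 : z i * z i ≤ z ⬝ᵥ z :=
      Finset.single_le_sum (f := fun j => z j * z j) (fun j _ => mul_self_nonneg (z j))
        (Finset.mem_univ i)
    rw [hz.2] at h1
    rw [Real.norm_eq_abs, abs_le]
    constructor <;> nlinarith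
  have hne : K.Nonempty := by
    obtain ⟨c, _, hc⟩ := unit f hf hf0
    exact ⟨c • f, Z.smul_mem c hf, hc⟩
  have hcont : Continuous fun z : Fin n → ℝ => z ⬝ᵥ M *ᵥ z :=
    continuous_id.dotProduct (continuous_const.matrix_mulVec continuous_id)
  obtain ⟨q, hq, hmin⟩ :=
    (Metric.isCompact_of_isClosed_isBounded hcl hbd).exists_isMinOn hne hcont.continuousOn
  have hlow : ∀ z ∈ Z, (q ⬝ᵥ M *ᵥ q) * (z ⬝ᵥ z) ≤ z ⬝ᵥ M *ᵥ z := by
    intro z hz
    by_cases hz0 : z = 0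
    · simp [hz0]
    obtain ⟨c, hc1, hc⟩ := unit z hz hz0
    have h1 : q ⬝ᵥ M *ᵥ q ≤ (c • z) ⬝ᵥ M *ᵥ (c • z) := hmin ⟨Z.smul_mem c hz, hc⟩
    rw [mulVec_smul, smul_dotProduct, dotProduct_smul, smul_eq_mul, smul_eq_mul] at h1
    have hp := dot_self_pos z hz0
    calc (q ⬝ᵥ M *ᵥ q) * (z ⬝ᵥ z) ≤ c * (c * (z ⬝ᵥ M *ᵥ z)) * (z ⬝ᵥ z) :=
          mul_le_mul_of_nonneg_right h1 hp.le
      _ = (c * c * (z ⬝ᵥ z)) * (z ⬝ᵥ M *ᵥ z) := by ring
      _ = _ := by rw [hc1, one_mul]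
  refine ⟨q, hq.1, ?_, q ⬝ᵥ M *ᵥ q, ?_, hlow⟩
  · rintro rfl
    have := hq.2
    simp at this
  · intro z hz
    have hd : discrim (z ⬝ᵥ M *ᵥ z - (q ⬝ᵥ M *ᵥ q) * (z ⬝ᵥ z))
        (2 * (z ⬝ᵥ M *ᵥ q - (q ⬝ᵥ M *ᵥ q) * (z ⬝ᵥ q))) 0 ≤ 0 := by
      refine discrim_le_zero fun s => ?_
      have h1 := hlow (q + s • z) (Z.add_mem hq.1 (Z.smul_mem s hz))
      simp only [mulVec_add, mulVec_smul, add_dotProduct, dotProduct_add, smul_dotProduct,
        dotProduct_smul, smul_eq_mul, hq.2, hM q z, dotProduct_comm q z] at h1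
      nlinarith
    rw [discrim] at hd
    nlinarith [sq_nonneg (z ⬝ᵥ M *ᵥ q - (q ⬝ᵥ M *ᵥ q) * (z ⬝ᵥ q))]

theorem lap_form (w : Fin n → Fin n → ℝ) (hw : ∀ i j, w i j = w j i) (x z : Fin n → ℝ) :
    2 * (z ⬝ᵥ lap w *ᵥ x) = ∑ i, ∑ j, w i j * ((x i - x j) * (z i - z j)) :=
  (form_eq w hw x z).symm

theorem lap_symm (w : Fin n → Fin n → ℝ) (hw : ∀ i j, w i j = w j i) (x z : Fin n → ℝ) :
    x ⬝ᵥ lap w *ᵥ z = z ⬝ᵥ lap w *ᵥ x := by
  have h1 := lap_form w hw x z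
  have h2 := lap_form w hw z x
  have : ∑ i, ∑ j, w i j * ((x i - x j) * (z i - z j)) =
      ∑ i, ∑ j, w i j * ((z i - z j) * (x i - x j)) :=
    Finset.sum_congr rfl fun i _ => Finset.sum_congr rfl fun j _ => by ring
  linarith

theorem lap_nonneg (w : Fin n → Fin n → ℝ) (hw : ∀ i j, w i j = w j i) (h0 : ∀ i j, 0 ≤ w i j)
    (x : Fin n → ℝ) : 0 ≤ x ⬝ᵥ lap w *ᵥ x := by
  have h1 := lap_form w hw x x
  have : 0 ≤ ∑ i, ∑ j, w i j * ((x i - x j) * (x i - x j)) :=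
    Finset.sum_nonneg fun i _ => Finset.sum_nonneg fun j _ =>
      mul_nonneg (h0 i j) (mul_self_nonneg _)
  linarith

/-- A nonzero vector with sum zero has a positive maximum and a negative minimum. -/
theorem exists_max_min (q : Fin n → ℝ) (hq : ∑ i, q i = 0) (hq0 : q ≠ 0) :
    ∃ a b, (∀ k, q b ≤ q k ∧ q k ≤ q a) ∧ 0 < q a ∧ q b < 0 := by
  obtain ⟨i, hi⟩ := Function.ne_iff.1 hq0
  obtain ⟨a, -, ha⟩ := Finset.exists_max_image univ q ⟨i, mem_univ i⟩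
  obtain ⟨b, -, hb⟩ := Finset.exists_min_image univ q ⟨i, mem_univ i⟩
  refine ⟨a, b, fun k => ⟨hb k (mem_univ k), ha k (mem_univ k)⟩, ?_, ?_⟩
  · by_contra hc
    push Not at hc
    have := (Finset.sum_eq_zero_iff_of_nonpos fun k hk => (ha k hk).trans hc).1 hq i (mem_univ i)
    exact hi this
  · by_contra hc
    push Not at hc
    have := (Finset.sum_eq_zero_iff_of_nonneg fun k hk => hc.trans (hb k hk)).1 hq i (mem_univ i)
    exact hi this

/-- Difference form of the eigenvalue equation. -/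
theorem diff_eq (w : Fin n → Fin n → ℝ) (q : Fin n → ℝ) (y : ℝ) (i j : Fin n)
    (h : (Pi.single i 1 - Pi.single j 1 : Fin n → ℝ) ⬝ᵥ lap w *ᵥ q =
      y * ((Pi.single i 1 - Pi.single j 1 : Fin n → ℝ) ⬝ᵥ q)) (c e : ℝ) :
    ∑ k, w i k * ((c * q i + e) - (c * q k + e)) - ∑ k, w j k * ((c * q j + e) - (c * q k + e)) =
      y * ((c * q i + e) - (c * q j + e)) := by
  simp only [sub_dotProduct, single_dotProduct, one_mul, lap_mulVec] at h
  have e1 : ∀ i, ∑ k, w i k * ((c * q i + e) - (c * q k + e)) = c * ∑ k, w i k * (q i - q k) :=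
    fun i => by rw [Finset.mul_sum]; exact Finset.sum_congr rfl fun k _ => by ring
  rw [e1, e1, ← mul_sub, h]; ring

/-- The key bound when the extreme vertices `u`, `v` of the top eigenvector are adjacent. -/
theorem kf_key_adj (h : Fin n → Fin n → ℝ) (h01 : ∀ i j, h i j = 0 ∨ h i j = 1)
    (hs : ∀ i j, h i j = h j i) (hd : ∀ i, h i i = 0) (u v : Fin n) (huv : h u v = 1)
    (t : Fin n → ℝ) (μ : ℝ) (ht : ∀ k, 0 ≤ t k ∧ t k ≤ 1) (htu : t u = 1) (htv : t v = 0)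
    (E : ∀ i j, ∑ k, h i k * (t i - t k) - ∑ k, h j k * (t j - t k) = μ * (t i - t j))
    (hδ : 0 ≤ (∑ k, (h u k + h v k - h u k * h v k)) - μ)
    (g : Fin n → ℝ) (hgR : ∀ k, h u k = 0 → h v k = 0 → g k = 0) (hg0 : ∑ k, g k = 0) :
    (1 - ((∑ k, (h u k + h v k - h u k * h v k)) - μ)) * (g ⬝ᵥ g) ≤ g ⬝ᵥ lap h *ᵥ g := by
  by_cases hg : g = 0
  · simp [hg]
  let Z : Submodule ℝ (Fin n → ℝ) :=
    { carrier := {g | (∀ k, h u k = 0 → h v k = 0 → g k = 0) ∧ ∑ k, g k = 0}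
      add_mem' := fun {x z} hx hz => ⟨fun k h1 h2 => by simp [hx.1 k h1 h2, hz.1 k h1 h2], by
        simp [Finset.sum_add_distrib, hx.2, hz.2]⟩
      zero_mem' := ⟨fun _ _ _ => rfl, by simp⟩
      smul_mem' := fun c {x} hx => ⟨fun k h1 h2 => by simp [hx.1 k h1 h2], by
        simp [← Finset.mul_sum, hx.2]⟩ }
  obtain ⟨q, hqZ, hq0, y, heq, hlow⟩ := exists_minimiser (lap h) (lap_symm h hs) Z g ⟨hgR, hg0⟩ hg
  refine le_trans (mul_le_mul_of_nonneg_right ?_ (dot_self_nonneg g)) (hlow g ⟨hgR, hg0⟩)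
  have hqR : ∀ k, h u k = 0 → h v k = 0 → q k = 0 := hqZ.1
  have hqs : ∑ k, q k = 0 := hqZ.2
  obtain ⟨a, b, hq, hqa, hqb⟩ := exists_max_min q hqs hq0
  have hW : ∀ i j, ¬ (h u i = 0 ∧ h v i = 0) → ¬ (h u j = 0 ∧ h v j = 0) → ∀ c : ℝ,
      ∑ k, h i k * (c * q i - c * q k) - ∑ k, h j k * (c * q j - c * q k) =
        y * (c * q i - c * q j) := by
    intro i j hi hj c
    have hm : (Pi.single i 1 - Pi.single j 1 : Fin n → ℝ) ∈ Z := by
      refine ⟨fun k h1 h2 => ?_, by simp [Finset.sum_sub_distrib]⟩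
      have k1 : k ≠ i := by rintro rfl; exact hi ⟨h1, h2⟩
      have k2 : k ≠ j := by rintro rfl; exact hj ⟨h1, h2⟩
      simp [Pi.single_eq_of_ne k1, Pi.single_eq_of_ne k2]
    simpa only [add_zero] using diff_eq h q y i j (heq _ hm) c 0
  have aW : ¬ (h u a = 0 ∧ h v a = 0) := fun hh => hqa.ne' (hqR a hh.1 hh.2)
  have bW : ¬ (h u b = 0 ∧ h v b = 0) := fun hh => hqb.ne (hqR b hh.1 hh.2)
  have uW : ¬ (h u u = 0 ∧ h v u = 0) := fun hh => by
    rw [hs v u, huv] at hh; exact one_ne_zero hh.2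
  have vW : ¬ (h u v = 0 ∧ h v v = 0) := fun hh => by rw [huv] at hh; exact one_ne_zero hh.1
  set c : ℝ := (q a - q b)⁻¹ with hc
  have hcp : 0 < c := inv_pos.2 (by linarith)
  have hc1 : c * q a - c * q b = 1 := by rw [← mul_sub, hc, inv_mul_cancel₀ (by linarith)]
  have hcq : ∀ k, c * q b ≤ c * q k ∧ c * q k ≤ c * q a := fun k =>
    ⟨mul_le_mul_of_nonneg_left (hq k).1 hcp.le, mul_le_mul_of_nonneg_left (hq k).2 hcp.le⟩
  by_contra hcon
  push Not at hcon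
  have hy1 : y < 1 := by linarith
  have E3 := hW a b aW bW c
  rw [hc1, mul_one, ← Finset.sum_sub_distrib] at E3
  have hterm : ∀ k, h a k * (c * q a - c * q k) - h b k * (c * q b - c * q k) < 1 := by
    intro k
    refine lt_of_le_of_lt ?_ hy1
    rw [← E3]
    refine Finset.single_le_sum
      (f := fun k => h a k * (c * q a - c * q k) - h b k * (c * q b - c * q k)) (fun j _ => ?_)
      (mem_univ k)
    rcases h01 a j with h1 | h1 <;> rcases h01 b j with h2 | h2 <;> rw [h1, h2] <;>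
      linarith [(hcq j).1, (hcq j).2]
  have hab : h a b = 0 := by
    refine (h01 a b).resolve_right fun h1 => ?_
    have := hterm b
    rw [h1, hd] at this
    linarith
  have hcom : ∀ k, h k a = 1 → h k b = 0 := by
    intro k hk
    refine (h01 k b).resolve_right fun h1 => ?_
    have := hterm k
    rw [hs a k, hs b k, hk, h1] at this
    linarith
  have hsum : ∀ e : ℝ, ∑ k, e * q k = 0 := fun e => by rw [← Finset.mul_sum, hqs, mul_zero]
  rcases h01 u a with hua | hua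
  · have hva : h v a = 1 := (h01 v a).resolve_left fun h1 => aW ⟨hua, h1⟩
    have hvb : h v b = 0 := hcom v hva
    have hub : h u b = 1 := (h01 u b).resolve_left fun h1 => bW ⟨h1, hvb⟩
    have := kf_core h h01 hs hd u v b a huv hub hvb hva hua (by rw [hs, hab]) t
      (fun k => -c * q k) μ y ht htu htv
      (fun k => ⟨by linarith [(hcq k).2], by linarith [(hcq k).1]⟩) (by linarith)
      (fun k h1 h2 => by rw [hqR k h1 h2, mul_zero]) (hsum _)
      (by nlinarith) (by nlinarith) (E u v) (E a b) (hW b a bW aW _) (hW u v uW vW _)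
    linarith
  · have hub : h u b = 0 := hcom u hua
    have hvb : h v b = 1 := (h01 v b).resolve_left fun h1 => bW ⟨hub, h1⟩
    have hva : h v a = 0 := (h01 v a).resolve_right fun h1 => by
      rw [hcom v h1] at hvb; exact zero_ne_one hvb
    have := kf_core h h01 hs hd u v a b huv hua hva hvb hub hab t
      (fun k => c * q k) μ y ht htu htv hcq hc1
      (fun k h1 h2 => by rw [hqR k h1 h2, mul_zero]) (hsum _)
      (by nlinarith) (by nlinarith) (E u v) (E b a) (hW a b aW bW _) (hW u v uW vW _)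
    linarith

end Pool.Agent.Lib.MP_3a2c26_co.KS
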