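import Pool.Agent.Lib.MP_3a2c26_co.KFMin

set_option autoImplicit false

namespace Pool.Agent.Lib.MP_3a2c26_co.KS

open Finset Matrix

variable {n : ℕ}

theorem trace_vmv (g : Fin n → ℝ) (L : Matrix (Fin n) (Fin n) ℝ) :
    trace (vecMulVec g g * L) = g ⬝ᵥ L *ᵥ g := by
  simp only [trace, Matrix.diag, Matrix.mul_apply, vecMulVec_apply, dotProduct, mulVec, Finset.mul_sum]
  rw [Finset.sum_comm]
  exact Finset.sum_congr rfl fun i _ => Finset.sum_congr rfl fun j _ => by ring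

theorem vmv_mulVec (g z : Fin n → ℝ) : vecMulVec g g *ᵥ z = (g ⬝ᵥ z) • g := by
  ext i
  simp only [mulVec, dotProduct, vecMulVec_apply, Pi.smul_apply, smul_eq_mul, Finset.sum_mul]
  exact Finset.sum_congr rfl fun j _ => by ring

theorem symm_dot (Q : Matrix (Fin n) (Fin n) ℝ) (hQ : Qᵀ = Q) (x z : Fin n → ℝ) :
    x ⬝ᵥ Q *ᵥ z = (Q *ᵥ x) ⬝ᵥ z := by
  rw [dotProduct_mulVec, ← mulVec_transpose, hQ]

/-- Remove one direction from an orthogonal projection. -/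
theorem peel (L Q : Matrix (Fin n) (Fin n) ℝ) (φ : Fin n → ℝ) (S : Set (Fin n → ℝ)) (c : ℝ)
    (hc : 0 ≤ c) (hQ : Qᵀ = Q) (hQQ : Q * Q = Q) (hS : ∀ ψ ∈ S, Q *ᵥ ψ = 0)
    (hg : ∀ g : Fin n → ℝ, (∀ ψ ∈ S, ψ ⬝ᵥ g = 0) → (1 - c) * (g ⬝ᵥ g) ≤ g ⬝ᵥ L *ᵥ g) :
    ∃ Q' : Matrix (Fin n) (Fin n) ℝ, Q'ᵀ = Q' ∧ Q' * Q' = Q' ∧ (∀ ψ ∈ S, Q' *ᵥ ψ = 0) ∧
      Q' *ᵥ φ = 0 ∧ trace Q - trace (Q * L) ≤ trace Q' - trace (Q' * L) + c := by
  by_cases h0 : Q *ᵥ φ = 0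
  · exact ⟨Q, hQ, hQQ, hS, h0, by linarith⟩
  set g := Q *ᵥ φ with hgd
  have hp : 0 < g ⬝ᵥ g := dot_self_pos g h0
  have hQg : Q *ᵥ g = g := by rw [hgd, mulVec_mulVec, hQQ]
  have hgφ : g ⬝ᵥ φ = g ⬝ᵥ g := by
    conv_rhs => rw [hgd, symm_dot Q hQ, ← hgd, hQg]
  have hgS : ∀ ψ ∈ S, ψ ⬝ᵥ g = 0 := fun ψ hψ => by
    rw [hgd, symm_dot Q hQ, hS ψ hψ, zero_dotProduct]
  set P := vecMulVec g g with hP
  have hPt : Pᵀ = P := by rw [hP, transpose_vecMulVec]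
  have hQP : Q * P = P := by rw [hP, mul_vecMulVec, hQg]
  have hPQ : P * Q = P := by
    have := congrArg transpose hQP
    rwa [transpose_mul, hQ, hPt] at this
  have hPP : P * P = (g ⬝ᵥ g) • P := by
    rw [hP, mul_vecMulVec, vmv_mulVec, smul_vecMulVec]
  refine ⟨Q - (g ⬝ᵥ g)⁻¹ • P, ?_, ?_, ?_, ?_, ?_⟩
  · rw [transpose_sub, transpose_smul, hQ, hPt]
  · rw [Matrix.sub_mul, Matrix.mul_sub, Matrix.mul_sub, Matrix.mul_smul, Matrix.smul_mul,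
      Matrix.smul_mul, Matrix.mul_smul, hQQ, hQP, hPQ, hPP, smul_smul (g ⬝ᵥ g)⁻¹ (g ⬝ᵥ g),
      inv_mul_cancel₀ hp.ne', one_smul, sub_self, sub_zero]
  · intro ψ hψ
    rw [sub_mulVec, smul_mulVec, hS ψ hψ, hP, vmv_mulVec, dotProduct_comm g ψ, hgS ψ hψ]
    simp
  · rw [sub_mulVec, smul_mulVec, hP, vmv_mulVec, hgφ, smul_smul, inv_mul_cancel₀ hp.ne', one_smul,
      ← hgd, sub_self]
  · have t1 : trace P = g ⬝ᵥ g := by rw [hP, trace_vecMulVec]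
    rw [Matrix.sub_mul, Matrix.smul_mul, trace_sub, trace_sub, trace_smul, trace_smul, t1, hP,
      trace_vmv, smul_eq_mul, smul_eq_mul, inv_mul_cancel₀ hp.ne']
    have h1 := mul_le_mul_of_nonneg_left (hg g hgS) (inv_pos.2 hp).le
    have h2 : (g ⬝ᵥ g)⁻¹ * ((1 - c) * (g ⬝ᵥ g)) = 1 - c := by field_simp
    linarith

/-- Remove the coordinates in a finite set. -/
theorem peel_coords (L : Matrix (Fin n) (Fin n) ℝ) (hL : ∀ g : Fin n → ℝ, 0 ≤ g ⬝ᵥ L *ᵥ g)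
    (Q : Matrix (Fin n) (Fin n) ℝ) (ψ : Fin n → ℝ) (hQ : Qᵀ = Q) (hQQ : Q * Q = Q)
    (hψ : Q *ᵥ ψ = 0) (R : Finset (Fin n)) :
    ∃ Q' : Matrix (Fin n) (Fin n) ℝ, Q'ᵀ = Q' ∧ Q' * Q' = Q' ∧ Q' *ᵥ ψ = 0 ∧
      (∀ k ∈ R, Q' *ᵥ Pi.single k 1 = 0) ∧
      trace Q - trace (Q * L) ≤ trace Q' - trace (Q' * L) + R.card := by
  induction R using Finset.induction_on with
  | empty => exact ⟨Q, hQ, hQQ, hψ, by simp, by simp⟩
  | insert k R hk ih =>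
    obtain ⟨Q1, h1, h2, h3, h4, h5⟩ := ih
    obtain ⟨Q2, g1, g2, g3, g4, g5⟩ := peel L Q1 (Pi.single k 1)
      {φ | φ = ψ ∨ ∃ j ∈ R, φ = Pi.single j 1} 1 zero_le_one h1 h2
      (by rintro φ (rfl | ⟨j, hj, rfl⟩); exacts [h3, h4 j hj])
      (fun g _ => by rw [sub_self, zero_mul]; exact hL g)
    refine ⟨Q2, g1, g2, g3 _ (Or.inl rfl), fun j hj => ?_, ?_⟩
    · rcases Finset.mem_insert.1 hj with rfl | hj
      · exact g4
      · exact g3 _ (Or.inr ⟨j, hj, rfl⟩)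
    · rw [Finset.card_insert_of_notMem hk]
      push_cast
      linarith

/-- On a range where `L ≥ 1` the trace of the compression is at least the rank. -/
theorem trace_le (L Q : Matrix (Fin n) (Fin n) ℝ) (S : Set (Fin n → ℝ)) (hQ : Qᵀ = Q)
    (hQQ : Q * Q = Q) (hS : ∀ ψ ∈ S, Q *ᵥ ψ = 0)
    (hg : ∀ g : Fin n → ℝ, (∀ ψ ∈ S, ψ ⬝ᵥ g = 0) → g ⬝ᵥ g ≤ g ⬝ᵥ L *ᵥ g) :
    trace Q ≤ trace (Q * L) := by
  have col : ∀ (M : Matrix (Fin n) (Fin n) ℝ) (k : Fin n),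
      (Q * M * Q) k k = (Q *ᵥ Pi.single k 1) ⬝ᵥ M *ᵥ (Q *ᵥ Pi.single k 1) := by
    intro M k
    rw [← symm_dot Q hQ, mulVec_mulVec, mulVec_mulVec, single_dotProduct, one_mul, mulVec_single_one]
    rfl
  have e1 : trace Q = trace (Q * 1 * Q) := by rw [Matrix.mul_one, hQQ]
  have e2 : trace (Q * L) = trace (Q * L * Q) := by
    rw [trace_mul_cycle, hQQ]
  rw [e1, e2]
  refine Finset.sum_le_sum fun k _ => ?_
  simp only [Matrix.diag]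
  rw [col, col, one_mulVec]
  exact hg _ fun ψ hψ => by rw [symm_dot Q hQ, hS ψ hψ, zero_dotProduct]

/-- Two stars with centres `u` and `v`: on vectors with sum zero on each star, `L ≥ 1`. -/
theorem two_stars (h : Fin n → Fin n → ℝ) (h01 : ∀ i j, h i j = 0 ∨ h i j = 1)
    (hs : ∀ i j, h i j = h j i) (u v : Fin n) (huv : u ≠ v) (g : Fin n → ℝ)
    (hgR : ∀ k, k ≠ u → k ≠ v → h u k = 0 → h v k = 0 → g k = 0) (hg0 : ∑ k, g k = 0)
    (hgu : g u + ∑ k ∈ ({u, v} : Finset (Fin n))ᶜ, h u k * g k = 0) :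
    g ⬝ᵥ g ≤ g ⬝ᵥ lap h *ᵥ g := by
  set S : Finset (Fin n) := ({u, v} : Finset (Fin n))ᶜ with hS
  have S2 : ∀ f : Fin n → ℝ, ∑ k, f k = f u + f v + ∑ k ∈ S, f k := fun f => by
    rw [← Finset.sum_add_sum_compl ({u, v} : Finset (Fin n)) f, Finset.sum_pair huv]
  have hnn : ∀ i j, 0 ≤ h i j * ((g i - g j) * (g i - g j)) := fun i j =>
    mul_nonneg (by rcases h01 i j with h1 | h1 <;> simp [h1]) (mul_self_nonneg _)
  have h1 := lap_form h hs g g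
  have a1 : ∀ i, ∑ k ∈ S, h i k * ((g i - g k) * (g i - g k)) ≤
      ∑ k, h i k * ((g i - g k) * (g i - g k)) := fun i => by
    rw [S2]; linarith [hnn i u, hnn i v]
  have a2 : ∑ k ∈ S, (h u k * ((g u - g k) * (g u - g k)) + h v k * ((g v - g k) * (g v - g k))) ≤
      ∑ i ∈ S, ∑ k, h i k * ((g i - g k) * (g i - g k)) := by
    refine Finset.sum_le_sum fun i _ => ?_
    rw [S2, hs u i, hs v i]
    have : 0 ≤ ∑ k ∈ S, h i k * ((g i - g k) * (g i - g k)) := Finset.sum_nonneg fun k _ => hnn i k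
    nlinarith
  have a3 : ∑ k ∈ S, (g k * g k - 2 * g u * (h u k * g k) - 2 * g v * (g k - h u k * g k)) ≤
      ∑ k ∈ S, (h u k * ((g u - g k) * (g u - g k)) + h v k * ((g v - g k) * (g v - g k))) := by
    refine Finset.sum_le_sum fun k hk => ?_
    have hk' : k ≠ u ∧ k ≠ v := by simpa [hS] using hk
    rcases h01 u k with h1 | h1 <;> rcases h01 v k with h2 | h2
    · rw [h1, h2, hgR k hk'.1 hk'.2 h1 h2]; simp
    all_goals rw [h1, h2]; nlinarith [mul_self_nonneg (g u), mul_self_nonneg (g v),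
      mul_self_nonneg (g v - g k)]
  rw [Finset.sum_sub_distrib, Finset.sum_sub_distrib, ← Finset.mul_sum, ← Finset.mul_sum,
    Finset.sum_sub_distrib] at a3
  rw [S2] at h1 hg0
  have b1 := a1 u
  have b2 := a1 v
  rw [Finset.sum_add_distrib] at a2 a3
  have e0 : g ⬝ᵥ g = g u * g u + g v * g v + ∑ k ∈ S, g k * g k := S2 fun k => g k * g k
  have e1 : ∑ k ∈ S, h u k * g k = -g u := by linarith
  have e2 : ∑ k ∈ S, g k = -g u - g v := by linarith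
  rw [e1, e2] at a3
  nlinarith [mul_self_nonneg (g u), mul_self_nonneg (g v)]

end Pool.Agent.Lib.MP_3a2c26_co.KS
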