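import Pool.Agent.Lib.MP_3a2c26_co.KFLadder

set_option autoImplicit false

namespace Pool.Agent.Lib.MP_3a2c26_co.KS

open Finset Matrix

variable {n : ℕ}

/-- The span of the high eigenvectors. -/
theorem exists_high (A : Matrix (Fin n) (Fin n) ℝ) (hA : A.IsHermitian)
    (j : Fin (Fintype.card (Fin n))) :
    ∃ S : Submodule ℝ (Fin n → ℝ), Module.finrank ℝ S = j.val + 1 ∧
      (∀ g ∈ S, hA.eigenvalues₀ j * (g ⬝ᵥ g) ≤ g ⬝ᵥ A *ᵥ g) ∧
      (0 < hA.eigenvalues₀ j → ∀ z, A *ᵥ z = 0 → ∀ g ∈ S, z ⬝ᵥ g = 0) := by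
  classical
  set e := (Fintype.equivOfCardEq (Fintype.card_fin (Fintype.card (Fin n))) :
    Fin (Fintype.card (Fin n)) ≃ Fin n) with he
  set b : Fin (Fintype.card (Fin n)) → Fin n → ℝ := fun m => (hA.eigenvectorBasis (e m)).ofLp
    with hb
  have hev : ∀ m, hA.eigenvalues (e m) = hA.eigenvalues₀ m := by
    intro m; simp [Matrix.IsHermitian.eigenvalues, he]
  have hAb : ∀ m, A *ᵥ b m = hA.eigenvalues₀ m • b m := by
    intro m; rw [← hev]; exact hA.mulVec_eigenvectorBasis (e m)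
  have hon : ∀ m m', b m ⬝ᵥ b m' = if m = m' then 1 else 0 := by
    intro m m'
    have := orthonormal_iff_ite.1 hA.eigenvectorBasis.orthonormal (e m') (e m)
    rw [EuclideanSpace.inner_eq_star_dotProduct] at this
    simp only [star_trivial, EmbeddingLike.apply_eq_iff_eq] at this
    rw [hb]
    simp only [this, eq_comm]
  set T := {m // m ∈ Finset.Iic j} with hT
  have hcT : Fintype.card T = j.val + 1 := by rw [Fintype.card_coe, Fin.card_Iic]
  have hon' : ∀ m m' : T, b m.1 ⬝ᵥ b m'.1 = if m = m' then 1 else 0 := fun m m' => by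
    rw [hon]; simp only [Subtype.val_inj]
  have hgg : ∀ c : T → ℝ, (∑ m : T, c m • b m.1) ⬝ᵥ (∑ m : T, c m • b m.1) = ∑ m, c m * c m := by
    intro c
    rw [sum_dotProduct]
    refine Finset.sum_congr rfl fun m _ => ?_
    rw [dotProduct_sum, Finset.sum_eq_single m (fun x _ hx => by simp [hon', hx.symm]) (by simp)]
    simp [hon']
  have hgA : ∀ c : T → ℝ, (∑ m : T, c m • b m.1) ⬝ᵥ A *ᵥ (∑ m : T, c m • b m.1) =
      ∑ m : T, hA.eigenvalues₀ m.1 * (c m * c m) := by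
    intro c
    rw [mulVec_sum, dotProduct_sum]
    refine Finset.sum_congr rfl fun m _ => ?_
    rw [mulVec_smul, hAb, sum_dotProduct,
      Finset.sum_eq_single m (fun x _ hx => by simp [hon', hx]) (by simp)]
    simp only [smul_dotProduct, dotProduct_smul, hon', if_true, smul_eq_mul]
    ring
  have hAt : Aᵀ = A := by
    have := hA.eq
    rwa [conjTranspose_eq_transpose_of_trivial] at this
  refine ⟨LinearMap.range (Fintype.linearCombination ℝ fun m : T => b m.1), ?_, ?_, ?_⟩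
  · rw [LinearMap.finrank_range_of_inj, Module.finrank_fintype_fun_eq_card, hcT]
    rw [← LinearMap.ker_eq_bot, LinearMap.ker_eq_bot']
    intro c hc
    rw [Fintype.linearCombination_apply] at hc
    have := hgg c
    rw [hc, zero_dotProduct] at this
    exact dotProduct_self_eq_zero.1 this.symm
  · rintro g ⟨c, rfl⟩
    rw [Fintype.linearCombination_apply, hgg, hgA, Finset.mul_sum]
    exact Finset.sum_le_sum fun m _ => mul_le_mul_of_nonneg_right
      (hA.eigenvalues₀_antitone (Finset.mem_Iic.1 m.2)) (mul_self_nonneg _)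
  · rintro hpos z hz g ⟨c, rfl⟩
    rw [Fintype.linearCombination_apply, dotProduct_sum]
    refine Finset.sum_eq_zero fun m _ => ?_
    have h1 := symm_dot A hAt z (b m.1)
    rw [hz, zero_dotProduct, hAb, dotProduct_smul, smul_eq_mul] at h1
    have h2 := hpos.trans_le (hA.eigenvalues₀_antitone (Finset.mem_Iic.1 m.2))
    rw [dotProduct_smul, (mul_eq_zero.1 h1).resolve_left h2.ne', smul_zero]

/-- Two positive semidefinite forms that add up to `n` on vectors with sum zero. -/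
theorem compl_eig (A B : Matrix (Fin n) (Fin n) ℝ) (hA : A.IsHermitian) (hB : B.IsHermitian)
    (hA0 : ∀ g : Fin n → ℝ, 0 ≤ g ⬝ᵥ A *ᵥ g) (hB0 : ∀ g : Fin n → ℝ, 0 ≤ g ⬝ᵥ B *ᵥ g)
    (hA1 : A *ᵥ (fun _ => 1) = 0) (hB1 : B *ᵥ (fun _ => 1) = 0)
    (hAB : ∀ g : Fin n → ℝ, ∑ i, g i = 0 → g ⬝ᵥ A *ᵥ g + g ⬝ᵥ B *ᵥ g = n * (g ⬝ᵥ g))
    (i j : Fin (Fintype.card (Fin n))) (hij : i.val + j.val + 2 = n) :
    hA.eigenvalues₀ i + hB.eigenvalues₀ j ≤ n := by
  have hone : ∀ g : Fin n → ℝ, (fun _ => (1 : ℝ)) ⬝ᵥ g = ∑ k, g k := fun g => by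
    simp [dotProduct]
  obtain ⟨S, s1, s2, s3⟩ := exists_high A hA i
  obtain ⟨T, t1, t2, t3⟩ := exists_high B hB j
  have hn : (0 : ℝ) ≤ n := Nat.cast_nonneg n
  have ne : ∀ U : Submodule ℝ (Fin n → ℝ), 0 < Module.finrank ℝ U → ∃ g ∈ U, g ≠ 0 := fun U hU =>
    Submodule.exists_mem_ne_zero_of_ne_bot fun h => by rw [h, finrank_bot] at hU; exact lt_irrefl _ hU
  have a1 : hA.eigenvalues₀ i ≤ n := by
    by_contra hc
    push Not at hc
    obtain ⟨g, hg, hg0⟩ := ne S (by omega)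
    have h1 := hAB g (by rw [← hone]; exact s3 (hn.trans_lt hc) _ hA1 g hg)
    have h2 := mul_lt_mul_of_pos_right hc (dot_self_pos g hg0)
    linarith [s2 g hg, hB0 g]
  have b1 : hB.eigenvalues₀ j ≤ n := by
    by_contra hc
    push Not at hc
    obtain ⟨g, hg, hg0⟩ := ne T (by omega)
    have h1 := hAB g (by rw [← hone]; exact t3 (hn.trans_lt hc) _ hB1 g hg)
    have h2 := mul_lt_mul_of_pos_right hc (dot_self_pos g hg0)
    linarith [t2 g hg, hA0 g]
  rcases le_or_gt (hA.eigenvalues₀ i) 0 with ha | ha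
  · linarith
  rcases le_or_gt (hB.eigenvalues₀ j) 0 with hb | hb
  · linarith
  set K : Submodule ℝ (Fin n → ℝ) := LinearMap.ker (dotProductBilin ℝ ℝ (fun _ => (1 : ℝ))) with hK
  have hKm : ∀ g, g ∈ K ↔ (fun _ => (1 : ℝ)) ⬝ᵥ g = 0 := fun g => by simp [hK]
  have hle : S ⊔ T ≤ K :=
    sup_le (fun g hg => (hKm g).2 (s3 ha _ hA1 g hg)) fun g hg => (hKm g).2 (t3 hb _ hB1 g hg)
  have hKlt : Module.finrank ℝ K < n := by
    have : K ≠ ⊤ := fun h => by
      have h1 := (hKm fun _ => 1).1 (h ▸ Submodule.mem_top)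
      rw [hone] at h1
      simp at h1
      omega
    simpa using Submodule.finrank_lt this
  have h1 := Submodule.finrank_sup_add_finrank_inf_eq S T
  have h2 := Submodule.finrank_mono hle
  obtain ⟨g, hg, hg0⟩ := ne (S ⊓ T) (by omega)
  have h3 := hAB g (by rw [← hone]; exact s3 ha _ hA1 g hg.1)
  exact le_of_mul_le_mul_right (by linarith [s2 g hg.1, t2 g hg.2]) (dot_self_pos g hg0)

theorem eig_congr (A B : Matrix (Fin n) (Fin n) ℝ) (hA : A.IsHermitian) (hB : B.IsHermitian)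
    (h : A = B) : hA.eigenvalues₀ = hB.eigenvalues₀ := by
  subst h; rfl

/-- `μ_{i+1}(G) + λ_{i+2}(Gᶜ) ≤ n`. -/
theorem compl_graph (G : SimpleGraph (Fin n)) [DecidableRel G.Adj]
    (i j : Fin (Fintype.card (Fin n))) (hij : i.val + j.val + 2 = n) :
    (G.isHermitian_lapMatrix ℝ).eigenvalues₀ i + (Gᶜ.isHermitian_lapMatrix ℝ).eigenvalues₀ j ≤ n := by
  set h : Fin n → Fin n → ℝ := fun a b => if Gᶜ.Adj a b then 1 else 0 with hh
  have e1 : Gᶜ.lapMatrix ℝ = lap h := lapMatrix_eq _ _ fun _ _ _ => rfl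
  have e2 : G.lapMatrix ℝ = lap fun a b => 1 - h a b := lapMatrix_eq _ _ fun a b hab => by
    simp only [hh, SimpleGraph.compl_adj]
    by_cases h1 : G.Adj a b <;> simp [h1, hab]
  have hs : ∀ a b, h a b = h b a := fun a b => by simp only [hh, SimpleGraph.adj_comm]
  refine compl_eig _ _ _ _ (fun g => ?_) (fun g => ?_) G.lapMatrix_mulVec_const_eq_zero
    Gᶜ.lapMatrix_mulVec_const_eq_zero (fun g hg => ?_) i j hij
  · rw [e2]
    exact lap_nonneg _ (fun a b => by rw [hs]) (fun a b => by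
      simp only [hh]; split_ifs <;> simp) g
  · rw [e1]
    exact lap_nonneg _ hs (fun a b => by simp only [hh]; split_ifs <;> simp) g
  · rw [e1, e2, compl_form h hs g hg]; ring

/-- If `λ_{k+1}(Gᶜ) < 1` then `λ_{k+1}(G) + λ_{k+1}(Gᶜ) ≥ k`. -/
theorem sum_of_lt_one (k : ℕ) (hk : 1 ≤ k) (G : SimpleGraph (Fin n)) [DecidableRel G.Adj]
    (j : Fin (Fintype.card (Fin n))) (hj : j.val + k + 1 = n)
    (h : (Gᶜ.isHermitian_lapMatrix ℝ).eigenvalues₀ j < 1) :
    (k : ℝ) ≤ (G.isHermitian_lapMatrix ℝ).eigenvalues₀ j +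
      (Gᶜ.isHermitian_lapMatrix ℝ).eigenvalues₀ j := by
  have hc := Fintype.card_fin n
  have h1 := ladder G k ⟨n - 2, by omega⟩ j (by simp only; omega) hj
  have h2 := (G.isHermitian_lapMatrix ℝ).eigenvalues₀_antitone
    (show j ≤ ⟨n - 2, by omega⟩ from Fin.le_def.2 (by simp only; omega))
  rcases min_le_iff.1 h1 with h3 | h3 <;> linarith

theorem eig_compl_compl (G : SimpleGraph (Fin n)) [DecidableRel G.Adj] :
    (Gᶜᶜ.isHermitian_lapMatrix ℝ).eigenvalues₀ = (G.isHermitian_lapMatrix ℝ).eigenvalues₀ :=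
  eig_congr _ _ _ _ (by congr 1; simp)

/-- `λ₃(G) + λ₃(Gᶜ) ≥ 2`. -/
theorem third (G : SimpleGraph (Fin n)) [DecidableRel G.Adj]
    (j : Fin (Fintype.card (Fin n))) (hj : j.val + 3 = n) :
    2 ≤ (G.isHermitian_lapMatrix ℝ).eigenvalues₀ j +
      (Gᶜ.isHermitian_lapMatrix ℝ).eigenvalues₀ j := by
  by_cases h1 : (Gᶜ.isHermitian_lapMatrix ℝ).eigenvalues₀ j < 1
  · exact_mod_cast sum_of_lt_one 2 one_le_two G j hj h1
  by_cases h2 : (G.isHermitian_lapMatrix ℝ).eigenvalues₀ j < 1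
  · have := sum_of_lt_one 2 one_le_two Gᶜ j hj (by rwa [eig_compl_compl])
    rw [eig_compl_compl] at this
    push_cast at this
    linarith
  · linarith

/-- `μ₂(G) + μ₂(Gᶜ) ≤ 2n - 2`. -/
theorem second (hn : 3 ≤ n) (G : SimpleGraph (Fin n)) [DecidableRel G.Adj]
    (m : Fin (Fintype.card (Fin n))) (hm : m.val = 1) :
    (G.isHermitian_lapMatrix ℝ).eigenvalues₀ m + (Gᶜ.isHermitian_lapMatrix ℝ).eigenvalues₀ m ≤
      2 * n - 2 := by
  have hc := Fintype.card_fin n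
  have h1 := third G ⟨n - 3, by omega⟩ (by simp only; omega)
  have h2 := compl_graph G m ⟨n - 3, by omega⟩ (by simp only; omega)
  have h3 := compl_graph G ⟨n - 3, by omega⟩ m (by simp only; omega)
  linarith

end Pool.Agent.Lib.MP_3a2c26_co.KS
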