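import Mathlib

/-! Sums of small Laplacian eigenvalues of a weighted graph and of its complement. -/

set_option autoImplicit false

namespace Pool.Agent.Lib.MP_3a2c26_co

open Finset

variable {ι : Type} [Fintype ι]

/-- What is used of an orthogonal projection of rank `k` that kills the all-ones vector. -/
structure KfProj (P : ι → ι → ℝ) (k : ℝ) : Prop where
  symm : ∀ i j, P i j = P j i
  row : ∀ i, ∑ j, P i j = 0
  sq : ∀ i, ∑ j, P i j ^ 2 = P i i
  tr : ∑ i, P i i = k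
  lo : ∀ i j, 0 ≤ P i i + P j j - 2 * P i j
  hi : ∀ i j, P i i + P j j - 2 * P i j ≤ 2 * (P i i + P j j)

namespace KfProj

variable {P Q : ι → ι → ℝ} {k l : ℝ}

lemma nonneg (h : KfProj P k) (i : ι) : 0 ≤ P i i :=
  h.sq i ▸ Finset.sum_nonneg fun _ _ => sq_nonneg _

lemma le_one (h : KfProj P k) (i : ι) : P i i ≤ 1 := by
  have h1 : P i i ^ 2 ≤ ∑ j, P i j ^ 2 :=
    Finset.single_le_sum (f := fun j => P i j ^ 2) (fun _ _ => sq_nonneg _) (mem_univ i)
  rw [h.sq] at h1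
  nlinarith [h.nonneg i]

lemma tr_nonneg (h : KfProj P k) : 0 ≤ k := h.tr ▸ Finset.sum_nonneg fun i _ => h.nonneg i

lemma big (h : KfProj Q l) (j : ι) :
    ∑ i, max (Q i i + Q j j - 2 * Q i j - 1) 0 ≤ l + 1 := by
  classical
  obtain ⟨a, ha⟩ : ∃ a : ι → ℝ, ∀ i, a i = max (-2 * Q j i - (1 - Q j j)) 0 := ⟨_, fun _ => rfl⟩
  have e0 : 0 ≤ 1 - Q j j := sub_nonneg.2 (h.le_one j)
  have h1 : ∀ i, max (Q i i + Q j j - 2 * Q i j - 1) 0 ≤ Q i i + a i := fun i => by
    rw [ha, h.symm i j]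
    refine max_le ?_ (add_nonneg (h.nonneg i) (le_max_right _ _))
    linarith [le_max_left (-2 * Q j i - (1 - Q j j)) 0]
  have aj : a j = 0 := by
    rw [ha]
    exact max_eq_right (by linarith [h.nonneg j])
  have h2 : ∀ i, (1 - Q j j) * a i ≤ Q j i ^ 2 := fun i => by
    rw [ha]
    rcases le_total (-2 * Q j i - (1 - Q j j)) 0 with e | e
    · rw [max_eq_right e, mul_zero]; exact sq_nonneg _
    · rw [max_eq_left e]; nlinarith [sq_nonneg (Q j i + (1 - Q j j))]
  have h3 : ∑ i ∈ univ.erase j, Q j i ^ 2 = Q j j * (1 - Q j j) := by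
    have := Finset.add_sum_erase univ (fun i => Q j i ^ 2) (mem_univ j)
    rw [h.sq] at this
    linarith
  have h4 : ∑ i, a i = ∑ i ∈ univ.erase j, a i := by
    rw [← Finset.add_sum_erase univ a (mem_univ j), aj, zero_add]
  have h5 : ∑ i, a i ≤ 1 := by
    rcases e0.eq_or_lt with e | e
    · rw [← e, mul_zero, Finset.sum_eq_zero_iff_of_nonneg fun _ _ => sq_nonneg _] at h3
      rw [h4, Finset.sum_eq_zero]
      · exact zero_le_one
      · intro i hi
        rw [ha, pow_eq_zero_iff two_ne_zero |>.1 (h3 i hi), ← e]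
        simp
    · have h6 : (1 - Q j j) * ∑ i, a i ≤ Q j j * (1 - Q j j) := by
        rw [h4, Finset.mul_sum, ← h3]
        exact Finset.sum_le_sum fun i _ => h2 i
      nlinarith [h.le_one j]
  calc _ ≤ ∑ i, (Q i i + a i) := Finset.sum_le_sum fun i _ => h1 i
    _ ≤ l + 1 := by rw [Finset.sum_add_distrib, h.tr]; linarith

lemma rowb (h : KfProj Q l) {t : ℝ} (ht : 0 < t) (j : ι) :
    ∑ i, max (Q i i + Q j j - 2 * Q i j - 1) 0 ≤ (4 * l + 4 + t) * Q j j + 4 * l / t := by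
  have l0 := h.tr_nonneg
  have q0 := h.nonneg j
  have s0 : 0 ≤ 4 * l / t := by positivity
  rcases le_total (Q j j) (1 / 4) with e | e
  · have h1 : ∀ i, max (Q i i + Q j j - 2 * Q i j - 1) 0 ≤
        4 * (Q j j + 1 / t) * Q i i + t * Q j i ^ 2 := fun i => by
      have p0 := h.nonneg i
      rcases le_total (Q i i + Q j j - 2 * Q i j - 1) 0 with f | f
      · rw [max_eq_right f]; positivity
      · rw [max_eq_left f, h.symm j i]
        have f1 : 1 ≤ 4 * Q i i := by linarith [h.hi i j]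
        have f2 : -2 * Q i j ≤ t * Q i j ^ 2 + 1 / t := by
          have : t * Q i j ^ 2 + 1 / t + 2 * Q i j = (t * Q i j + 1) ^ 2 / t := by
            field_simp; ring
          have : 0 ≤ (t * Q i j + 1) ^ 2 / t := by positivity
          linarith
        have f3 : 0 ≤ Q j j + 1 / t := by positivity
        nlinarith [h.le_one i, mul_le_mul_of_nonneg_left f1 f3]
    calc _ ≤ ∑ i, (4 * (Q j j + 1 / t) * Q i i + t * Q j i ^ 2) :=
          Finset.sum_le_sum fun i _ => h1 i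
      _ = 4 * (Q j j + 1 / t) * l + t * Q j j := by
          rw [Finset.sum_add_distrib, ← Finset.mul_sum, ← Finset.mul_sum, h.tr, h.sq]
      _ ≤ _ := by
          have : 4 * (Q j j + 1 / t) * l = 4 * l * Q j j + 4 * l / t := by ring
          nlinarith
  · have := h.big j
    nlinarith [mul_nonneg ht.le q0, mul_nonneg l0 (sub_nonneg.2 e)]

lemma excess (hP : KfProj P k) (hQ : KfProj Q l) {t : ℝ} (ht : 0 < t) :
    ∑ i, ∑ j, (P i i + P j j - 2 * P i j) * max (Q i i + Q j j - 2 * Q i j - 1) 0 ≤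
      4 * (4 * l + 4 + t) * ∑ i, P i i * Q i i + 16 * (k * l) / t := by
  obtain ⟨m, hm⟩ : ∃ m : ι → ι → ℝ, ∀ i j, m i j = max (Q i i + Q j j - 2 * Q i j - 1) 0 :=
    ⟨_, fun _ _ => rfl⟩
  have ms : ∀ i j, m i j = m j i := fun i j => by rw [hm, hm, hQ.symm i j, add_comm (Q i i)]
  have m0 : ∀ i j, 0 ≤ m i j := fun i j => hm i j ▸ le_max_right _ _
  have mr : ∀ j, ∑ i, m i j ≤ (4 * l + 4 + t) * Q j j + 4 * l / t := fun j => by
    simp only [hm]; exact hQ.rowb ht j
  simp only [← hm]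
  have h1 : ∑ i, ∑ j, P j j * m i j = ∑ j, P j j * ∑ i, m i j := by
    rw [Finset.sum_comm]; simp only [Finset.mul_sum]
  have h2 : ∑ i, ∑ j, P i i * m i j = ∑ j, P j j * ∑ i, m i j := by
    simp only [Finset.mul_sum]
    exact Finset.sum_congr rfl fun i _ => Finset.sum_congr rfl fun j _ => by rw [ms]
  have h3 : ∑ j, P j j * ∑ i, m i j ≤
      (4 * l + 4 + t) * ∑ i, P i i * Q i i + 4 * l / t * k := by
    rw [← hP.tr, Finset.mul_sum, Finset.mul_sum, ← Finset.sum_add_distrib]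
    refine Finset.sum_le_sum fun j _ => (mul_le_mul_of_nonneg_left (mr j) (hP.nonneg j)).trans ?_
    exact le_of_eq (by ring)
  have h4 : ∑ i, ∑ j, (P i i + P j j - 2 * P i j) * m i j ≤
      2 * ∑ i, ∑ j, P i i * m i j + 2 * ∑ i, ∑ j, P j j * m i j := by
    simp only [Finset.mul_sum, ← Finset.sum_add_distrib]
    refine Finset.sum_le_sum fun i _ => Finset.sum_le_sum fun j _ =>
      (mul_le_mul_of_nonneg_right (hP.hi i j) (m0 i j)).trans (le_of_eq (by ring))
  rw [h1, h2] at h4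
  have : 16 * (k * l) / t = 4 * (4 * l / t * k) := by ring
  linarith

lemma ident (hP : KfProj P k) (hQ : KfProj Q l) :
    ∑ i, ∑ j, (P i i + P j j - 2 * P i j) * (Q i i + Q j j - 2 * Q i j) =
      2 * (Fintype.card ι : ℝ) * ∑ i, P i i * Q i i + 2 * (k * l) + 4 * ∑ i, ∑ j, P i j * Q i j := by
  have e : ∀ i j, (P i i + P j j - 2 * P i j) * (Q i i + Q j j - 2 * Q i j) =
      P i i * Q i i + P j j * Q j j + P i i * Q j j + Q i i * P j j - 2 * P i i * Q i j
        - 2 * Q i i * P i j - 2 * P j j * Q j i - 2 * Q j j * P j i + 4 * (P i j * Q i j) :=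
    fun i j => by rw [hP.symm j i, hQ.symm j i]; ring
  have c1 : ∑ i, ∑ j, 2 * P j j * Q j i = 0 := by
    rw [Finset.sum_comm]; simp only [← Finset.mul_sum, hQ.row, mul_zero, Finset.sum_const_zero]
  have c2 : ∑ i, ∑ j, 2 * Q j j * P j i = 0 := by
    rw [Finset.sum_comm]; simp only [← Finset.mul_sum, hP.row, mul_zero, Finset.sum_const_zero]
  have c3 : ∑ i, ∑ _j : ι, P i i * Q i i = (Fintype.card ι : ℝ) * ∑ i, P i i * Q i i := by
    simp only [Finset.sum_const, Finset.card_univ, nsmul_eq_mul, Finset.mul_sum]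
  simp only [e, Finset.sum_add_distrib, Finset.sum_sub_distrib, c1, c2, c3]
  simp only [← Finset.mul_sum, hP.row, hQ.row, hP.tr, hQ.tr, mul_zero, Finset.sum_const_zero,
    ← Finset.sum_mul, Finset.sum_const, Finset.card_univ, nsmul_eq_mul]
  ring

theorem main (hP : KfProj P k) (hQ : KfProj Q l) (hPQ : 0 ≤ ∑ i, ∑ j, P i j * Q i j)
    (w : ι → ι → ℝ) (h01 : ∀ i j, 0 ≤ w i j ∧ w i j ≤ 1)
    (hn : 8 * (k + l + 2) < (Fintype.card ι : ℝ)) :
    2 * (k * l * (1 - 64 / ((Fintype.card ι : ℝ) - 8 * (k + l + 2)))) ≤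
      ∑ i, ∑ j, w i j * (P i i + P j j - 2 * P i j) +
        ∑ i, ∑ j, (1 - w i j) * (Q i i + Q j j - 2 * Q i j) := by
  obtain ⟨t, ht⟩ : ∃ t : ℝ, t = ((Fintype.card ι : ℝ) - 8 * (k + l + 2)) / 4 := ⟨_, rfl⟩
  have t0 : 0 < t := by rw [ht]; linarith
  have E1 := hP.excess hQ t0
  have E2 := hQ.excess hP t0
  have I := hP.ident hQ
  have hT : ∑ i, Q i i * P i i = ∑ i, P i i * Q i i := Finset.sum_congr rfl fun i _ => mul_comm _ _
  have pt : ∀ a b c : ℝ, 0 ≤ a → 0 ≤ b → 0 ≤ c → c ≤ 1 →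
      a * b ≤ c * a + (1 - c) * b + a * max (b - 1) 0 + b * max (a - 1) 0 := by
    intro a b c a0 b0 c0 c1
    have g1 := mul_le_mul_of_nonneg_left (le_max_left (b - 1) 0) a0
    have g2 := mul_le_mul_of_nonneg_left (le_max_left (a - 1) 0) b0
    have g3 := mul_nonneg a0 (le_max_right (b - 1) 0)
    have g4 := mul_nonneg b0 (le_max_right (a - 1) 0)
    generalize a * max (b - 1) 0 = x at g1 g3
    generalize b * max (a - 1) 0 = y at g2 g4
    nlinarith [mul_le_mul_of_nonneg_left g1 c0, mul_le_mul_of_nonneg_left g2 (sub_nonneg.2 c1),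
      mul_nonneg c0 g4, mul_nonneg (sub_nonneg.2 c1) g3]
  have S : ∑ i, ∑ j, (P i i + P j j - 2 * P i j) * (Q i i + Q j j - 2 * Q i j) ≤
      ∑ i, ∑ j, w i j * (P i i + P j j - 2 * P i j) +
        ∑ i, ∑ j, (1 - w i j) * (Q i i + Q j j - 2 * Q i j) +
      ∑ i, ∑ j, (P i i + P j j - 2 * P i j) * max (Q i i + Q j j - 2 * Q i j - 1) 0 +
      ∑ i, ∑ j, (Q i i + Q j j - 2 * Q i j) * max (P i i + P j j - 2 * P i j - 1) 0 := by
    simp only [← Finset.sum_add_distrib]
    exact Finset.sum_le_sum fun i _ => Finset.sum_le_sum fun j _ =>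
      pt _ _ _ (hP.lo i j) (hQ.lo i j) (h01 i j).1 (h01 i j).2
  rw [hT, mul_comm l k] at E2
  have hn' : (Fintype.card ι : ℝ) = 4 * t + 8 * (k + l + 2) := by rw [ht]; ring
  have e : 2 * (k * l * (1 - 64 / ((Fintype.card ι : ℝ) - 8 * (k + l + 2)))) =
      2 * (k * l) - 2 * (16 * (k * l) / t) := by
    rw [hn', add_sub_cancel_right]; field_simp; ring
  rw [e]
  rw [I, hn'] at S
  nlinarith

end KfProj

variable {κ κ' : Type} [Fintype κ] [Fintype κ'] [DecidableEq κ]

lemma kf_diff (u : κ → ι → ℝ) (i j : ι) :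
    ∑ a, u a i * u a i + ∑ a, u a j * u a j - 2 * ∑ a, u a i * u a j = ∑ a, (u a i - u a j) ^ 2 := by
  simp only [Finset.mul_sum, ← Finset.sum_add_distrib, ← Finset.sum_sub_distrib]
  exact Finset.sum_congr rfl fun a _ => by ring

lemma kf_proj (u : κ → ι → ℝ) (h1 : ∀ a, ∑ i, u a i = 0)
    (ho : ∀ a b, ∑ i, u a i * u b i = if a = b then 1 else 0) :
    KfProj (fun i j => ∑ a, u a i * u a j) (Fintype.card κ) where
  symm i j := Finset.sum_congr rfl fun a _ => mul_comm _ _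
  row i := by
    rw [Finset.sum_comm]; simp only [← Finset.mul_sum, h1, mul_zero, Finset.sum_const_zero]
  sq i := by
    have : ∀ j, (∑ a, u a i * u a j) ^ 2 = ∑ a, ∑ b, u a i * u b i * (u a j * u b j) := fun j => by
      rw [sq, Finset.sum_mul_sum]
      exact Finset.sum_congr rfl fun a _ => Finset.sum_congr rfl fun b _ => by ring
    simp only [this]
    rw [Finset.sum_comm]
    refine Finset.sum_congr rfl fun a _ => ?_
    rw [Finset.sum_comm]
    simp only [← Finset.mul_sum, ho, mul_ite, mul_one, mul_zero, Finset.sum_ite_eq,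
      Finset.mem_univ, if_true]
  tr := by
    rw [Finset.sum_comm]; simp [ho]
  lo i j := by rw [kf_diff]; exact Finset.sum_nonneg fun _ _ => sq_nonneg _
  hi i j := by
    rw [kf_diff, ← Finset.sum_add_distrib, Finset.mul_sum]
    exact Finset.sum_le_sum fun a _ => by nlinarith [sq_nonneg (u a i + u a j)]

omit [DecidableEq κ] in
lemma kf_cross (u : κ → ι → ℝ) (v : κ' → ι → ℝ) :
    0 ≤ ∑ i, ∑ j, (∑ a, u a i * u a j) * ∑ b, v b i * v b j := by
  have : ∑ i, ∑ j, (∑ a, u a i * u a j) * ∑ b, v b i * v b j =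
      ∑ a, ∑ b, (∑ i, u a i * v b i) ^ 2 := by
    simp only [sq, Finset.sum_mul_sum]
    calc _ = ∑ i, ∑ a, ∑ b, ∑ j, u a i * u a j * (v b i * v b j) :=
          Finset.sum_congr rfl fun i _ => by
            rw [Finset.sum_comm]
            exact Finset.sum_congr rfl fun a _ => Finset.sum_comm
      _ = ∑ a, ∑ b, ∑ i, ∑ j, u a i * u a j * (v b i * v b j) := by
          rw [Finset.sum_comm]
          exact Finset.sum_congr rfl fun a _ => Finset.sum_comm
      _ = _ := Finset.sum_congr rfl fun a _ => Finset.sum_congr rfl fun b _ =>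
          Finset.sum_congr rfl fun i _ => Finset.sum_congr rfl fun j _ => by ring
  rw [this]
  exact Finset.sum_nonneg fun _ _ => Finset.sum_nonneg fun _ _ => sq_nonneg _

omit [DecidableEq κ] in
lemma kf_form (w : ι → ι → ℝ) (u : κ → ι → ℝ) :
    ∑ i, ∑ j, w i j * (∑ a, u a i * u a i + ∑ a, u a j * u a j - 2 * ∑ a, u a i * u a j) =
      2 * ∑ a, (∑ i, ∑ j, w i j * (u a i - u a j) ^ 2) / 2 := by
  classical
  simp only [kf_diff]
  simp only [Finset.mul_sum]
  calc _ = ∑ i, ∑ a, ∑ j, w i j * (u a i - u a j) ^ 2 :=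
        Finset.sum_congr rfl fun i _ => Finset.sum_comm
    _ = ∑ a, ∑ i, ∑ j, w i j * (u a i - u a j) ^ 2 := Finset.sum_comm
    _ = _ := Finset.sum_congr rfl fun a _ => by ring

theorem kf_rayleigh [DecidableEq κ'] (w : ι → ι → ℝ) (h01 : ∀ i j, 0 ≤ w i j ∧ w i j ≤ 1)
    (u : κ → ι → ℝ) (v : κ' → ι → ℝ) (hu : ∀ a, ∑ i, u a i = 0) (hv : ∀ b, ∑ i, v b i = 0)
    (hu' : ∀ a b, ∑ i, u a i * u b i = if a = b then 1 else 0)
    (hv' : ∀ a b, ∑ i, v a i * v b i = if a = b then 1 else 0)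
    (hn : 8 * ((Fintype.card κ : ℝ) + Fintype.card κ' + 2) < (Fintype.card ι : ℝ)) :
    (Fintype.card κ : ℝ) * Fintype.card κ' * (1 - 64 / ((Fintype.card ι : ℝ) -
        8 * ((Fintype.card κ : ℝ) + Fintype.card κ' + 2))) ≤
      ∑ a, (∑ i, ∑ j, w i j * (u a i - u a j) ^ 2) / 2 +
        ∑ b, (∑ i, ∑ j, (1 - w i j) * (v b i - v b j) ^ 2) / 2 := by
  have := (kf_proj u hu hu').main (kf_proj v hv hv') (kf_cross u v) w h01 hn
  rw [kf_form w u, kf_form (fun i j => 1 - w i j) v] at this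
  linarith

end Pool.Agent.Lib.MP_3a2c26_co
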