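import Pool.Agent.Lib.MP_3a2c26_co.Eigen
import Pool.Agent.Lib.MP_3a2c26_co.KyFan

/-! Orthonormal test vectors for the smallest Laplacian eigenvalues. -/

set_option autoImplicit false

namespace Pool.Agent.Lib.MP_3a2c26_co

open Finset Matrix

variable {n : ℕ}

theorem kf_frame (w : Fin n → Fin n → ℝ) (hw : ∀ i j, w i j = w j i) (h0 : ∀ i j, 0 ≤ w i j)
    (h : (lap w).IsHermitian) (k : ℕ) (S : Finset (Fin (Fintype.card (Fin n))))
    (hS : S.card = k + 1) :
    ∃ u : Fin k → Fin n → ℝ, (∀ a, ∑ i, u a i = 0) ∧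
      (∀ a b, ∑ i, u a i * u b i = if a = b then 1 else 0) ∧
      ∑ a, (∑ i, ∑ j, w i j * (u a i - u a j) ^ 2) / 2 ≤ ∑ m ∈ S, h.eigenvalues₀ m ∧
      ∀ x, (∀ m ∈ S, h.eigenvalues₀ m ≤ x) →
        ∑ a, (∑ i, ∑ j, w i j * (u a i - u a j) ^ 2) / 2 ≤ k * x := by
  classical
  set e := (Fintype.equivOfCardEq (Fintype.card_fin (Fintype.card (Fin n))) :
    Fin (Fintype.card (Fin n)) ≃ Fin n) with he
  obtain ⟨B, hB⟩ : ∃ B : OrthonormalBasis (Fin (Fintype.card (Fin n))) ℝ
      (EuclideanSpace ℝ (Fin n)), ∀ m, lap w *ᵥ (B m).ofLp = h.eigenvalues₀ m • (B m).ofLp := by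
    refine ⟨h.eigenvectorBasis.reindex e.symm, fun m => ?_⟩
    have hev : h.eigenvalues (e m) = h.eigenvalues₀ m := by
      simp [Matrix.IsHermitian.eigenvalues, he]
    rw [OrthonormalBasis.reindex_apply, Equiv.symm_symm, ← hev]
    exact h.mulVec_eigenvectorBasis (e m)
  have hin : ∀ y z : EuclideanSpace ℝ (Fin n), inner ℝ y z = ∑ i, y i * z i := fun y z => by
    rw [EuclideanSpace.inner_eq_star_dotProduct]
    simp only [star_trivial, dotProduct]
    exact Finset.sum_congr rfl fun i _ => mul_comm _ _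
  have hform : ∀ y : EuclideanSpace ℝ (Fin n), (∑ i, ∑ j, w i j * (y i - y j) ^ 2) / 2 =
      ∑ m, h.eigenvalues₀ m * inner ℝ (B m) y ^ 2 := fun y => by
    have h1 := form_eq w hw y.ofLp y.ofLp
    simp only [← sq] at h1
    have h2 := B.sum_inner_mul_inner y (WithLp.toLp 2 (lap w *ᵥ y.ofLp))
    rw [hin y] at h2
    rw [h1, mul_div_cancel_left₀ _ two_ne_zero, ← h2]
    refine Finset.sum_congr rfl fun m _ => ?_
    have h3 := form_eq w hw y.ofLp (B m).ofLp
    have h4 := form_eq w hw (B m).ofLp y.ofLp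
    have h5 : ∑ i, (B m).ofLp i * (lap w *ᵥ y.ofLp) i = ∑ i, y.ofLp i * (lap w *ᵥ (B m).ofLp) i := by
      have : ∑ i, ∑ j, w i j * ((y.ofLp i - y.ofLp j) * ((B m).ofLp i - (B m).ofLp j)) =
          ∑ i, ∑ j, w i j * (((B m).ofLp i - (B m).ofLp j) * (y.ofLp i - y.ofLp j)) :=
        Finset.sum_congr rfl fun i _ => Finset.sum_congr rfl fun j _ => by ring
      linarith
    have h6 : ∑ i, y.ofLp i * (h.eigenvalues₀ m • (B m).ofLp) i =
        h.eigenvalues₀ m * ∑ i, (B m).ofLp i * y.ofLp i := by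
      rw [Finset.mul_sum]
      exact Finset.sum_congr rfl fun i _ => by simp only [Pi.smul_apply, smul_eq_mul]; ring
    rw [hin (B m) (WithLp.toLp 2 _), h5, hB, h6, real_inner_comm, hin (B m) y]
    ring
  have hpos : ∀ m, 0 ≤ h.eigenvalues₀ m := fun m => by
    have h1 := hform (B m)
    simp only [orthonormal_iff_ite.1 B.orthonormal, ite_pow, one_pow, mul_ite, mul_one,
      zero_pow two_ne_zero, mul_zero, Finset.sum_ite_eq', Finset.mem_univ, if_true] at h1
    rw [← h1]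
    exact div_nonneg (Finset.sum_nonneg fun i _ => Finset.sum_nonneg fun j _ =>
      mul_nonneg (h0 i j) (sq_nonneg _)) zero_le_two
  obtain ⟨o, ho⟩ : ∃ o : EuclideanSpace ℝ (Fin n), o = WithLp.toLp 2 fun _ => 1 := ⟨_, rfl⟩
  obtain ⟨K, hK⟩ : ∃ K : Submodule ℝ (EuclideanSpace ℝ (Fin n)),
      K = Submodule.span ℝ (↑(insert o (Sᶜ.image B)) : Set (EuclideanSpace ℝ (Fin n))) := ⟨_, rfl⟩
  have hk : k ≤ Module.finrank ℝ Kᗮ := by
    have h1 := K.finrank_add_finrank_orthogonal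
    have h2 : Module.finrank ℝ K ≤ (insert o (Sᶜ.image B)).card :=
      hK ▸ finrank_span_finset_le_card _
    have h3 := Finset.card_insert_le o (Sᶜ.image B)
    have h4 := Finset.card_image_le (s := Sᶜ) (f := B)
    have h5 := Finset.card_add_card_compl S
    rw [finrank_euclideanSpace] at h1
    rw [Fintype.card_fin (Fintype.card (Fin n))] at h5
    omega
  obtain ⟨U, hU, hUK⟩ : ∃ U : Fin k → EuclideanSpace ℝ (Fin n), Orthonormal ℝ U ∧ ∀ a, U a ∈ Kᗮ :=
    ⟨fun a => stdOrthonormalBasis ℝ Kᗮ (Fin.castLE hk a),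
      ((stdOrthonormalBasis ℝ Kᗮ).orthonormal.comp _ (Fin.castLE_injective hk)).comp_linearIsometry
        Kᗮ.subtypeₗᵢ, fun a => Subtype.mem _⟩
  have hz : ∀ a, ∀ z ∈ insert o (Sᶜ.image B), inner ℝ z (U a) = 0 := fun a z hz =>
    Submodule.inner_right_of_mem_orthogonal (hK ▸ Submodule.subset_span hz) (hUK a)
  have hF : ∀ a, (∑ i, ∑ j, w i j * (U a i - U a j) ^ 2) / 2 =
      ∑ m ∈ S, h.eigenvalues₀ m * inner ℝ (B m) (U a) ^ 2 := fun a => by
    rw [hform, ← Finset.sum_add_sum_compl S, Finset.sum_eq_zero (s := Sᶜ), add_zero]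
    intro m hm
    rw [hz a _ (Finset.mem_insert_of_mem (Finset.mem_image_of_mem _ hm))]
    ring
  refine ⟨fun a => (U a).ofLp, fun a => ?_, fun a b => ?_, ?_, fun x hx => ?_⟩
  · have := hz a o (Finset.mem_insert_self _ _)
    simpa [hin, ho] using this
  · rw [← hin]; exact orthonormal_iff_ite.1 hU a b
  · simp only [hF]
    rw [Finset.sum_comm]
    refine Finset.sum_le_sum fun m _ => ?_
    rw [← Finset.mul_sum]
    refine mul_le_of_le_one_right (hpos m) ?_
    have := hU.sum_inner_products_le (B m) (s := univ)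
    simp only [B.orthonormal.1 m, one_pow, Real.norm_eq_abs, sq_abs] at this
    simpa only [real_inner_comm] using this
  · obtain ⟨m0, hm0⟩ := Finset.card_pos.1 (show 0 < S.card by omega)
    have x0 : 0 ≤ x := (hpos m0).trans (hx m0 hm0)
    have : ∀ a, (∑ i, ∑ j, w i j * (U a i - U a j) ^ 2) / 2 ≤ x := fun a => by
      rw [hF]
      refine (Finset.sum_le_sum fun m hm =>
        mul_le_mul_of_nonneg_right (hx m hm) (sq_nonneg _)).trans ?_
      rw [← Finset.mul_sum]
      refine mul_le_of_le_one_right x0 ?_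
      have := B.orthonormal.sum_inner_products_le (U a) (s := S)
      simpa only [hU.1 a, one_pow, Real.norm_eq_abs, sq_abs] using this
    refine (Finset.sum_le_sum fun a _ => this a).trans ?_
    simp

end Pool.Agent.Lib.MP_3a2c26_co
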