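import Pool.Agent.Lib.MP_3a2c26_co.RigidEig

set_option autoImplicit false

namespace Pool.Agent.Lib.MP_3a2c26_co.OldEqualityCase

open Pool.Agent.Lib.MP_3a2c26_co

/-- On at least five vertices, equality `x + y - 2xy/n = 1` for two Rayleigh quotients forces an
isolated vertex, a vertex with all weights `1`, or an `SE(s)` graph with `0 < s < 1`. -/
theorem result (n : ℕ) (hn : 5 ≤ n) (w : Fin n → Fin n → ℝ) (hw : ∀ i j, w i j = w j i)
    (h01 : ∀ i j, 0 ≤ w i j ∧ w i j ≤ 1) (u v : Fin n → ℝ) (hu : ∑ i, u i = 0) (hv : ∑ i, v i = 0)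
    (hu0 : u ≠ 0) (hv0 : v ≠ 0) (x y : ℝ)
    (hx : x = (∑ i, ∑ j, w i j * (u i - u j) ^ 2) / (2 * ∑ i, u i ^ 2))
    (hy : y = (∑ i, ∑ j, (1 - w i j) * (v i - v j) ^ 2) / (2 * ∑ i, v i ^ 2))
    (heq : x + y - 2 * x * y / n = 1) :
    (∃ a, ∀ k, k ≠ a → w a k = 0) ∨ (∃ b, ∀ k, k ≠ b → w b k = 1) ∨
      ∃ a b, a ≠ b ∧ 0 < w a b ∧ w a b < 1 ∧ ∀ k, k ≠ a → k ≠ b → w a k = 0 ∧ w b k = 1 := by
  have h := rigid (by rw [Fintype.card_fin]; exact hn) w hw h01 u v hu hv hu0 hv0 x y hx hy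
    (by rw [Fintype.card_fin]; exact heq)
  rcases h with ⟨a, ha⟩ | ⟨b, hb⟩ | ⟨a, b, hab, h⟩
  · exact Or.inl ⟨a, fun k hk => by linarith [ha k hk]⟩
  · exact Or.inr (Or.inl ⟨b, fun k hk => by linarith [hb k hk]⟩)
  have h' : ∀ k, k ≠ a → k ≠ b → w a k = 0 ∧ w b k = 1 := fun k h1 h2 =>
    ⟨by linarith [(h k h1 h2).1], by linarith [(h k h1 h2).2]⟩
  rcases (h01 a b).1.eq_or_lt with h0 | h0
  · refine Or.inl ⟨a, fun k hk => ?_⟩
    by_cases hkb : k = b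
    · rw [hkb, ← h0]
    · exact (h' k hk hkb).1
  rcases (h01 a b).2.eq_or_lt with h1 | h1
  · refine Or.inr (Or.inl ⟨b, fun k hk => ?_⟩)
    by_cases hka : k = a
    · rw [hka, hw, h1]
    · exact (h' k hka hk).2
  exact Or.inr (Or.inr ⟨a, b, hab, h0, h1, h'⟩)

/-- For the second smallest eigenvalues `x = λ₂(G) > 0` and `y = λ₂(Gᶜ) > 0`, equality forces an
`SE(s)` graph. -/
theorem eigenvalue_form (n : ℕ) (hn : 5 ≤ n) (w : Fin n → Fin n → ℝ) (hw : ∀ i j, w i j = w j i)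
    (h01 : ∀ i j, 0 ≤ w i j ∧ w i j ≤ 1) (h : (lap w).IsHermitian)
    (h' : (lap fun i j => 1 - w i j).IsHermitian) (k : Fin (Fintype.card (Fin n)))
    (hk : k.val + 2 = n) (x y : ℝ) (hx : x = h.eigenvalues₀ k) (hy : y = h'.eigenvalues₀ k)
    (hx0 : 0 < x) (hy0 : 0 < y) (heq : x + y - 2 * x * y / n = 1) :
    ∃ a b, a ≠ b ∧ 0 < w a b ∧ w a b < 1 ∧ ∀ k, k ≠ a → k ≠ b → w a k = 0 ∧ w b k = 1 := by
  have hw' : ∀ i j, 1 - w i j = 1 - w j i := fun i j => by rw [hw]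
  obtain ⟨u, hu, hu0, eu⟩ := exists_fiedler w hw (fun i j => (h01 i j).1) h k hk
  obtain ⟨v, hv, hv0, ev⟩ := exists_fiedler (fun i j => 1 - w i j) hw'
    (fun i j => sub_nonneg.2 (h01 i j).2) h' k hk
  rcases result n hn w hw h01 u v hu hv hu0 hv0 x y (hx.trans (rayleigh_eq w hw u hu0 _ eu))
    (hy.trans (rayleigh_eq (fun i j => 1 - w i j) hw' v hv0 _ ev)) heq with ⟨a, ha⟩ | ⟨b, hb⟩ | h3
  · linarith [eig_isolated w hw h k hk a ha]
  · linarith [eig_isolated (fun i j => 1 - w i j) hw' h' k hk b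
      (fun j hj => by rw [hb j hj, sub_self])]
  · exact h3

theorem quot_pos {n : ℕ} (w : Fin n → Fin n → ℝ) (h0 : ∀ i j, 0 ≤ w i j) (u : Fin n → ℝ)
    (hu : ∑ i, u i = 0) (hu0 : u ≠ 0) (b : Fin n) (hb : ∀ k, k ≠ b → 0 < w b k) :
    0 < (∑ i, ∑ j, w i j * (u i - u j) ^ 2) / (2 * ∑ i, u i ^ 2) := by
  obtain ⟨i, hi⟩ := Function.ne_iff.1 hu0
  have hi' : u i ≠ 0 := hi
  have p : 0 < ∑ i, u i ^ 2 :=
    Finset.sum_pos' (fun i _ => sq_nonneg _) ⟨i, Finset.mem_univ _, by positivity⟩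
  have hk : ∃ k, u b ≠ u k := by
    by_contra h
    push Not at h
    rw [Finset.sum_congr rfl fun k _ => (h k).symm, Finset.sum_const, nsmul_eq_mul,
      mul_eq_zero] at hu
    rcases hu with hu | hu
    · have := Finset.card_pos.2 ⟨b, Finset.mem_univ b⟩
      exact this.ne' (by exact_mod_cast hu)
    · exact hi' (by rw [← h i, hu])
  obtain ⟨k, hk⟩ := hk
  have hnn : ∀ i j, 0 ≤ w i j * (u i - u j) ^ 2 := fun i j => mul_nonneg (h0 i j) (sq_nonneg _)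
  refine div_pos (Finset.sum_pos' (fun i _ => Finset.sum_nonneg fun j _ => hnn i j)
    ⟨b, Finset.mem_univ _, Finset.sum_pos' (fun j _ => hnn b j) ⟨k, Finset.mem_univ _, ?_⟩⟩)
    (by positivity)
  have h1 : u b - u k ≠ 0 := sub_ne_zero.2 hk
  exact mul_pos (hb k fun e => hk (by rw [e])) (by positivity)

/-- Equality `x + y = 1` needs an isolated vertex in the graph or in its complement. -/
theorem sum_eq_one (n : ℕ) (hn : 5 ≤ n) (w : Fin n → Fin n → ℝ) (hw : ∀ i j, w i j = w j i)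
    (h01 : ∀ i j, 0 ≤ w i j ∧ w i j ≤ 1) (u v : Fin n → ℝ) (hu : ∑ i, u i = 0) (hv : ∑ i, v i = 0)
    (hu0 : u ≠ 0) (hv0 : v ≠ 0) (x y : ℝ)
    (hx : x = (∑ i, ∑ j, w i j * (u i - u j) ^ 2) / (2 * ∑ i, u i ^ 2))
    (hy : y = (∑ i, ∑ j, (1 - w i j) * (v i - v j) ^ 2) / (2 * ∑ i, v i ^ 2)) (heq : x + y = 1) :
    (∃ a, ∀ k, k ≠ a → w a k = 0) ∨ ∃ b, ∀ k, k ≠ b → w b k = 1 := by
  have h1 := rayleigh (by rw [Fintype.card_fin]; omega) w hw h01 u v hu hv hu0 hv0 x y hx hy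
  rw [Fintype.card_fin] at h1
  have hn' : (0 : ℝ) < n := by exact_mod_cast (show 0 < n by omega)
  have hx0 : 0 ≤ x := by
    rw [hx]
    exact div_nonneg (Finset.sum_nonneg fun i _ => Finset.sum_nonneg fun j _ =>
      mul_nonneg (h01 i j).1 (sq_nonneg _)) (by positivity)
  have hy0 : 0 ≤ y := by
    rw [hy]
    exact div_nonneg (Finset.sum_nonneg fun i _ => Finset.sum_nonneg fun j _ =>
      mul_nonneg (sub_nonneg.2 (h01 i j).2) (sq_nonneg _)) (by positivity)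
  have h2 : 0 ≤ 2 * x * y / n := by positivity
  rcases result n hn w hw h01 u v hu hv hu0 hv0 x y hx hy (by linarith) with
    h | h | ⟨a, b, hab, h3, h4, h5⟩
  · exact Or.inl h
  · exact Or.inr h
  exfalso
  have px : 0 < x := hx ▸ quot_pos w (fun i j => (h01 i j).1) u hu hu0 b fun k hk => by
    by_cases hka : k = a
    · rw [hka, hw]; exact h3
    · rw [(h5 k hka hk).2]; exact one_pos
  have py : 0 < y := hy ▸ quot_pos (fun i j => 1 - w i j) (fun i j => sub_nonneg.2 (h01 i j).2)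
    v hv hv0 a fun k hk => by
      by_cases hkb : k = b
      · rw [hkb]; exact sub_pos.2 h4
      · rw [(h5 k hk hkb).1]; norm_num
  have : 0 < 2 * x * y / n := by positivity
  linarith

end Pool.Agent.Lib.MP_3a2c26_co.OldEqualityCase
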