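import Pool.Agent.Lib.MP_3a2c26_co.KyFanEig

set_option autoImplicit false

namespace Pool.Agent.Lib.MP_3a2c26_co.OldKyFan

open Pool.Agent.Lib.MP_3a2c26_co

/-- For every `[0,1]`-weighted graph, `k` orthonormal vectors for `G` and `l` orthonormal vectors
for `Gᶜ`, all orthogonal to the all-ones vector, have Laplacian forms of total at least
`k l (1 - O(1/n))`. -/
theorem result (n k l : ℕ) (hn : 8 * (k + l + 2) < n) (w : Fin n → Fin n → ℝ)
    (_hw : ∀ i j, w i j = w j i) (h01 : ∀ i j, 0 ≤ w i j ∧ w i j ≤ 1)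
    (u : Fin k → Fin n → ℝ) (v : Fin l → Fin n → ℝ)
    (hu : ∀ a, ∑ i, u a i = 0) (hv : ∀ b, ∑ i, v b i = 0)
    (hu' : ∀ a a', ∑ i, u a i * u a' i = if a = a' then 1 else 0)
    (hv' : ∀ b b', ∑ i, v b i * v b' i = if b = b' then 1 else 0) :
    (k : ℝ) * l * (1 - 64 / ((n : ℝ) - 8 * (k + l + 2))) ≤
      ∑ a, (∑ i, ∑ j, w i j * (u a i - u a j) ^ 2) / 2 +
        ∑ b, (∑ i, ∑ j, (1 - w i j) * (v b i - v b j) ^ 2) / 2 := by
  have := kf_rayleigh w h01 u v hu hv hu' hv' (by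
    simp only [Fintype.card_fin]; exact_mod_cast hn)
  simpa only [Fintype.card_fin] using this

/-- Any `k + 1` eigenvalues of `L(G)` and `l + 1` eigenvalues of `L(Gᶜ)`, in particular the
smallest ones `0 = λ₁, …, λ_{k+1}` and `0 = λ₁, …, λ_{l+1}`. -/
theorem eigenvalue_sums (n k l : ℕ) (hn : 8 * (k + l + 2) < n) (w : Fin n → Fin n → ℝ)
    (hw : ∀ i j, w i j = w j i) (h01 : ∀ i j, 0 ≤ w i j ∧ w i j ≤ 1) (h : (lap w).IsHermitian)
    (h' : (lap fun i j => 1 - w i j).IsHermitian) (S T : Finset (Fin (Fintype.card (Fin n))))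
    (hS : S.card = k + 1) (hT : T.card = l + 1) :
    (k : ℝ) * l * (1 - 64 / ((n : ℝ) - 8 * (k + l + 2))) ≤
      ∑ m ∈ S, h.eigenvalues₀ m + ∑ m ∈ T, h'.eigenvalues₀ m := by
  obtain ⟨u, hu, hu', e1, -⟩ := kf_frame w hw (fun i j => (h01 i j).1) h k S hS
  obtain ⟨v, hv, hv', e2, -⟩ := kf_frame (fun i j => 1 - w i j) (fun i j => by rw [hw])
    (fun i j => sub_nonneg.2 (h01 i j).2) h' l T hT
  exact (result n k l hn w hw h01 u v hu hv hu' hv').trans (add_le_add e1 e2)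

/-- The eigenvalues are listed in decreasing order, so the index `m = n - 1 - k` gives
`λ_{k+1}(G) + λ_{k+1}(Gᶜ) ≥ k (1 - O(1/n))`. -/
theorem single_eigenvalue (n k : ℕ) (hk : 0 < k) (hn : 16 * (k + 1) < n) (w : Fin n → Fin n → ℝ)
    (hw : ∀ i j, w i j = w j i) (h01 : ∀ i j, 0 ≤ w i j ∧ w i j ≤ 1) (h : (lap w).IsHermitian)
    (h' : (lap fun i j => 1 - w i j).IsHermitian) (m : Fin (Fintype.card (Fin n)))
    (hm : m.val + k + 1 = n) :
    (k : ℝ) * (1 - 64 / ((n : ℝ) - 16 * (k + 1))) ≤ h.eigenvalues₀ m + h'.eigenvalues₀ m := by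
  have hc : (Finset.Ici m).card = k + 1 := by
    have := Fintype.card_fin n
    rw [Fin.card_Ici]
    omega
  obtain ⟨u, hu, hu', -, e1⟩ := kf_frame w hw (fun i j => (h01 i j).1) h k _ hc
  obtain ⟨v, hv, hv', -, e2⟩ := kf_frame (fun i j => 1 - w i j) (fun i j => by rw [hw])
    (fun i j => sub_nonneg.2 (h01 i j).2) h' k _ hc
  have e3 := (result n k k (by omega) w hw h01 u v hu hv hu' hv').trans (add_le_add
    (e1 _ fun _ a => h.eigenvalues₀_antitone (Finset.mem_Ici.1 a))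
    (e2 _ fun _ a => h'.eigenvalues₀_antitone (Finset.mem_Ici.1 a)))
  have k0 : (0 : ℝ) < k := by exact_mod_cast hk
  rw [show (8 : ℝ) * (k + k + 2) = 16 * (k + 1) by ring, mul_assoc, ← mul_add] at e3
  exact le_of_mul_le_mul_left e3 k0

end Pool.Agent.Lib.MP_3a2c26_co.OldKyFan
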