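import Pool.Agent.Lib.MP_3a2c26_co.RigidComb

/-! The case of equality in the hyperbola bound. -/

set_option autoImplicit false

namespace Pool.Agent.Lib.MP_3a2c26_co

open Finset

variable {ι : Type} [Fintype ι]

lemma rigid_single3 (F : ι → ι → ι → ℝ) (h : ∀ i j l, 0 ≤ F i j l) (i j l : ι) :
    F i j l ≤ ∑ i, ∑ j, ∑ l, F i j l :=
  calc F i j l ≤ ∑ l, F i j l := Finset.single_le_sum (fun l _ => h i j l) (mem_univ l)
    _ ≤ ∑ j, ∑ l, F i j l := Finset.single_le_sum (f := fun j => ∑ l, F i j l)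
        (fun j _ => Finset.sum_nonneg fun l _ => h i j l) (mem_univ j)
    _ ≤ _ := Finset.single_le_sum (f := fun i => ∑ j, ∑ l, F i j l)
        (fun i _ => Finset.sum_nonneg fun j _ => Finset.sum_nonneg fun l _ => h i j l) (mem_univ i)

lemma rigid_single4 (F : ι → ι → ι → ι → ℝ) (h : ∀ i j k l, 0 ≤ F i j k l) (i j k l : ι) :
    F i j k l ≤ ∑ i, ∑ j, ∑ k, ∑ l, F i j k l :=
  (rigid_single3 (F i) (h i) j k l).trans (Finset.single_le_sum
    (f := fun i => ∑ j, ∑ k, ∑ l, F i j k l) (fun i _ => Finset.sum_nonneg fun j _ =>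
      Finset.sum_nonneg fun k _ => Finset.sum_nonneg fun l _ => h i j k l) (mem_univ i))

/-- the triangle bound with one slack term -/
lemma sum_tri_slack (s : ι → ι → ℝ) (hs : ∀ i j, s i j = s j i) (h1 : ∀ i j, |s i j| ≤ 1)
    (x y : ι → ℝ) (a b c : ι) :
    2 * ∑ i, ∑ j, ∑ l, D x y i j l ^ 2 +
        (1 + (s a b * s b c + s b c * s a c + s a c * s a b)) * D x y a b c ^ 2
      ≤ 3 * ∑ i, ∑ j, ∑ l, (1 + s i j * s i l) * D x y i j l ^ 2 := by
  have e1 : ∑ i, ∑ j, ∑ l, (1 + s i j * s i l) * D x y i j l ^ 2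
      = ∑ i, ∑ j, ∑ l, (1 + s i j * s j l) * D x y i j l ^ 2 := by
    rw [Finset.sum_comm]
    refine Finset.sum_congr rfl fun i _ => Finset.sum_congr rfl fun j _ =>
      Finset.sum_congr rfl fun l _ => ?_
    rw [hs j i]; simp only [D]; ring
  have e2 : ∑ i, ∑ j, ∑ l, (1 + s i j * s j l) * D x y i j l ^ 2
      = ∑ i, ∑ j, ∑ l, (1 + s j l * s i l) * D x y i j l ^ 2 := by
    refine Finset.sum_congr rfl fun i _ => ?_
    rw [Finset.sum_comm]
    refine Finset.sum_congr rfl fun j _ => Finset.sum_congr rfl fun l _ => ?_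
    rw [hs l j]; simp only [D]; ring
  have e3 : 3 * ∑ i, ∑ j, ∑ l, (1 + s i j * s i l) * D x y i j l ^ 2
      = ∑ i, ∑ j, ∑ l, ((1 + s i j * s i l) * D x y i j l ^ 2
        + (1 + s i j * s j l) * D x y i j l ^ 2 + (1 + s j l * s i l) * D x y i j l ^ 2) := by
    simp only [Finset.sum_add_distrib]
    rw [← e2, ← e1]; ring
  have e4 : ∑ i, ∑ j, ∑ l, ((1 + s i j * s i l) * D x y i j l ^ 2
        + (1 + s i j * s j l) * D x y i j l ^ 2 + (1 + s j l * s i l) * D x y i j l ^ 2)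
      = 2 * ∑ i, ∑ j, ∑ l, D x y i j l ^ 2 + ∑ i, ∑ j, ∑ l,
        (1 + (s i j * s j l + s j l * s i l + s i l * s i j)) * D x y i j l ^ 2 := by
    simp only [Finset.mul_sum, ← Finset.sum_add_distrib]
    refine Finset.sum_congr rfl fun i _ => Finset.sum_congr rfl fun j _ =>
      Finset.sum_congr rfl fun l _ => by ring
  rw [e3, e4]
  have := rigid_single3 (fun i j l =>
    (1 + (s i j * s j l + s j l * s i l + s i l * s i j)) * D x y i j l ^ 2) (fun i j l => by
      have := tri (s i j) (s j l) (s i l) (h1 _ _) (h1 _ _) (h1 _ _)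
      exact mul_nonneg (by linarith) (sq_nonneg _)) a b c
  linarith

/-- the bound by adjacent pairs of edges with one slack term -/
lemma four_slack (s : ι → ι → ℝ) (hs : ∀ i j, s i j = s j i) (h1 : ∀ i j, |s i j| ≤ 1)
    (x y : ι → ℝ) (a b c d : ι) (ca : c ≠ a) (da : d ≠ a) (cb : c ≠ b) (db : d ≠ b) :
    4 * ∑ i, ∑ j, ∑ l, (1 + s i j * s i l) * D x y i j l ^ 2 +
        (1 + s a b * s c d) * W x y a b c d ^ 2
      ≤ ∑ i, ∑ j, ∑ k, ∑ l, (1 + s i j * s k l) * W x y i j k l ^ 2 := by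
  classical
  set T : ι → ι → ι → ι → ℝ := fun i j k l => (1 + s i j * s k l) * W x y i j k l ^ 2 with hT
  have hpos : ∀ i j k l, 0 ≤ T i j k l := by
    intro i j k l
    have : |s i j * s k l| ≤ 1 := by
      rw [abs_mul]; exact mul_le_one₀ (h1 _ _) (abs_nonneg _) (h1 _ _)
    have := (abs_le.1 this).1
    exact mul_nonneg (by linarith) (sq_nonneg _)
  have hpt : ∀ i j k l, 0 ≤ T i j k l - ((if k = i then T i j k l else 0)
      + (if l = i then T i j k l else 0) + (if k = j then T i j k l else 0)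
      + (if l = j then T i j k l else 0)) := by
    intro i j k l
    have h0 := hpos i j k l
    by_cases hz : T i j k l = 0
    · simp [hz]
    have n1 : ¬ (k = i ∧ l = i) := by
      rintro ⟨rfl, rfl⟩; apply hz; simp only [hT, W]; ring
    have n2 : ¬ (k = i ∧ k = j) := by
      rintro ⟨rfl, rfl⟩; apply hz; simp only [hT, W]; ring
    have n3 : ¬ (k = i ∧ l = j) := by
      rintro ⟨rfl, rfl⟩; apply hz; simp only [hT, W]; ring
    have n4 : ¬ (l = i ∧ k = j) := by
      rintro ⟨rfl, rfl⟩; apply hz; simp only [hT, W]; ring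
    have n5 : ¬ (l = i ∧ l = j) := by
      rintro ⟨rfl, rfl⟩; apply hz; simp only [hT, W]; ring
    have n6 : ¬ (k = j ∧ l = j) := by
      rintro ⟨rfl, rfl⟩; apply hz; simp only [hT, W]; ring
    split_ifs <;> first | linarith | tauto
  have hsum := rigid_single4 _ hpt a b c d
  simp only [ca, da, cb, db, if_false, add_zero, sub_zero, Finset.sum_sub_distrib,
    Finset.sum_add_distrib] at hsum
  have a1 : ∑ i, ∑ j, ∑ k, ∑ l, (if k = i then T i j k l else 0)
      = ∑ i, ∑ j, ∑ l, (1 + s i j * s i l) * D x y i j l ^ 2 := by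
    refine Finset.sum_congr rfl fun i _ => Finset.sum_congr rfl fun j _ => ?_
    rw [Finset.sum_comm]
    refine Finset.sum_congr rfl fun l _ => ?_
    simp only [Finset.sum_ite_eq', Finset.mem_univ, if_true, hT, W, D]
  have a2 : ∑ i, ∑ j, ∑ k, ∑ l, (if l = i then T i j k l else 0)
      = ∑ i, ∑ j, ∑ l, (1 + s i j * s i l) * D x y i j l ^ 2 := by
    refine Finset.sum_congr rfl fun i _ => Finset.sum_congr rfl fun j _ =>
      Finset.sum_congr rfl fun l _ => ?_
    simp only [Finset.sum_ite_eq', Finset.mem_univ, if_true, hT, W, D]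
    rw [hs l i]; ring
  have a3 : ∑ i, ∑ j, ∑ k, ∑ l, (if k = j then T i j k l else 0)
      = ∑ i, ∑ j, ∑ l, (1 + s i j * s i l) * D x y i j l ^ 2 := by
    rw [Finset.sum_comm]
    refine Finset.sum_congr rfl fun i _ => Finset.sum_congr rfl fun j _ => ?_
    rw [Finset.sum_comm]
    refine Finset.sum_congr rfl fun l _ => ?_
    simp only [Finset.sum_ite_eq', Finset.mem_univ, if_true, hT, W, D]
    rw [hs j i]; ring
  have a4 : ∑ i, ∑ j, ∑ k, ∑ l, (if l = j then T i j k l else 0)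
      = ∑ i, ∑ j, ∑ l, (1 + s i j * s i l) * D x y i j l ^ 2 := by
    rw [Finset.sum_comm]
    refine Finset.sum_congr rfl fun i _ => Finset.sum_congr rfl fun j _ =>
      Finset.sum_congr rfl fun l _ => ?_
    simp only [Finset.sum_ite_eq', Finset.mem_univ, if_true, hT, W, D]
    rw [hs j i, hs l i]; ring
  rw [a1, a2, a3, a4] at hsum
  linarith

/-- The Cauchy-Binet identity behind the determinant inequality. -/
lemma rigid_binet (s : ι → ι → ℝ) (x y : ι → ℝ) (hx : ∑ i, x i = 0) (hy : ∑ i, y i = 0) :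
    ∑ i, ∑ j, ∑ k, ∑ l, (1 + s i j * s k l) * W x y i j k l ^ 2
      = 8 * (Fintype.card ι : ℝ) ^ 2 *
          ((∑ i, x i ^ 2) * (∑ i, y i ^ 2) - (∑ i, x i * y i) ^ 2) +
        2 * ((∑ i, ∑ j, s i j * (x i - x j) ^ 2) * (∑ i, ∑ j, s i j * (y i - y j) ^ 2)
          - (∑ i, ∑ j, s i j * ((x i - x j) * (y i - y j))) ^ 2) := by
  have L1 := lagrange (fun e : ι × ι => s e.1 e.2) (fun e => x e.1 - x e.2)
    (fun e => y e.1 - y e.2)
  have L0 := lagrange (fun _ : ι × ι => (1 : ℝ)) (fun e => x e.1 - x e.2)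
    (fun e => y e.1 - y e.2)
  simp only [Fintype.sum_prod_type, one_mul] at L1 L0
  have N1 := sum_diff_mul x x hx hx
  have N2 := sum_diff_mul y y hy hy
  have N3 := sum_diff_mul x y hx hy
  simp only [← sq] at N1 N2
  rw [N1, N2, N3] at L0
  have S : ∑ i, ∑ j, ∑ k, ∑ l, (1 + s i j * s k l) * W x y i j k l ^ 2
      = (∑ i, ∑ j, ∑ k, ∑ l, ((x i - x j) * (y k - y l) - (x k - x l) * (y i - y j)) ^ 2)
        + ∑ i, ∑ j, ∑ k, ∑ l, s i j * s k l *
          ((x i - x j) * (y k - y l) - (x k - x l) * (y i - y j)) ^ 2 := by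
    simp only [← Finset.sum_add_distrib, W]
    refine Finset.sum_congr rfl fun i _ => Finset.sum_congr rfl fun j _ =>
      Finset.sum_congr rfl fun k _ => Finset.sum_congr rfl fun l _ => by ring
  rw [S, L0, L1]
  ring

theorem rigid (hn : 5 ≤ Fintype.card ι) (w : ι → ι → ℝ) (hw : ∀ i j, w i j = w j i)
    (h01 : ∀ i j, 0 ≤ w i j ∧ w i j ≤ 1) (x y : ι → ℝ) (hx : ∑ i, x i = 0) (hy : ∑ i, y i = 0)
    (hx0 : x ≠ 0) (hy0 : y ≠ 0) (X Y : ℝ)
    (hX : X = (∑ i, ∑ j, w i j * (x i - x j) ^ 2) / (2 * ∑ i, x i ^ 2))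
    (hY : Y = (∑ i, ∑ j, (1 - w i j) * (y i - y j) ^ 2) / (2 * ∑ i, y i ^ 2))
    (heq : X + Y - 2 * X * Y / (Fintype.card ι : ℝ) = 1) :
    Shape fun i j => 2 * w i j - 1 := by
  have pos : ∀ z : ι → ℝ, z ≠ 0 → 0 < ∑ i, z i ^ 2 := by
    intro z hz
    obtain ⟨i, hi⟩ := Function.ne_iff.1 hz
    exact Finset.sum_pos' (fun i _ => sq_nonneg _) ⟨i, Finset.mem_univ _, by
      have : z i ≠ 0 := hi
      positivity⟩
  have px := pos x hx0
  have py := pos y hy0
  have hs : ∀ i j, 2 * w i j - 1 = 2 * w j i - 1 := fun i j => by rw [hw]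
  have h1 : ∀ i j, |2 * w i j - 1| ≤ 1 := fun i j => by
    have := h01 i j; rw [abs_le]; constructor <;> linarith
  have B := rigid_binet (fun i j => 2 * w i j - 1) x y hx hy
  have F0 := four_le (fun i j => 2 * w i j - 1) hs h1 x y
  have T0 := sum_tri (fun i j => 2 * w i j - 1) hs h1 x y
  have F1 := four_slack (fun i j => 2 * w i j - 1) hs h1 x y
  have T1 := sum_tri_slack (fun i j => 2 * w i j - 1) hs h1 x y
  have SD := sum_D_sq x y hx hy
  have N1 := sum_diff_mul x x hx hx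
  have N2 := sum_diff_mul y y hy hy
  simp only [← sq] at N1 N2
  set n : ℝ := (Fintype.card ι : ℝ) with hn'
  have hn5 : (5 : ℝ) ≤ n := by rw [hn']; exact_mod_cast hn
  have Qx : ∑ i, ∑ j, (2 * w i j - 1) * (x i - x j) ^ 2 = 2 * (∑ i, x i ^ 2) * (2 * X - n) := by
    have : ∑ i, ∑ j, (2 * w i j - 1) * (x i - x j) ^ 2
        = 2 * (∑ i, ∑ j, w i j * (x i - x j) ^ 2) - ∑ i, ∑ j, (x i - x j) ^ 2 := by
      simp only [Finset.mul_sum, ← Finset.sum_sub_distrib]
      refine Finset.sum_congr rfl fun i _ => Finset.sum_congr rfl fun j _ => by ring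
    rw [this, N1, hX]; field_simp
  have Qy : ∑ i, ∑ j, (2 * w i j - 1) * (y i - y j) ^ 2 = 2 * (∑ i, y i ^ 2) * (n - 2 * Y) := by
    have : ∑ i, ∑ j, (2 * w i j - 1) * (y i - y j) ^ 2
        = (∑ i, ∑ j, (y i - y j) ^ 2) - 2 * (∑ i, ∑ j, (1 - w i j) * (y i - y j) ^ 2) := by
      simp only [Finset.mul_sum, ← Finset.sum_sub_distrib]
      refine Finset.sum_congr rfl fun i _ => Finset.sum_congr rfl fun j _ => by ring
    rw [this, N2, hY]; field_simp
  have hcurve : (2 * X - n) * (n - 2 * Y) = 2 * n - n ^ 2 := by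
    have h2 : 2 * X * Y = (X + Y - 1) * n := by
      rw [← div_eq_iff (by linarith)]; linarith
    linear_combination (-2) * h2
  rw [Qx, Qy] at B
  rw [B] at F0 F1
  rw [SD] at T0 T1
  generalize ∑ i, ∑ j, ∑ l, (1 + (2 * w i j - 1) * (2 * w i l - 1)) * D x y i j l ^ 2 = A
    at F0 F1 T0 T1
  generalize ∑ i, ∑ j, (2 * w i j - 1) * ((x i - x j) * (y i - y j)) = q at F0 F1
  generalize ∑ i, x i ^ 2 = u at F0 F1 T0 T1 SD px
  generalize ∑ i, y i ^ 2 = v at F0 F1 T0 T1 SD py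
  generalize ∑ i, x i * y i = c at F0 F1 T0 T1 SD
  have hR : 2 * u * (2 * X - n) * (2 * v * (n - 2 * Y)) = 4 * (u * v) * (2 * n - n ^ 2) := by
    rw [← hcurve]; ring
  rw [hR] at F0 F1
  have hq := sq_nonneg q
  have hc : 0 ≤ n * (n - 2) * c ^ 2 :=
    mul_nonneg (mul_nonneg (by linarith) (by linarith)) (sq_nonneg c)
  have hc0 : n * (n - 2) * c ^ 2 = 0 := by nlinarith
  have hc1 : c ^ 2 = 0 := by
    rcases mul_eq_zero.1 hc0 with h | h
    · nlinarith
    · exact h
  have ht : Tight (fun i j => 2 * w i j - 1) x y := by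
    refine ⟨hs, h1, fun i j k l a1 a2 a3 a4 a5 => ?_, fun i j l a5 => ?_⟩
    · have b1 := F1 i j k l a1 a2 a3 a4
      have b2 : |(2 * w i j - 1) * (2 * w k l - 1)| ≤ 1 := by
        rw [abs_mul]; exact mul_le_one₀ (h1 _ _) (abs_nonneg _) (h1 _ _)
      have b3 := (abs_le.1 b2).1
      have b4 : 0 < W x y i j k l ^ 2 := by positivity
      have b5 : (1 + (2 * w i j - 1) * (2 * w k l - 1)) * W x y i j k l ^ 2 ≤ 0 := by
        rw [hc1] at b1 T0
        nlinarith
      have b6 := nonpos_of_mul_nonpos_left b5 b4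
      linarith
    · have b1 := T1 i j l
      have b3 := tri _ _ _ (h1 i j) (h1 j l) (h1 i l)
      have b4 : 0 < D x y i j l ^ 2 := by positivity
      have b5 : (1 + ((2 * w i j - 1) * (2 * w j l - 1) + (2 * w j l - 1) * (2 * w i l - 1) +
          (2 * w i l - 1) * (2 * w i j - 1))) * D x y i j l ^ 2 ≤ 0 := by
        rw [hc1] at b1 F0
        nlinarith
      have b6 := nonpos_of_mul_nonpos_left b5 b4
      linarith
  by_contra hcon
  have hz : ∀ i j l, D x y i j l = 0 := fun i j l => by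
    by_contra h
    exact hcon (rigid_shape hn ht h)
  simp only [hz, hc1] at SD
  have : 0 < n * (u * v) := mul_pos (by linarith) (mul_pos px py)
  simp at SD
  rcases SD with h | h | h <;> nlinarith

end Pool.Agent.Lib.MP_3a2c26_co
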