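import Pool.Agent.Lib.MP_3a2c26_co.Main

/-! The sign patterns that leave no slack in the determinant inequality. -/

set_option autoImplicit false

namespace Pool.Agent.Lib.MP_3a2c26_co

open Finset

variable {ι : Type}

/-- Disjoint edges that are not parallel have opposite extreme signs, and every triangle of
nonzero area attains the lower bound `-1`. -/
structure Tight (s : ι → ι → ℝ) (x y : ι → ℝ) : Prop where
  symm : ∀ i j, s i j = s j i
  bd : ∀ i j, |s i j| ≤ 1
  dis : ∀ i j k l, k ≠ i → l ≠ i → k ≠ j → l ≠ j → W x y i j k l ≠ 0 → s i j * s k l = -1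
  tri : ∀ i j l, D x y i j l ≠ 0 → s i j * s j l + s j l * s i l + s i l * s i j = -1

lemma Tight.swap {s : ι → ι → ℝ} {x y : ι → ℝ} (h : Tight s x y) :
    Tight (fun i j => - s i j) y x where
  symm := fun i j => by rw [h.symm]
  bd := fun i j => by rw [abs_neg]; exact h.bd i j
  dis := fun i j k l h1 h2 h3 h4 h5 => by
    rw [neg_mul_neg]
    refine h.dis i j k l h1 h2 h3 h4 fun h6 => h5 ?_
    simp only [W] at h6 ⊢
    linarith
  tri := fun i j l h5 => by
    simp only [neg_mul_neg]
    refine h.tri i j l fun h6 => h5 ?_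
    simp only [D] at h6 ⊢
    linarith

lemma rigid_fifth [Fintype ι] (hn : 5 ≤ Fintype.card ι) (a b c d : ι) :
    ∃ e, e ≠ a ∧ e ≠ b ∧ e ≠ c ∧ e ≠ d := by
  classical
  have h1 : ({a, b, c, d} : Finset ι).card < (univ : Finset ι).card := by
    have := Finset.card_le_four (a := a) (b := b) (c := c) (d := d)
    rw [Finset.card_univ]
    omega
  obtain ⟨e, -, he⟩ := Finset.exists_mem_notMem_of_card_lt_card h1
  simp only [Finset.mem_insert, Finset.mem_singleton, not_or] at he
  exact ⟨e, he⟩

/-- The case analysis in normalised coordinates. -/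
lemma rigid_norm [Fintype ι] (hn : 5 ≤ Fintype.card ι) {s : ι → ι → ℝ} {x y : ι → ℝ}
    (h : Tight s x y) {a b c d : ι} (xa : x a = 0) (ya : y a = 0) (xb : x b = 1) (yb : y b = 0)
    (xc : x c = 0) (yc : y c = 1) (sab : s a b = 1) (sac : s a c = -1) (da : d ≠ a) (db : d ≠ b)
    (dc : d ≠ c) (sdb : s d b ≠ 1) : ∀ k, k ≠ c → s c k = -1 := by
  have ab : a ≠ b := fun e => by rw [e, xb] at xa; norm_num at xa
  have ac : a ≠ c := fun e => by rw [e, yc] at ya; norm_num at ya
  have bc : b ≠ c := fun e => by rw [e, xc] at xb; norm_num at xb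
  have Pp : ∀ i j k l, k ≠ i → l ≠ i → k ≠ j → l ≠ j → W x y i j k l ≠ 0 → s i j = 1 →
      s k l = -1 := fun i j k l h1 h2 h3 h4 h5 h6 => by
    have := h.dis i j k l h1 h2 h3 h4 h5
    rw [h6] at this; linarith
  have Pm : ∀ i j k l, k ≠ i → l ≠ i → k ≠ j → l ≠ j → W x y i j k l ≠ 0 → s i j = -1 →
      s k l = 1 := fun i j k l h1 h2 h3 h4 h5 h6 => by
    have := h.dis i j k l h1 h2 h3 h4 h5
    rw [h6] at this; linarith
  have xd : x d = 1 := by
    by_contra hx
    refine sdb (Pm a c d b da ab.symm dc bc ?_ sac)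
    simp only [W, xa, ya, xb, xc, yc]
    intro h6; apply hx; linarith
  have Tadc := h.tri a d c (by simp only [D, xa, ya, xc, yc, xd]; norm_num)
  rw [sac] at Tadc
  have yd : y d = 0 := by
    by_contra hβ
    obtain ⟨e, ea, eb, ec, ed⟩ := rigid_fifth hn a b c d
    by_cases hγ : x e = 0
    · have sbe : s b e = 1 := Pm a c b e ab.symm ea bc ec
        (by simp only [W, xa, ya, xb, xc, yc, hγ]; norm_num) sac
      have sde : s d e = 1 := Pm a c d e da ea dc ec
        (by simp only [W, xa, ya, xc, yc, xd, hγ]; norm_num) sac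
      have hδ : y e = y d := by
        by_contra hδ
        have := Pp d e a b da.symm db.symm ea.symm eb.symm (by
          simp only [W, xa, ya, xb, yb, xd, hγ]
          intro h6; apply hδ; linarith) sde
        rw [sab] at this; norm_num at this
      have sbc : s b c = -1 := Pp d e b c db.symm dc.symm eb.symm ec.symm
        (by simp only [W, xb, yb, xc, yc, xd, hγ, hδ]; norm_num) sde
      have sae : s a e = 1 := Pm b c a e ab eb ac ec (by
        simp only [W, xa, ya, xb, yb, xc, yc, hγ, hδ]
        intro h6; apply hβ; linarith) sbc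
      have sdc : s d c = -1 := Pp a e d c da ac.symm ed.symm ec.symm (by
        simp only [W, xa, ya, xc, yc, xd, hγ, hδ]
        intro h6; apply hβ; linarith) sae
      have sad : s a d = -1 := Pp b e a d ab db ea.symm ed.symm (by
        simp only [W, xa, ya, xb, yb, xd, hγ, hδ]
        intro h6; apply hβ; linarith) sbe
      rw [sad, sdc] at Tadc
      norm_num at Tadc
    · have hγβ : x e * y d ≠ 0 := mul_ne_zero hγ hβ
      have h1 := h.dis d b a e da.symm ed ab eb (by
        simp only [W, xa, ya, xb, yb, xd]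
        intro h6; apply hγβ; linarith)
      have sdb' : s d b = -1 := by
        have b1 := abs_le.1 (h.bd d b)
        have b2 := abs_le.1 (h.bd a e)
        have n1 : 0 ≤ (1 + s d b) * (1 + s a e) := mul_nonneg (by linarith) (by linarith)
        have n2 : 0 ≤ (1 - s d b) * (1 - s a e) := mul_nonneg (by linarith) (by linarith)
        have n3 : s a e = - s d b := by nlinarith
        have h2 : (1 - s d b) * (1 + s d b) = 0 := by rw [n3] at h1; linarith
        rcases mul_eq_zero.1 h2 with h3 | h3
        · exact absurd (by linarith) sdb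
        · linarith
      have sae : s a e = 1 := by rw [sdb'] at h1; linarith
      have sce : s c e = 1 := Pm d b c e dc.symm ed bc.symm eb (by
        simp only [W, xb, yb, xc, yc, xd]
        intro h6; apply hγβ; linarith) sdb'
      have hδ : y e = 1 := by
        by_contra hδ
        have := Pp a b c e ac.symm ea bc.symm eb (by
          simp only [W, xa, ya, xb, yb, xc, yc]
          intro h6; apply hδ; linarith) sab
        rw [sce] at this; norm_num at this
      have sad : s a d = -1 := Pp c e a d ac dc ea.symm ed.symm (by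
        simp only [W, xa, ya, xc, yc, xd, hδ]
        intro h6; apply hγβ; linarith) sce
      have sdc : s d c = 1 := by rw [sad] at Tadc; linarith
      have hβ1 : y d = 1 := by
        by_contra hβ1
        have := Pp a b d c da ac.symm db bc.symm (by
          simp only [W, xa, ya, xb, yb, xc, yc, xd]
          intro h6; apply hβ1; linarith) sab
        rw [sdc] at this; norm_num at this
      have Tabe := h.tri a b e (by simp only [D, xa, ya, xb, yb, hδ]; norm_num)
      have sbe : s b e = -1 := by rw [sab, sae] at Tabe; linarith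
      have hγ1 : x e = 1 := by
        by_contra hγ1
        have := Pm a c b e ab.symm ea bc ec (by
          simp only [W, xa, ya, xb, xc, yc]
          intro h6; apply hγ1; linarith) sac
        rw [sbe] at this; norm_num at this
      have s1 : s b c = 1 := Pm a d b c ab.symm ac.symm db.symm dc.symm
        (by simp only [W, xa, ya, xb, yb, xc, yc, xd, hβ1]; norm_num) sad
      have s2 : s b c = -1 := Pp a e b c ab.symm ac.symm eb.symm ec.symm
        (by simp only [W, xa, ya, xb, yb, xc, yc, hγ1, hδ]; norm_num) sae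
      rw [s1] at s2; norm_num at s2
  have sdc : s d c = -1 := Pp a b d c da ac.symm db bc.symm
    (by simp only [W, xa, ya, xb, yb, xc, yc, xd, yd]; norm_num) sab
  have hab := h.dis a d b c ab.symm ac.symm db.symm dc.symm
    (by simp only [W, xa, ya, xb, yb, xc, yc, xd, yd]; norm_num)
  have hall : ∀ e, e ≠ a → e ≠ b → e ≠ c → e ≠ d → s e c = -1 ∧ s b c = -1 := by
    intro e ea eb ec ed
    have hδ : y e = 0 := by
      by_contra hδ
      have sed : s e d = -1 := Pp a b e d ea da eb db (by
        simp only [W, xa, ya, xb, yb, yd]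
        intro h6; apply hδ; linarith) sab
      have hγ : x e = 1 := by
        by_contra hγ
        have := Pm a c e d ea da ec dc (by
          simp only [W, xa, ya, xc, yc, xd]
          intro h6; apply hγ; linarith) sac
        rw [sed] at this; norm_num at this
      have sbc : s b c = 1 := Pm e d b c eb.symm ec.symm db.symm dc.symm (by
        simp only [W, xb, yb, xc, yc, xd, yd, hγ]
        intro h6; apply hδ; linarith) sed
      have sad : s a d = -1 := by rw [sbc] at hab; linarith
      by_cases hδ1 : y e = 1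
      · have sae : s a e = -1 := Pp b c a e ab eb ac ec
          (by simp only [W, xa, ya, xb, yb, xc, yc, hγ, hδ1]; norm_num) sbc
        have := Pm a e d c da ac.symm ed.symm ec.symm
          (by simp only [W, xa, ya, xc, yc, xd, yd, hγ, hδ1]; norm_num) sae
        rw [sdc] at this; norm_num at this
      · have s1 : s e c = -1 := Pp a b e c ea ac.symm eb bc.symm (by
          simp only [W, xa, ya, xb, yb, yc]
          intro h6; apply hδ1; linarith) sab
        have s2 : s e c = 1 := Pm a d e c ea ac.symm ed dc.symm (by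
          simp only [W, xa, ya, xd, yd, yc]
          intro h6; apply hδ1; linarith) sad
        rw [s1] at s2; norm_num at s2
    have sec : s e c = -1 := Pp a b e c ea ac.symm eb bc.symm
      (by simp only [W, xa, ya, xb, yb, yc, hδ]; norm_num) sab
    have sad : s a d = 1 := Pm e c a d ea.symm ed.symm ac dc
      (by simp only [W, xa, ya, xc, yc, xd, yd, hδ]; norm_num) sec
    exact ⟨sec, by rw [sad] at hab; linarith⟩
  intro k kc
  rw [h.symm]
  by_cases ka : k = a
  · rw [ka, sac]
  by_cases kb : k = b
  · obtain ⟨e, ea, eb, ec, ed⟩ := rigid_fifth hn a b c d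
    rw [kb]; exact (hall e ea eb ec ed).2
  by_cases kd : k = d
  · rw [kd, sdc]
  exact (hall k ka kb kc kd).1

/-- An isolated vertex, a dominating vertex, or a pair as in the `SE` graphs. -/
def Shape (s : ι → ι → ℝ) : Prop :=
  (∃ c, ∀ k, k ≠ c → s c k = -1) ∨ (∃ b, ∀ k, k ≠ b → s b k = 1) ∨
    ∃ c b, c ≠ b ∧ ∀ k, k ≠ c → k ≠ b → s c k = -1 ∧ s b k = 1

lemma rigid_tri [Fintype ι] (hn : 5 ≤ Fintype.card ι) {s : ι → ι → ℝ} {x y : ι → ℝ}
    (h : Tight s x y) {a b c : ι} (hD : D x y a b c ≠ 0) (sab : s a b = 1) (sac : s a c = -1) :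
    Shape s := by
  obtain ⟨p, hp⟩ : ∃ p : ι → ℝ, ∀ i, p i = D x y a i c / D x y a b c := ⟨_, fun _ => rfl⟩
  obtain ⟨q, hq⟩ : ∃ q : ι → ℝ, ∀ i, q i = D x y a b i / D x y a b c := ⟨_, fun _ => rfl⟩
  have hW : ∀ i j k l, W p q i j k l = W x y i j k l / D x y a b c := by
    intro i j k l
    simp only [W, hp, hq]
    field_simp
    simp only [D]
    ring
  have hD' : ∀ i j l, D p q i j l = D x y i j l / D x y a b c := fun i j l => hW i j i l
  have ht : Tight s p q := ⟨h.symm, h.bd, fun i j k l h1 h2 h3 h4 h5 =>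
    h.dis i j k l h1 h2 h3 h4 fun h6 => h5 (by rw [hW, h6, zero_div]),
    fun i j l h5 => h.tri i j l fun h6 => h5 (by rw [hD', h6, zero_div])⟩
  have pa : p a = 0 := by rw [hp]; simp [D]
  have qa : q a = 0 := by rw [hq]; simp [D]
  have pb : p b = 1 := by rw [hp, div_self hD]
  have qb : q b = 0 := by rw [hq]; simp [D]
  have pc : p c = 0 := by rw [hp]; simp [D]
  have qc : q c = 1 := by rw [hq, div_self hD]
  by_cases h1 : ∃ d, d ≠ a ∧ d ≠ b ∧ d ≠ c ∧ s d b ≠ 1
  · obtain ⟨d, da, db, dc, hd⟩ := h1
    exact Or.inl ⟨c, rigid_norm hn ht pa qa pb qb pc qc sab sac da db dc hd⟩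
  by_cases h2 : ∃ d, d ≠ a ∧ d ≠ b ∧ d ≠ c ∧ s d c ≠ -1
  · obtain ⟨d, da, db, dc, hd⟩ := h2
    have h3 := rigid_norm hn ht.swap qa pa qc pc qb pb (by rw [sac]; norm_num) (by rw [sab]) da dc
      db (fun e => hd (by linarith))
    exact Or.inr (Or.inl ⟨b, fun k hk => by linarith [h3 k hk]⟩)
  push Not at h1 h2
  refine Or.inr (Or.inr ⟨c, b, fun e => ?_, fun k kc kb => ?_⟩)
  · rw [e, pb] at pc; norm_num at pc
  · rw [h.symm c, h.symm b]
    by_cases ka : k = a
    · rw [ka]; exact ⟨sac, sab⟩
    · exact ⟨h2 k ka kb kc, h1 k ka kb kc⟩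

theorem rigid_shape [Fintype ι] (hn : 5 ≤ Fintype.card ι) {s : ι → ι → ℝ} {x y : ι → ℝ}
    (h : Tight s x y) {i j l : ι} (hD : D x y i j l ≠ 0) : Shape s := by
  have hT := h.tri i j l hD
  have b1 := abs_le.1 (h.bd i j)
  have b2 := abs_le.1 (h.bd j l)
  have b3 := abs_le.1 (h.bd i l)
  have n1 : 0 ≤ (1 + s i j) * (1 + s j l) * (1 + s i l) :=
    mul_nonneg (mul_nonneg (by linarith) (by linarith)) (by linarith)
  have n2 : 0 ≤ (1 - s i j) * (1 - s j l) * (1 - s i l) :=
    mul_nonneg (mul_nonneg (by linarith) (by linarith)) (by linarith)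
  have e1 : (1 + s i j) * (1 + s j l) * (1 + s i l) = 0 := by nlinarith
  have e2 : (1 - s i j) * (1 - s j l) * (1 - s i l) = 0 := by nlinarith
  have hperm : ∀ a b c : ι, (D x y a b c = D x y i j l ∨ D x y a b c = - D x y i j l) →
      D x y a b c ≠ 0 := by
    rintro a b c (e | e) <;> rw [e]
    · exact hD
    · exact neg_ne_zero.2 hD
  have ji := h.symm j i
  have lj := h.symm l j
  have li := h.symm l i
  simp only [mul_eq_zero] at e1 e2
  rcases e1 with (e1 | e1) | e1 <;> rcases e2 with (e2 | e2) | e2
  · linarith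
  · exact rigid_tri hn h (hperm j l i (Or.inl (by simp only [D]; ring))) (by linarith) (by linarith)
  · exact rigid_tri hn h (hperm i l j (Or.inr (by simp only [D]; ring))) (by linarith) (by linarith)
  · exact rigid_tri hn h (hperm j i l (Or.inr (by simp only [D]; ring))) (by linarith) (by linarith)
  · linarith
  · exact rigid_tri hn h (hperm l i j (Or.inl (by simp only [D]; ring))) (by linarith) (by linarith)
  · exact rigid_tri hn h hD (by linarith) (by linarith)
  · exact rigid_tri hn h (hperm l j i (Or.inr (by simp only [D]; ring))) (by linarith) (by linarith)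
  · linarith

end Pool.Agent.Lib.MP_3a2c26_co
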