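import Pool.Agent.Lib.MP_3a2c26_co.Eigen
import Pool.Agent.Lib.MP_3a2c26_co.Rigid

/-! An isolated vertex forces the second smallest Laplacian eigenvalue to vanish. -/

set_option autoImplicit false

namespace Pool.Agent.Lib.MP_3a2c26_co

open Finset Matrix

variable {n : ℕ}

theorem eig_isolated (w : Fin n → Fin n → ℝ) (hw : ∀ i j, w i j = w j i)
    (h : (lap w).IsHermitian) (k : Fin (Fintype.card (Fin n))) (hk : k.val + 2 = n) (a : Fin n)
    (ha : ∀ j, j ≠ a → w a j = 0) : h.eigenvalues₀ k ≤ 0 := by
  by_contra hpos
  push Not at hpos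
  set e := (Fintype.equivOfCardEq (Fintype.card_fin (Fintype.card (Fin n))) :
    Fin (Fintype.card (Fin n)) ≃ Fin n) with he
  have hev : ∀ m, h.eigenvalues (e m) = h.eigenvalues₀ m := by
    intro m; simp [Matrix.IsHermitian.eigenvalues, he]
  have hb : ∀ m, lap w *ᵥ (h.eigenvectorBasis (e m)).ofLp
      = h.eigenvalues₀ m • (h.eigenvectorBasis (e m)).ofLp := by
    intro m; rw [← hev]; exact h.mulVec_eigenvectorBasis (e m)
  have hcard := Fintype.card_fin n
  have hlt : k.val + 1 < Fintype.card (Fin n) := by omega
  set k' : Fin (Fintype.card (Fin n)) := ⟨k.val + 1, hlt⟩ with hk'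
  have key : ∀ z : Fin n → ℝ, (∀ i j, i ≠ a → j ≠ a → z i = z j) →
      ∑ i, z i * (h.eigenvectorBasis (e k')).ofLp i = 0 → z = 0 := by
    intro z hz h0
    have h1 : ∀ m, ∑ i, z i * (h.eigenvectorBasis (e m)).ofLp i = 0 := by
      intro m
      by_cases hm : m = k'
      · rw [hm, h0]
      have hmk : m ≤ k := by
        have h2 : m.val ≠ k.val + 1 := fun e => hm (Fin.ext e)
        have := m.isLt
        rw [Fin.le_def]; omega
      have h3 : 0 < h.eigenvalues₀ m := hpos.trans_le (h.eigenvalues₀_antitone hmk)
      have h4 := form_eq w hw (h.eigenvectorBasis (e m)).ofLp z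
      rw [hb, Finset.sum_eq_zero] at h4
      · have h5 : ∑ i, z i * (h.eigenvalues₀ m • (h.eigenvectorBasis (e m)).ofLp) i =
            h.eigenvalues₀ m * ∑ i, z i * (h.eigenvectorBasis (e m)).ofLp i := by
          rw [Finset.mul_sum]
          exact Finset.sum_congr rfl fun i _ => by simp only [Pi.smul_apply, smul_eq_mul]; ring
        rw [h5] at h4
        exact (mul_eq_zero.1 (by linarith)).resolve_left h3.ne'
      · intro i _
        refine Finset.sum_eq_zero fun j _ => ?_
        by_cases hij : i = j
        · rw [hij]; simp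
        by_cases hi : i = a
        · rw [hi, ha j (fun e => hij (hi.trans e.symm)), zero_mul]
        by_cases hj : j = a
        · rw [hw, hj, ha i hi, zero_mul]
        rw [hz i j hi hj]; simp
    have h2 := h.eigenvectorBasis.sum_repr' (WithLp.toLp 2 z)
    rw [Finset.sum_eq_zero] at h2
    · have h3 := congrArg WithLp.ofLp h2
      simpa using h3.symm
    · intro i _
      obtain ⟨m, rfl⟩ := e.surjective i
      rw [EuclideanSpace.inner_eq_star_dotProduct]
      simp only [star_trivial, dotProduct]
      rw [h1 m, zero_smul]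
  obtain ⟨b, hba⟩ : ∃ b : Fin n, b ≠ a := by
    have : Nontrivial (Fin n) := Fin.nontrivial_iff_two_le.2 (by omega)
    exact exists_ne a
  by_cases hq : (h.eigenvectorBasis (e k')).ofLp a = 0
  · have h1 := key (fun i => if i = a then 1 else 0) (fun i j hi hj => by simp [hi, hj])
      (by simp [hq])
    simpa using congrFun h1 a
  · have h1 := key (fun i => (h.eigenvectorBasis (e k')).ofLp a -
        if i = a then ∑ j, (h.eigenvectorBasis (e k')).ofLp j else 0)
      (fun i j hi hj => by simp [hi, hj]) (by
        simp only [sub_mul, Finset.sum_sub_distrib, ← Finset.mul_sum, ite_mul, zero_mul,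
          Finset.sum_ite_eq', Finset.mem_univ, if_true]
        ring)
    have h2 := congrFun h1 b
    simp only [hba, if_false, sub_zero, Pi.zero_apply] at h2
    exact hq h2

end Pool.Agent.Lib.MP_3a2c26_co
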